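import Mathlib

/-!
# Heat kernel of simple random walk on `ℤ^4`

`p n x` is the probability that simple random walk on `ℤ^4` started at `0` is at `x` at time `n`.
We prove `p n x ≤ 16/((n+1)(n+2))` and `p (2n) 0 ≥ c/(n+1)^2` by an exact decomposition:
each step chooses one of the two coordinate planes with probability `1/2`, and planar simple random
walk is the product of two one-dimensional walks in rotated coordinates.
-/

namespace Pool.Agent.Lib.MP_e4a9a7_pr

open Finset

/-- the eight steps `± e_i` of simple random walk on `ℤ^4` -/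
def stepVec (s : Fin 4 × Bool) : Fin 4 → ℤ :=
  if s.2 then Pi.single s.1 1 else Pi.single s.1 (-1)

/-- transition probabilities of simple random walk on `ℤ^4` -/
noncomputable def p : ℕ → (Fin 4 → ℤ) → ℝ
  | 0, x => if x = 0 then 1 else 0
  | (n + 1), x => (1 / 8) * ∑ s : Fin 4 × Bool, p n (x - stepVec s)

/-- one-dimensional simple random walk -/
noncomputable def b : ℕ → ℤ → ℝ
  | 0, z => if z = 0 then 1 else 0
  | (n + 1), z => (b n (z - 1) + b n (z + 1)) / 2

theorem b_nonneg (n : ℕ) (z : ℤ) : 0 ≤ b n z := by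
  induction n generalizing z with
  | zero => simp only [b]; split_ifs <;> norm_num
  | succ n ih => simp only [b]; have := ih (z - 1); have := ih (z + 1); positivity

theorem b_lt (n : ℕ) (z : ℤ) (h : z < -n) : b n z = 0 := by
  induction n generalizing z with
  | zero => simp only [b]; rw [if_neg]; push_cast at h; omega
  | succ n ih =>
    simp only [b]; push_cast at h
    rw [ih (z - 1) (by omega), ih (z + 1) (by omega)]; norm_num

theorem b_odd (n : ℕ) (z : ℤ) (h : (n + z) % 2 = 1) : b n z = 0 := by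
  induction n generalizing z with
  | zero => simp only [b]; rw [if_neg]; push_cast at h; omega
  | succ n ih =>
    simp only [b]; push_cast at h
    rw [ih (z - 1) (by omega), ih (z + 1) (by omega)]; norm_num

theorem b_eq (n j : ℕ) : b n (2 * j - n) = (n.choose j : ℝ) / 2 ^ n := by
  induction n generalizing j with
  | zero =>
    simp only [b]
    rcases j with _ | j
    · simp
    · simp only [Nat.choose_zero_succ]; rw [if_neg]; · simp
      · push_cast; omega
  | succ n ih =>
    simp only [b]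
    rcases j with _ | j
    · rw [b_lt n _ (by push_cast; omega)]
      have := ih 0
      have e : (2 * ((0 : ℕ) : ℤ) - ((n + 1 : ℕ) : ℤ) + 1) = 2 * ((0 : ℕ) : ℤ) - n := by push_cast; ring
      rw [e, this]; simp [pow_succ]; ring
    · have e1 : (2 * ((j + 1 : ℕ) : ℤ) - ((n + 1 : ℕ) : ℤ) - 1) = 2 * (j : ℤ) - n := by push_cast; ring
      have e2 : (2 * ((j + 1 : ℕ) : ℤ) - ((n + 1 : ℕ) : ℤ) + 1) = 2 * ((j + 1 : ℕ) : ℤ) - n := by
        push_cast; ring
      rw [e1, e2, ih, ih, Nat.choose_succ_succ]; push_cast; field_simp; ring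

theorem centralBinom_sq_le (m : ℕ) :
    ((Nat.centralBinom m : ℝ) / 4 ^ m) ^ 2 ≤ 1 / (2 * m + 1) := by
  induction m with
  | zero => simp
  | succ m ih =>
    have h : ((m : ℝ) + 1) * (Nat.centralBinom (m + 1) : ℝ)
        = 2 * (2 * m + 1) * (Nat.centralBinom m : ℝ) := by
      exact_mod_cast Nat.succ_mul_centralBinom_succ m
    have h' : (Nat.centralBinom (m + 1) : ℝ) = 2 * (2 * m + 1) * (Nat.centralBinom m : ℝ) / (m + 1) := by
      field_simp; linarith
    have e : ((Nat.centralBinom (m + 1) : ℝ) / 4 ^ (m + 1)) ^ 2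
        = ((Nat.centralBinom m : ℝ) / 4 ^ m) ^ 2 * ((2 * m + 1) ^ 2 / (2 * m + 2) ^ 2) := by
      rw [h']; field_simp; ring
    rw [e]
    calc _ ≤ 1 / (2 * (m : ℝ) + 1) * ((2 * m + 1) ^ 2 / (2 * m + 2) ^ 2) := by gcongr
      _ ≤ _ := by
        push_cast
        rw [div_mul_div_comm, div_le_div_iff₀ (by positivity) (by positivity)]
        have : (0 : ℝ) ≤ m := Nat.cast_nonneg m
        nlinarith [mul_nonneg this this, mul_nonneg (mul_nonneg this this) this]

theorem le_centralBinom_sq (m : ℕ) (hm : 1 ≤ m) :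
    1 / (4 * (m : ℝ)) ≤ ((Nat.centralBinom m : ℝ) / 4 ^ m) ^ 2 := by
  induction m, hm using Nat.le_induction with
  | base => simp [Nat.centralBinom, Nat.choose]; norm_num
  | succ m hm ih =>
    have h : ((m : ℝ) + 1) * (Nat.centralBinom (m + 1) : ℝ)
        = 2 * (2 * m + 1) * (Nat.centralBinom m : ℝ) := by
      exact_mod_cast Nat.succ_mul_centralBinom_succ m
    have h' : (Nat.centralBinom (m + 1) : ℝ) = 2 * (2 * m + 1) * (Nat.centralBinom m : ℝ) / (m + 1) := by
      field_simp; linarith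
    have e : ((Nat.centralBinom (m + 1) : ℝ) / 4 ^ (m + 1)) ^ 2
        = ((Nat.centralBinom m : ℝ) / 4 ^ m) ^ 2 * ((2 * m + 1) ^ 2 / (2 * m + 2) ^ 2) := by
      rw [h']; field_simp; ring
    rw [e]
    have hm' : (1 : ℝ) ≤ m := by exact_mod_cast hm
    calc _ ≥ 1 / (4 * (m : ℝ)) * ((2 * m + 1) ^ 2 / (2 * m + 2) ^ 2) := by gcongr
      _ ≥ _ := by
        push_cast
        rw [ge_iff_le, div_mul_div_comm, div_le_div_iff₀ (by positivity) (by positivity)]
        nlinarith [mul_nonneg (by linarith : (0:ℝ) ≤ m) (by linarith : (0:ℝ) ≤ m)]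

theorem b_even_sq_le (m : ℕ) (z : ℤ) : b (2 * m) z ^ 2 ≤ 1 / (2 * m + 1) := by
  by_cases h1 : z < -(2 * m : ℕ)
  · rw [b_lt _ _ h1]; simp; positivity
  by_cases h2 : (((2 * m : ℕ) : ℤ) + z) % 2 = 1
  · rw [b_odd _ _ h2]; simp; positivity
  obtain ⟨j, hj⟩ : ∃ j : ℕ, z = 2 * j - (2 * m : ℕ) := by
    refine ⟨((((2 * m : ℕ) : ℤ) + z) / 2).toNat, ?_⟩
    omega
  rw [hj, b_eq]
  refine le_trans ?_ (centralBinom_sq_le m)
  have h3 : (((2 * m).choose j : ℕ) : ℝ) ≤ (Nat.centralBinom m : ℝ) := by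
    exact_mod_cast Nat.choose_le_centralBinom j m
  rw [pow_mul]; norm_num
  gcongr

theorem b_sq_le (n : ℕ) (z : ℤ) : b n z ^ 2 ≤ 2 / (n + 1) := by
  rcases Nat.even_or_odd' n with ⟨m, hm | hm⟩
  · subst hm
    refine (b_even_sq_le m z).trans ?_
    push_cast
    gcongr; norm_num
  · subst hm
    have h1 := b_even_sq_le m (z - 1)
    have h2 := b_even_sq_le m (z + 1)
    have h3 : b (2 * m + 1) z = (b (2 * m) (z - 1) + b (2 * m) (z + 1)) / 2 := rfl
    have h4 : (b (2 * m + 1) z) ^ 2 ≤ 1 / (2 * m + 1) := by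
      rw [h3]; nlinarith [sq_nonneg (b (2 * m) (z - 1) - b (2 * m) (z + 1))]
    refine h4.trans ?_
    push_cast
    rw [div_le_div_iff₀ (by positivity) (by positivity)]
    have : (0 : ℝ) ≤ m := Nat.cast_nonneg m
    nlinarith

/-- planar simple random walk in rotated coordinates -/
noncomputable def bb (k : ℕ) (u v : ℤ) : ℝ := b k (u + v) * b k (u - v)

theorem bb_nonneg (k : ℕ) (u v : ℤ) : 0 ≤ bb k u v := mul_nonneg (b_nonneg _ _) (b_nonneg _ _)

theorem bb_le (k : ℕ) (u v : ℤ) : bb k u v ≤ 2 / (k + 1) := by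
  unfold bb
  nlinarith [b_sq_le k (u + v), b_sq_le k (u - v), sq_nonneg (b k (u + v) - b k (u - v))]

theorem bb_succ (k : ℕ) (u v : ℤ) :
    bb (k + 1) u v = (bb k (u - 1) v + bb k (u + 1) v + bb k u (v - 1) + bb k u (v + 1)) / 4 := by
  unfold bb
  simp only [b]
  have e1 : u - 1 + v = u + v - 1 := by ring
  have e2 : u - 1 - v = u - v - 1 := by ring
  have e3 : u + 1 + v = u + v + 1 := by ring
  have e4 : u + 1 - v = u - v + 1 := by ring
  have e5 : u + (v - 1) = u + v - 1 := by ring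
  have e6 : u - (v - 1) = u - v + 1 := by ring
  have e7 : u + (v + 1) = u + v + 1 := by ring
  have e8 : u - (v + 1) = u - v - 1 := by ring
  rw [e1, e2, e3, e4, e5, e6, e7, e8]
  ring

theorem p_eq (n : ℕ) (x : Fin 4 → ℤ) :
    p n x = (∑ ij ∈ antidiagonal n, (n.choose ij.1 : ℝ) * (bb ij.1 (x 0) (x 1) * bb ij.2 (x 2) (x 3)))
      / 2 ^ n := by
  induction n generalizing x with
  | zero =>
    simp only [p, Finset.Nat.antidiagonal_zero, sum_singleton, Nat.choose_self, Nat.cast_one, one_mul, pow_zero,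
      div_one, bb, b]
    by_cases h : x = 0
    · simp [h]
    · rw [if_neg h]
      by_contra hne
      apply h
      have h' := Ne.symm hne
      simp only [ne_eq, mul_eq_zero, ite_eq_right_iff, one_ne_zero, imp_false, not_or, not_not] at h'
      obtain ⟨⟨h1, h2⟩, h3, h4⟩ := h'
      funext i
      fin_cases i <;> simp <;> omega
  | succ n ih =>
    rw [sum_antidiagonal_choose_succ_mul (fun i j => bb i (x 0) (x 1) * bb j (x 2) (x 3))]
    have hsw : ∑ ij ∈ antidiagonal n, (n.choose ij.2 : ℝ) * (bb (ij.1 + 1) (x 0) (x 1) * bb ij.2 (x 2) (x 3))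
        = ∑ ij ∈ antidiagonal n, (n.choose ij.1 : ℝ) * (bb (ij.1 + 1) (x 0) (x 1) * bb ij.2 (x 2) (x 3)) := by
      apply sum_congr rfl
      rintro ⟨i, j⟩ hij
      rw [HasAntidiagonal.mem_antidiagonal] at hij
      simp only at hij ⊢
      rw [show n.choose j = n.choose i from by rw [← hij]; exact Nat.choose_symm_of_eq_add (by omega)]
    rw [hsw]
    simp only [p, ih]
    rw [Fintype.sum_prod_type]
    simp only [Fin.sum_univ_four, Fintype.sum_bool, stepVec, if_true, Bool.false_eq_true, if_false,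
      Pi.sub_apply]
    simp only [Pi.single_apply, Fin.isValue, Fin.reduceEq, if_true, if_false, sub_zero,
      sub_neg_eq_add]
    simp only [bb_succ]
    rw [← sum_add_distrib]
    simp only [sum_div, ← sum_add_distrib, mul_sum]
    apply sum_congr rfl
    rintro ⟨i, j⟩ -
    simp only
    field_simp
    ring

theorem p_nonneg (n : ℕ) (x : Fin 4 → ℤ) : 0 ≤ p n x := by
  rw [p_eq]
  have := bb_nonneg
  apply div_nonneg _ (by positivity)
  exact sum_nonneg fun ij _ => mul_nonneg (by positivity) (mul_nonneg (this _ _ _) (this _ _ _))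

/-- on-diagonal upper bound (uniform in `x`) -/
theorem p_le (n : ℕ) (x : Fin 4 → ℤ) : p n x ≤ 16 / ((n + 1) * (n + 2)) := by
  rw [p_eq, div_le_iff₀ (by positivity)]
  have h1 : ∀ ij ∈ antidiagonal n, (n.choose ij.1 : ℝ) * (bb ij.1 (x 0) (x 1) * bb ij.2 (x 2) (x 3))
      ≤ 4 / ((n + 1) * (n + 2)) * (((n + 2).choose (ij.1 + 1) : ℕ) : ℝ) := by
    rintro ⟨i, j⟩ hij
    rw [HasAntidiagonal.mem_antidiagonal] at hij
    simp only at hij ⊢
    have h2 : bb i (x 0) (x 1) * bb j (x 2) (x 3) ≤ (2 / (i + 1)) * (2 / (j + 1)) :=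
      mul_le_mul (bb_le _ _ _) (bb_le _ _ _) (bb_nonneg _ _ _) (by positivity)
    have h3 : (((n + 2).choose (i + 1) : ℕ) : ℝ) * ((i + 1) * (j + 1))
        = (n.choose i : ℝ) * ((n + 1) * (n + 2)) := by
      have a1 : (n + 2) * (n + 1).choose i = (n + 2).choose (i + 1) * (i + 1) := by
        have := Nat.add_one_mul_choose_eq (n + 1) i
        simpa using this
      have a2 : (n + 1) * n.choose i = (n + 1).choose i * (j + 1) := by
        have := Nat.add_one_mul_choose_eq n j
        have e1 : (n + 1).choose (j + 1) = (n + 1).choose i :=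
          Nat.choose_symm_of_eq_add (by omega)
        have e2 : n.choose j = n.choose i := Nat.choose_symm_of_eq_add (by omega)
        rw [e1, e2] at this
        exact this
      have a1' : ((n : ℝ) + 2) * ((n + 1).choose i : ℝ) = ((n + 2).choose (i + 1) : ℝ) * (i + 1) := by
        exact_mod_cast a1
      have a2' : ((n : ℝ) + 1) * (n.choose i : ℝ) = ((n + 1).choose i : ℝ) * (j + 1) := by
        exact_mod_cast a2
      calc _ = (((n + 2).choose (i + 1) : ℝ) * (i + 1)) * (j + 1) := by ring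
        _ = (n + 2) * (((n + 1).choose i : ℝ) * (j + 1)) := by rw [← a1']; ring
        _ = _ := by rw [← a2']; ring
    calc (n.choose i : ℝ) * (bb i (x 0) (x 1) * bb j (x 2) (x 3))
        ≤ (n.choose i : ℝ) * ((2 / (i + 1)) * (2 / (j + 1))) := by gcongr
      _ = 4 / ((n + 1) * (n + 2)) * ((n.choose i : ℝ) * ((n + 1) * (n + 2))) / ((i + 1) * (j + 1)) := by
          field_simp; ring
      _ = _ := by rw [← h3]; field_simp
  refine (sum_le_sum h1).trans ?_
  rw [← mul_sum]
  have h4 : ∑ ij ∈ antidiagonal n, (((n + 2).choose (ij.1 + 1) : ℕ) : ℝ) ≤ 2 ^ (n + 2) := by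
    rw [Finset.Nat.sum_antidiagonal_eq_sum_range_succ_mk]
    simp only
    have h5 : ∑ k ∈ range (n + 3), ((n + 2).choose k) = 2 ^ (n + 2) := Nat.sum_range_choose (n + 2)
    rw [sum_range_succ', sum_range_succ] at h5
    have h6 : ∑ k ∈ range (n + 1), ((n + 2).choose (k + 1)) ≤ 2 ^ (n + 2) := by omega
    exact_mod_cast h6
  calc _ ≤ 4 / (((n : ℝ) + 1) * (n + 2)) * 2 ^ (n + 2) := by gcongr
    _ = _ := by rw [pow_add]; ring

theorem p_le' (n : ℕ) (x : Fin 4 → ℤ) : p n x ≤ 16 / (n + 1) ^ 2 := by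
  refine (p_le n x).trans ?_
  gcongr
  nlinarith

theorem b_even_zero (m : ℕ) : b (2 * m) 0 = (Nat.centralBinom m : ℝ) / 4 ^ m := by
  have := b_eq (2 * m) m
  have e : (2 * (m : ℤ) - ((2 * m : ℕ) : ℤ)) = 0 := by push_cast; ring
  rw [e] at this
  rw [this, pow_mul, Nat.centralBinom]; norm_num

theorem bb_even_zero (m : ℕ) : 1 / (4 * ((m : ℝ) + 1)) ≤ bb (2 * m) 0 0 := by
  unfold bb
  simp only [add_zero, sub_zero]
  rw [b_even_zero, ← sq]
  rcases Nat.eq_zero_or_pos m with h | h
  · subst h; norm_num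
  · refine le_trans ?_ (le_centralBinom_sq m h)
    have : (1 : ℝ) ≤ m := by exact_mod_cast h
    gcongr; linarith

/-- lower bound for the return probability at even times -/
theorem le_p_zero (n : ℕ) : 1 / (8 * ((n : ℝ) + 2) ^ 2) ≤ p (2 * n) 0 := by
  rw [p_eq, le_div_iff₀ (by positivity)]
  rcases Nat.eq_zero_or_pos n with hn | hn
  · subst hn; simp [bb, b]; norm_num
  simp only [Pi.zero_apply]
  have h1 : ∀ ij ∈ antidiagonal (2 * n),
      (((2 * n).choose ij.1 : ℕ) : ℝ) * ((1 + (-1 : ℝ) ^ ij.1) / 2) * (1 / (4 * ((n : ℝ) + 2) ^ 2))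
      ≤ (((2 * n).choose ij.1 : ℕ) : ℝ) * (bb ij.1 0 0 * bb ij.2 0 0) := by
    rintro ⟨i, j⟩ hij
    rw [HasAntidiagonal.mem_antidiagonal] at hij
    simp only at hij ⊢
    rcases Nat.even_or_odd' i with ⟨k, hk | hk⟩
    · obtain ⟨l, hl⟩ : ∃ l, j = 2 * l := ⟨n - k, by omega⟩
      subst hk hl
      have hkl : (k : ℝ) + l = n := by
        have : k + l = n := by omega
        exact_mod_cast this
      have e : (1 + (-1 : ℝ) ^ (2 * k)) / 2 = 1 := by rw [pow_mul]; norm_num
      rw [mul_assoc, e, one_mul]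
      apply mul_le_mul_of_nonneg_left _ (Nat.cast_nonneg _)
      calc 1 / (4 * ((n : ℝ) + 2) ^ 2) ≤ (1 / (4 * ((k : ℝ) + 1))) * (1 / (4 * ((l : ℝ) + 1))) := by
            rw [div_mul_div_comm, one_mul]
            apply one_div_le_one_div_of_le (by positivity)
            rw [← hkl]
            nlinarith [sq_nonneg ((k : ℝ) - l)]
        _ ≤ _ := mul_le_mul (bb_even_zero k) (bb_even_zero l) (by positivity) (bb_nonneg _ _ _)
    · subst hk
      have e : (1 + (-1 : ℝ) ^ (2 * k + 1)) / 2 = 0 := by rw [pow_succ, pow_mul]; norm_num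
      rw [e]
      have := mul_nonneg (bb_nonneg (2 * k + 1) 0 0) (bb_nonneg j 0 0)
      simp only [mul_zero, zero_mul]
      positivity
  refine le_trans ?_ (sum_le_sum h1)
  rw [← sum_mul]
  have h2 : ∑ ij ∈ antidiagonal (2 * n),
      (((2 * n).choose ij.1 : ℕ) : ℝ) * ((1 + (-1 : ℝ) ^ ij.1) / 2) = 2 ^ (2 * n) / 2 := by
    have a1 : ∑ ij ∈ antidiagonal (2 * n), (((2 * n).choose ij.1 : ℕ) : ℝ) = 2 ^ (2 * n) := by
      rw [Finset.Nat.sum_antidiagonal_eq_sum_range_succ_mk]
      have := Nat.sum_range_choose (2 * n)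
      exact_mod_cast this
    have a2 : ∑ ij ∈ antidiagonal (2 * n), (((2 * n).choose ij.1 : ℕ) : ℝ) * (-1 : ℝ) ^ ij.1 = 0 := by
      rw [Finset.Nat.sum_antidiagonal_eq_sum_range_succ_mk]
      have := Int.alternating_sum_range_choose_of_ne (n := 2 * n) (by omega)
      have h3 : ((∑ m ∈ range (2 * n + 1), ((-1) ^ m * ((2 * n).choose m) : ℤ) : ℤ) : ℝ) = 0 := by
        rw [this]; simp
      push_cast at h3
      rw [← h3]
      apply sum_congr rfl
      intros; ring
    calc _ = (∑ ij ∈ antidiagonal (2 * n), (((2 * n).choose ij.1 : ℕ) : ℝ)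
          + ∑ ij ∈ antidiagonal (2 * n), (((2 * n).choose ij.1 : ℕ) : ℝ) * (-1 : ℝ) ^ ij.1) / 2 := by
            rw [← sum_add_distrib, sum_div]
            apply sum_congr rfl
            intros; ring
      _ = _ := by rw [a1, a2]; ring
  rw [h2]
  apply le_of_eq
  field_simp
  ring

end Pool.Agent.Lib.MP_e4a9a7_pr
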