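import Mathlib
import Pool.Agent.Lib.MP_e4a9a7_pr.HeatKernel

/-!
# Finite averages over step sequences
-/

namespace Pool.Agent.Lib.MP_e4a9a7_pr

open Finset

/-- a step: coordinate and sign -/
abbrev Stp := Fin 4 × Bool

/-- step sequences -/
abbrev Pth := ℕ → Stp

def dflt : Pth := fun _ => (0, false)

/-- prepend a step -/
def cns (s : Stp) (u : Pth) : Pth
  | 0 => s
  | (n + 1) => u n

/-- average over the first `n` steps (uniform), the remaining steps being `dflt` -/
noncomputable def av : ℕ → (Pth → ℝ) → ℝ
  | 0, F => F dflt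
  | (n + 1), F => (∑ s : Stp, av n (fun u => F (cns s u))) / 8

/-- displacement after `n` steps -/
def S (u : Pth) (n : ℕ) : Fin 4 → ℤ := ∑ i ∈ range n, stepVec (u i)

/-- first `m` steps of `u`, then `v` -/
def app (m : ℕ) (u v : Pth) : Pth := fun i => if i < m then u i else v (i - m)

/-- drop the first `m` steps -/
def sh (m : ℕ) (u : Pth) : Pth := fun i => u (m + i)

@[simp] theorem cns_zero (s : Stp) (u : Pth) : cns s u 0 = s := rfl
@[simp] theorem cns_succ (s : Stp) (u : Pth) (n : ℕ) : cns s u (n + 1) = u n := rfl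

theorem av_zero (F : Pth → ℝ) : av 0 F = F dflt := rfl
theorem av_succ (n : ℕ) (F : Pth → ℝ) :
    av (n + 1) F = (∑ s : Stp, av n (fun u => F (cns s u))) / 8 := rfl

theorem card_stp : (Finset.univ : Finset Stp).card = 8 := by decide

theorem av_const (n : ℕ) (c : ℝ) : av n (fun _ => c) = c := by
  induction n with
  | zero => rfl
  | succ n ih => rw [av_succ, ih, sum_const, card_stp]; simp

theorem av_add (n : ℕ) (F G : Pth → ℝ) : av n (fun u => F u + G u) = av n F + av n G := by
  induction n generalizing F G with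
  | zero => rfl
  | succ n ih =>
    rw [av_succ, av_succ, av_succ]
    simp only [ih]
    rw [sum_add_distrib, add_div]

theorem av_mul_left (n : ℕ) (c : ℝ) (F : Pth → ℝ) : av n (fun u => c * F u) = c * av n F := by
  induction n generalizing F with
  | zero => rfl
  | succ n ih =>
    rw [av_succ, av_succ]
    simp only [ih]
    rw [← mul_sum, mul_div_assoc]

theorem av_mul_right (n : ℕ) (c : ℝ) (F : Pth → ℝ) : av n (fun u => F u * c) = av n F * c := by
  have := av_mul_left n c F
  rw [mul_comm (av n F) c, ← this]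
  congr 1; funext u; ring

theorem av_sub (n : ℕ) (F G : Pth → ℝ) : av n (fun u => F u - G u) = av n F - av n G := by
  have h1 := av_add n F (fun u => (-1) * G u)
  rw [av_mul_left] at h1
  rw [sub_eq_add_neg, ← neg_one_mul, ← h1]
  congr 1; funext u; ring

theorem av_div (n : ℕ) (F : Pth → ℝ) (c : ℝ) : av n (fun u => F u / c) = av n F / c := by
  rw [div_eq_mul_inv, ← av_mul_right]
  congr 1

theorem av_sum {ι : Type*} (n : ℕ) (s : Finset ι) (F : ι → Pth → ℝ) :
    av n (fun u => ∑ i ∈ s, F i u) = ∑ i ∈ s, av n (F i) := by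
  classical
  induction s using Finset.induction_on with
  | empty => simp [av_const]
  | insert a s ha ih =>
    simp only [sum_insert ha]
    rw [av_add, ih]

theorem av_mono (n : ℕ) {F G : Pth → ℝ} (h : ∀ u, F u ≤ G u) : av n F ≤ av n G := by
  induction n generalizing F G with
  | zero => exact h _
  | succ n ih =>
    rw [av_succ, av_succ]
    gcongr with s
    exact ih fun u => h _

theorem av_nonneg (n : ℕ) {F : Pth → ℝ} (h : ∀ u, 0 ≤ F u) : 0 ≤ av n F := by
  have := av_mono n (F := fun _ => 0) (G := F) h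
  rwa [av_const] at this

theorem av_le_const (n : ℕ) {F : Pth → ℝ} {c : ℝ} (h : ∀ u, F u ≤ c) : av n F ≤ c := by
  have := av_mono n (F := F) (G := fun _ => c) h
  rwa [av_const] at this

theorem av_congr (n : ℕ) {F G : Pth → ℝ} (h : ∀ u, F u = G u) : av n F = av n G := by
  rw [funext h]

theorem av_comm (m n : ℕ) (F : Pth → Pth → ℝ) :
    av m (fun u => av n (fun v => F u v)) = av n (fun v => av m (fun u => F u v)) := by
  induction m generalizing F with
  | zero => rfl
  | succ m ih =>
    rw [av_succ]
    simp only [ih, av_succ m]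
    rw [av_div, av_sum]

theorem cns_app (m : ℕ) (s : Stp) (u v : Pth) : cns s (app m u v) = app (m + 1) (cns s u) v := by
  funext i
  rcases i with _ | i
  · simp [app]
  · simp only [cns_succ, app, add_lt_add_iff_right, Nat.add_sub_add_right]

theorem app_zero (u v : Pth) : app 0 u v = v := by
  funext i; simp [app]

theorem sh_app (m : ℕ) (u v : Pth) : sh m (app m u v) = v := by
  funext i; simp [sh, app]

theorem app_of_lt {m i : ℕ} (h : i < m) (u v : Pth) : app m u v i = u i := by
  simp [app, h]

theorem app_add (m i : ℕ) (u v : Pth) : app m u v (m + i) = v i := by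
  simp [app]

/-- splitting the average -/
theorem av_split (m n : ℕ) (F : Pth → ℝ) :
    av (m + n) F = av m (fun u => av n (fun v => F (app m u v))) := by
  induction m generalizing F with
  | zero =>
    rw [Nat.zero_add, av_zero]
    simp only [app_zero]
  | succ m ih =>
    rw [show m + 1 + n = (m + n) + 1 by ring, av_succ, av_succ]
    simp only [ih, cns_app]

/-- `F` depends only on the first `n` steps -/
def Dep (n : ℕ) (F : Pth → ℝ) : Prop := ∀ u v : Pth, (∀ i < n, u i = v i) → F u = F v

theorem av_dep {n : ℕ} {F : Pth → ℝ} (h : Dep n F) (m : ℕ) : av (n + m) F = av n F := by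
  rw [av_split]
  apply av_congr
  intro u
  have : (fun v => F (app n u v)) = fun _ => F u := by
    funext v
    exact h _ _ fun i hi => app_of_lt hi u v
  rw [this, av_const]

theorem av_dep_le {n : ℕ} {F : Pth → ℝ} (h : Dep n F) {m : ℕ} (hm : n ≤ m) : av m F = av n F := by
  obtain ⟨k, rfl⟩ := Nat.exists_eq_add_of_le hm
  exact av_dep h k

/-- shifting: if `F` is evaluated after dropping `m` steps -/
theorem av_shift (m n : ℕ) (F : Pth → ℝ) : av (m + n) (fun u => F (sh m u)) = av n F := by
  rw [av_split]
  simp only [sh_app]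
  rw [av_const]

/-- weighted Cauchy-Schwarz -/
theorem av_cs (n : ℕ) {f : Pth → ℝ} (g : Pth → ℝ) (hf : ∀ u, 0 ≤ f u) :
    (av n (fun u => f u * g u)) ^ 2 ≤ av n f * av n (fun u => f u * g u ^ 2) := by
  induction n generalizing f g with
  | zero => simp only [av_zero]; apply le_of_eq; ring
  | succ n ih =>
    simp only [av_succ]
    rw [div_pow, div_mul_div_comm]
    have h8 : (8 : ℝ) ^ 2 = 8 * 8 := by norm_num
    rw [h8]
    apply div_le_div_of_nonneg_right _ (by norm_num)
    -- discrete Cauchy-Schwarz
    apply Finset.sum_sq_le_sum_mul_sum_of_sq_le_mul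
    · intro s _; exact av_nonneg n fun u => hf _
    · intro s _; exact av_nonneg n fun u => mul_nonneg (hf _) (sq_nonneg _)
    · intro s _; exact ih (fun u => g (cns s u)) (fun u => hf _)

theorem av_sq_le (n : ℕ) (g : Pth → ℝ) : (av n g) ^ 2 ≤ av n (fun u => g u ^ 2) := by
  have := av_cs n (f := fun _ => 1) g (fun _ => zero_le_one)
  simpa [av_const] using this

/-! ### positions -/

@[simp] theorem S_zero (u : Pth) : S u 0 = 0 := by simp [S]

theorem S_succ (u : Pth) (n : ℕ) : S u (n + 1) = S u n + stepVec (u n) := by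
  simp [S, sum_range_succ]

theorem S_cns (s : Stp) (u : Pth) (n : ℕ) : S (cns s u) (n + 1) = stepVec s + S u n := by
  simp only [S, sum_range_succ', cns_succ, cns_zero]
  rw [add_comm]

theorem S_add (u : Pth) (m n : ℕ) : S u (m + n) = S u m + S (sh m u) n := by
  simp only [S, sh, sum_range_add]

theorem S_congr {u v : Pth} {n : ℕ} (h : ∀ i < n, u i = v i) : S u n = S v n := by
  apply sum_congr rfl
  intro i hi
  rw [h i (mem_range.1 hi)]

theorem S_app_le {m i : ℕ} (h : i ≤ m) (u v : Pth) : S (app m u v) i = S u i :=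
  S_congr fun _ hj => app_of_lt (by omega) u v

theorem S_app_add (m i : ℕ) (u v : Pth) : S (app m u v) (m + i) = S u m + S v i := by
  rw [S_add, sh_app, S_app_le le_rfl]

theorem abs_stepVec_le (s : Stp) (i : Fin 4) : |stepVec s i| ≤ 1 := by
  unfold stepVec
  split_ifs <;> by_cases h : i = s.1 <;> simp [h]

theorem abs_S_le (u : Pth) (n : ℕ) (i : Fin 4) : |S u n i| ≤ n := by
  induction n with
  | zero => simp
  | succ n ih =>
    rw [S_succ]
    have := abs_stepVec_le (u n) i
    have h2 : (S u n + stepVec (u n)) i = S u n i + stepVec (u n) i := rfl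
    rw [h2]
    push_cast
    exact (abs_add_le _ _).trans (add_le_add ih this)

/-! ### kernel identities -/

theorem stepVec_flip (s : Stp) : stepVec (s.1, !s.2) = -stepVec s := by
  rcases s with ⟨i, b⟩
  cases b <;> simp [stepVec, Pi.single_neg]

/-- flipping the sign of a step -/
def flipStp : Stp ≃ Stp where
  toFun s := (s.1, !s.2)
  invFun s := (s.1, !s.2)
  left_inv s := by simp
  right_inv s := by simp

theorem p_zero (z : Fin 4 → ℤ) : p 0 z = if z = 0 then 1 else 0 := rfl

theorem p_succ (n : ℕ) (z : Fin 4 → ℤ) :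
    p (n + 1) z = (∑ s : Stp, p n (z + stepVec s)) / 8 := by
  have h : p (n + 1) z = (1 / 8) * ∑ s : Stp, p n (z - stepVec s) := rfl
  rw [h]
  have h2 : ∑ s : Stp, p n (z - stepVec s) = ∑ s : Stp, p n (z + stepVec s) := by
    apply Fintype.sum_equiv flipStp
    intro s
    change p n (z - stepVec s) = p n (z + stepVec (s.1, !s.2))
    rw [stepVec_flip, ← sub_eq_add_neg]
  rw [h2]; ring

theorem p_neg (n : ℕ) (z : Fin 4 → ℤ) : p n (-z) = p n z := by
  induction n generalizing z with
  | zero => simp [p_zero]
  | succ n ih =>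
    have h : p (n + 1) z = (1 / 8) * ∑ s : Stp, p n (z - stepVec s) := rfl
    rw [h, p_succ]
    have : ∀ s : Stp, p n (-z + stepVec s) = p n (z - stepVec s) := by
      intro s
      rw [← ih (z - stepVec s)]; congr 1; ring
    simp only [this]; ring

theorem p_sub_comm (n : ℕ) (x y : Fin 4 → ℤ) : p n (x - y) = p n (y - x) := by
  rw [← p_neg n (y - x), neg_sub]

/-- Chapman-Kolmogorov -/
theorem av_p (m n : ℕ) (z : Fin 4 → ℤ) : av m (fun u => p n (z + S u m)) = p (m + n) z := by
  induction m generalizing z with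
  | zero => simp [av_zero]
  | succ m ih =>
    rw [av_succ]
    simp only [S_cns, ← add_assoc, ih]
    rw [show m + 1 + n = (m + n) + 1 by ring, p_succ]

theorem av_p' (m n : ℕ) (z : Fin 4 → ℤ) : av m (fun u => p n (z - S u m)) = p (m + n) z := by
  have h : ∀ u : Pth, p n (z - S u m) = p n (-z + S u m) := by
    intro u; rw [← p_neg n (-z + S u m)]; congr 1; ring
  simp only [h]
  rw [av_p, p_neg]

theorem av_ind (n : ℕ) (z : Fin 4 → ℤ) :
    av n (fun u => if z + S u n = 0 then 1 else 0) = p n z := by
  have := av_p n 0 z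
  simpa [p_zero] using this

/-- `p n` vanishes outside the box of radius `n` -/
theorem p_eq_zero_of_lt (n : ℕ) (z : Fin 4 → ℤ) (i : Fin 4) (h : (n : ℤ) < |z i|) : p n z = 0 := by
  rw [← av_ind]
  have : ∀ u : Pth, (if z + S u n = 0 then (1 : ℝ) else 0) = 0 := by
    intro u
    rw [if_neg]
    intro h0
    have h1 := abs_S_le u n i
    have h2 : z i + S u n i = 0 := by
      have := congrFun h0 i
      simpa using this
    have h3 : z i = - S u n i := by linarith
    rw [h3, abs_neg] at h
    linarith
  simp only [this, av_const]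

theorem p_le_one (n : ℕ) (z : Fin 4 → ℤ) : p n z ≤ 1 := by
  rw [← av_ind]
  apply av_le_const
  intro u; split_ifs <;> norm_num

end Pool.Agent.Lib.MP_e4a9a7_pr
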