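import Mathlib
import Pool.Agent.Lib.MP_e4a9a7_pr.Base

/-!
# Indicators and elementary sums
-/

namespace Pool.Agent.Lib.MP_e4a9a7_pr

open Finset

/-- indicator of a proposition -/
noncomputable def ind (P : Prop) : ℝ := @ite ℝ P (Classical.propDecidable P) 1 0

theorem ind_of {P : Prop} (h : P) : ind P = 1 := by unfold ind; rw [if_pos h]
theorem ind_not {P : Prop} (h : ¬ P) : ind P = 0 := by unfold ind; rw [if_neg h]

theorem ind_nonneg (P : Prop) : 0 ≤ ind P := by
  by_cases h : P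
  · rw [ind_of h]; norm_num
  · rw [ind_not h]

theorem ind_le_one (P : Prop) : ind P ≤ 1 := by
  by_cases h : P
  · rw [ind_of h]
  · rw [ind_not h]; norm_num

theorem ind_mono {P Q : Prop} (h : P → Q) : ind P ≤ ind Q := by
  by_cases hP : P
  · rw [ind_of hP, ind_of (h hP)]
  · rw [ind_not hP]; exact ind_nonneg _

theorem ind_congr {P Q : Prop} (h : P ↔ Q) : ind P = ind Q :=
  le_antisymm (ind_mono h.1) (ind_mono h.2)

theorem ind_or_le (P Q : Prop) : ind (P ∨ Q) ≤ ind P + ind Q := by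
  by_cases hP : P
  · rw [ind_of hP, ind_of (Or.inl hP)]; linarith [ind_nonneg Q]
  · by_cases hQ : Q
    · rw [ind_of hQ, ind_of (Or.inr hQ)]; linarith [ind_nonneg P]
    · rw [ind_not (fun h => h.elim hP hQ)]; linarith [ind_nonneg P, ind_nonneg Q]

theorem ind_and (P Q : Prop) : ind (P ∧ Q) = ind P * ind Q := by
  by_cases hP : P
  · by_cases hQ : Q
    · rw [ind_of hP, ind_of hQ, ind_of ⟨hP, hQ⟩]; norm_num
    · rw [ind_not hQ, ind_not (fun h => hQ h.2)]; norm_num
  · rw [ind_not hP, ind_not (fun h => hP h.1)]; norm_num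

theorem ind_compl (P : Prop) : ind (¬ P) = 1 - ind P := by
  by_cases hP : P
  · rw [ind_of hP, ind_not (not_not.2 hP)]; norm_num
  · rw [ind_not hP, ind_of hP]; norm_num

theorem ind_exists_le {ι : Type*} (s : Finset ι) (P : ι → Prop) :
    ind (∃ i ∈ s, P i) ≤ ∑ i ∈ s, ind (P i) := by
  by_cases h : ∃ i ∈ s, P i
  · obtain ⟨i, hi, hP⟩ := h
    rw [ind_of ⟨i, hi, hP⟩, ← ind_of hP]
    exact single_le_sum (f := fun i => ind (P i)) (fun i _ => ind_nonneg _) hi
  · rw [ind_not h]; exact sum_nonneg fun i _ => ind_nonneg _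

theorem ind_eq_ite (P : Prop) [Decidable P] : ind P = if P then 1 else 0 := by
  by_cases h : P
  · rw [ind_of h, if_pos h]
  · rw [ind_not h, if_neg h]

/-- Markov inequality -/
theorem av_ind_mono (n : ℕ) {P Q : Pth → Prop} (h : ∀ u, P u → Q u) :
    av n (fun u => ind (P u)) ≤ av n (fun u => ind (Q u)) :=
  av_mono n fun u => ind_mono (h u)

theorem sum_inv_sq (a N : ℕ) :
    ∑ n ∈ range N, 1 / ((n : ℝ) + a + 1) ^ 2 ≤ 2 / ((a : ℝ) + 1) := by
  have h : ∀ N : ℕ, ∑ n ∈ range N, 1 / ((n : ℝ) + a + 1) ^ 2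
      ≤ 2 / ((a : ℝ) + 1) - 2 / ((N : ℝ) + a + 1) := by
    intro N
    induction N with
    | zero => simp
    | succ N ih =>
      rw [sum_range_succ]
      have h1 : 1 / ((N : ℝ) + a + 1) ^ 2 ≤ 2 / ((N : ℝ) + a + 1) - 2 / (((N + 1 : ℕ) : ℝ) + a + 1) := by
        have ha : (0 : ℝ) ≤ a := Nat.cast_nonneg a
        have hN : (0 : ℝ) ≤ N := Nat.cast_nonneg N
        push_cast
        rw [div_sub_div _ _ (by positivity) (by positivity), div_le_div_iff₀ (by positivity) (by positivity)]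
        nlinarith [mul_nonneg hN ha, sq_nonneg ((N : ℝ) + a)]
      linarith
  refine (h N).trans ?_
  have : (0 : ℝ) ≤ 2 / ((N : ℝ) + a + 1) := by positivity
  linarith

/-- harmonic sum over a range of dyadic scales -/
theorem sum_inv_dyadic (a b : ℕ) (hab : a ≤ b) :
    ∑ m ∈ (Ico (2 ^ a) (2 ^ b) : Finset ℕ), 1 / ((m : ℝ) + 1) ≤ (b : ℝ) - a := by
  induction b, hab using Nat.le_induction with
  | base => simp
  | succ b hab ih =>
    rw [← sum_Ico_consecutive _ (Nat.pow_le_pow_right (by norm_num) hab)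
      (Nat.pow_le_pow_right (n := 2) (i := b) (by norm_num) (Nat.le_add_right b 1))]
    have h1 : ∑ m ∈ (Ico (2 ^ b) (2 ^ (b + 1)) : Finset ℕ), 1 / ((m : ℝ) + 1) ≤ 1 := by
      calc _ ≤ ∑ m ∈ (Ico (2 ^ b) (2 ^ (b + 1)) : Finset ℕ), 1 / (2 : ℝ) ^ b := by
            apply sum_le_sum
            intro m hm
            rw [mem_Ico] at hm
            have : ((2 ^ b : ℕ) : ℝ) ≤ m := by exact_mod_cast hm.1
            push_cast at this
            apply one_div_le_one_div_of_le (by positivity)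
            linarith
        _ = 1 := by
            rw [sum_const, Nat.card_Ico, nsmul_eq_mul]
            have : 2 ^ (b + 1) - 2 ^ b = 2 ^ b := by rw [pow_succ]; omega
            rw [this]; push_cast
            rw [mul_one_div, div_self (by positivity)]
    push_cast
    linarith

theorem sum_inv_range_dyadic (b : ℕ) :
    ∑ m ∈ range (2 ^ b), 1 / ((m : ℝ) + 1) ≤ (b : ℝ) + 1 := by
  have h := sum_inv_dyadic 0 b (Nat.zero_le b)
  rw [range_eq_Ico, ← sum_Ico_consecutive _ (Nat.zero_le 1) Nat.one_le_two_pow]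
  simp only [pow_zero] at h
  have : ∑ m ∈ (Ico 0 1 : Finset ℕ), 1 / ((m : ℝ) + 1) = 1 := by simp
  rw [this]
  push_cast at h
  linarith

theorem le_sum_inv_range_dyadic (b : ℕ) :
    (b : ℝ) / 2 ≤ ∑ m ∈ range (2 ^ b), 1 / ((m : ℝ) + 1) := by
  induction b with
  | zero => simp
  | succ b ih =>
    rw [range_eq_Ico, ← sum_Ico_consecutive _ (Nat.zero_le (2 ^ b))
      (Nat.pow_le_pow_right (n := 2) (i := b) (by norm_num) (Nat.le_add_right b 1)), ← range_eq_Ico]
    have h1 : (1 : ℝ) / 2 ≤ ∑ m ∈ (Ico (2 ^ b) (2 ^ (b + 1)) : Finset ℕ), 1 / ((m : ℝ) + 1) := by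
      calc (1 : ℝ) / 2 = ∑ m ∈ (Ico (2 ^ b) (2 ^ (b + 1)) : Finset ℕ), 1 / (2 : ℝ) ^ (b + 1) := by
            rw [sum_const, Nat.card_Ico, nsmul_eq_mul]
            have : 2 ^ (b + 1) - 2 ^ b = 2 ^ b := by rw [pow_succ]; omega
            rw [this]; push_cast
            rw [pow_succ]; field_simp
        _ ≤ _ := by
            apply sum_le_sum
            intro m hm
            rw [mem_Ico] at hm
            have : ((m + 1 : ℕ) : ℝ) ≤ ((2 ^ (b + 1) : ℕ) : ℝ) := by exact_mod_cast hm.2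
            push_cast at this
            apply one_div_le_one_div_of_le (by positivity)
            exact this
    push_cast
    linarith

/-- harmonic number -/
noncomputable def HL (L : ℕ) : ℝ := ∑ l ∈ range L, 1 / ((l : ℝ) + 1)

/-- window energy (even times only) -/
noncomputable def En (L : ℕ) (u : Pth) : ℝ := ∑ l ∈ range L, ∑ n ∈ range L, p (2 * n) (S u (2 * l))

theorem sum_comp_le {s t : Finset ℕ} (g : ℕ → ℕ) (hg : Set.InjOn g s) (hst : ∀ i ∈ s, g i ∈ t)
    (f : ℕ → ℝ) (hf : ∀ n, 0 ≤ f n) : ∑ i ∈ s, f (g i) ≤ ∑ j ∈ t, f j := by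
  rw [← sum_image (f := f) hg]
  apply sum_le_sum_of_subset_of_nonneg
  · intro j hj
    rw [mem_image] at hj
    obtain ⟨i, hi, rfl⟩ := hj
    exact hst i hi
  · intro j _ _; exact hf j

theorem double_sum_le (D N : ℕ) (φ : ℕ → ℝ) (hφ : ∀ n, 0 ≤ φ n) :
    ∑ d ∈ range D, ∑ n ∈ range N, φ (d + n) ≤ ∑ r ∈ range (D + N), ((r : ℝ) + 1) * φ r := by
  rw [← sum_product', ← sum_fiberwise_of_maps_to (t := range (D + N)) (g := fun x : ℕ × ℕ => x.1 + x.2)]
  · apply sum_le_sum
    intro r _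
    have h1 : ∑ x ∈ (range D ×ˢ range N) with x.1 + x.2 = r, φ (x.1 + x.2)
        = ∑ x ∈ (range D ×ˢ range N) with x.1 + x.2 = r, φ r := by
      apply sum_congr rfl
      intro x hx
      rw [(mem_filter.1 hx).2]
    rw [h1, sum_const, nsmul_eq_mul]
    apply mul_le_mul_of_nonneg_right _ (hφ r)
    have h2 : ((range D ×ˢ range N).filter (fun x => x.1 + x.2 = r)).card ≤ (antidiagonal r).card := by
      apply card_le_card
      intro x hx
      rw [HasAntidiagonal.mem_antidiagonal]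
      exact (mem_filter.1 hx).2
    rw [Finset.Nat.card_antidiagonal] at h2
    exact_mod_cast h2
  · intro x hx
    rw [mem_product, mem_range, mem_range] at hx
    rw [mem_range]; omega

end Pool.Agent.Lib.MP_e4a9a7_pr
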