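import Mathlib
import Pool.Agent.Lib.MP_e4a9a7_pr.Util

/-!
# Hitting estimates
-/

namespace Pool.Agent.Lib.MP_e4a9a7_pr

open Finset

theorem av_S_le {i M : ℕ} (h : i ≤ M) (F : (Fin 4 → ℤ) → ℝ) :
    av M (fun u => F (S u i)) = av i (fun u => F (S u i)) :=
  av_dep_le (fun u v huv => by rw [S_congr huv]) h

theorem av_hit_point {i M : ℕ} (h : i ≤ M) (v w : Fin 4 → ℤ) :
    av M (fun x => ind (v + S x i = w)) = p i (v - w) := by
  rw [av_S_le h (fun z => ind (v + z = w)), ← av_ind]
  apply av_congr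
  intro u
  rw [← ind_eq_ite]
  apply ind_congr
  constructor
  · intro h; rw [← h]; abel
  · intro h
    have : v + S u i = (v - w + S u i) + w := by abel
    rw [this, h, zero_add]

/-- hitting lemma: if from every point of `A` the expected value of the additive functional is at
least `m0`, then the probability to hit `A` is at most the total expected value over `m0`. -/
theorem hit_lemma (f : ℕ → (Fin 4 → ℤ) → ℝ) (hf0 : ∀ n z, 0 ≤ f n z)
    (hf : ∀ n z, f (n + 1) z = (∑ s : Stp, f n (z + stepVec s)) / 8)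
    (A : (Fin 4 → ℤ) → Prop) (m0 : ℝ) (N : ℕ)
    (hA : ∀ z, A z → m0 ≤ ∑ n ∈ range N, f n z) (T : ℕ) (z : Fin 4 → ℤ) :
    m0 * av T (fun x => ind (∃ i, i ≤ T ∧ A (z + S x i))) ≤ ∑ n ∈ range (T + N), f n z := by
  induction T generalizing z with
  | zero =>
    rw [av_zero, Nat.zero_add]
    by_cases h : A z
    · rw [ind_of ⟨0, le_rfl, by simpa using h⟩, mul_one]; exact hA z h
    · rw [ind_not]
      · rw [mul_zero]; exact sum_nonneg fun n _ => hf0 n z
      · rintro ⟨i, hi, hAi⟩
        have : i = 0 := by omega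
        subst this
        apply h; simpa using hAi
  | succ T ih =>
    by_cases h : A z
    · have h1 : av (T + 1) (fun x => ind (∃ i, i ≤ T + 1 ∧ A (z + S x i))) = 1 := by
        have : (fun x : Pth => ind (∃ i, i ≤ T + 1 ∧ A (z + S x i))) = fun _ => 1 := by
          funext x
          exact ind_of ⟨0, Nat.zero_le _, by simpa using h⟩
        rw [this, av_const]
      rw [h1, mul_one]
      refine (hA z h).trans ?_
      apply sum_le_sum_of_subset_of_nonneg
      · exact range_subset_range.2 (by omega)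
      · intro n _ _; exact hf0 n z
    · rw [av_succ, mul_div_assoc', mul_sum]
      have h1 : ∀ s : Stp, m0 * av T (fun u => ind (∃ i, i ≤ T + 1 ∧ A (z + S (cns s u) i)))
          ≤ ∑ n ∈ range (T + N), f n (z + stepVec s) := by
        intro s
        have e : (fun u : Pth => ind (∃ i, i ≤ T + 1 ∧ A (z + S (cns s u) i)))
            = fun u => ind (∃ i, i ≤ T ∧ A ((z + stepVec s) + S u i)) := by
          funext u
          apply ind_congr
          constructor
          · rintro ⟨i, hi, hAi⟩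
            rcases i with _ | i
            · exfalso; apply h; simpa using hAi
            · refine ⟨i, by omega, ?_⟩
              rw [S_cns, ← add_assoc] at hAi; exact hAi
          · rintro ⟨i, hi, hAi⟩
            refine ⟨i + 1, by omega, ?_⟩
            rw [S_cns, ← add_assoc]; exact hAi
        rw [e]; exact ih _
      calc (∑ s : Stp, m0 * av T (fun u => ind (∃ i, i ≤ T + 1 ∧ A (z + S (cns s u) i)))) / 8
          ≤ (∑ s : Stp, ∑ n ∈ range (T + N), f n (z + stepVec s)) / 8 := by
            gcongr with s _; exact h1 s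
        _ = ∑ n ∈ range (T + N), f (n + 1) z := by
            rw [sum_comm, sum_div]
            apply sum_congr rfl
            intro n _; rw [hf]
        _ ≤ ∑ n ∈ range (T + 1 + N), f n z := by
            rw [show T + 1 + N = (T + N) + 1 by ring, sum_range_succ']
            linarith [hf0 0 z]

theorem av_step (f : ℕ → (Fin 4 → ℤ) → ℝ)
    (hf : ∀ n z, f (n + 1) z = (∑ s : Stp, f n (z + stepVec s)) / 8) (c n : ℕ) (z : Fin 4 → ℤ) :
    av c (fun u => f n (z + S u c)) = f (n + c) z := by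
  induction c generalizing z with
  | zero => simp [av_zero]
  | succ c ih =>
    rw [av_succ]
    simp only [S_cns, ← add_assoc, ih]
    rw [← hf]

theorem hit_window (f : ℕ → (Fin 4 → ℤ) → ℝ) (hf0 : ∀ n z, 0 ≤ f n z)
    (hf : ∀ n z, f (n + 1) z = (∑ s : Stp, f n (z + stepVec s)) / 8)
    (A : (Fin 4 → ℤ) → Prop) (m0 : ℝ) (N : ℕ)
    (hA : ∀ z, A z → m0 ≤ ∑ n ∈ range N, f n z) (c T : ℕ) (z : Fin 4 → ℤ) :
    m0 * av (c + T) (fun x => ind (∃ i, c ≤ i ∧ i ≤ c + T ∧ A (z + S x i)))
      ≤ ∑ n ∈ range (T + N), f (n + c) z := by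
  rw [av_split, ← av_mul_left]
  have h1 : ∀ u : Pth, m0 * av T (fun v => ind (∃ i, c ≤ i ∧ i ≤ c + T ∧ A (z + S (app c u v) i)))
      ≤ ∑ n ∈ range (T + N), f n (z + S u c) := by
    intro u
    have e : (fun v : Pth => ind (∃ i, c ≤ i ∧ i ≤ c + T ∧ A (z + S (app c u v) i)))
        = fun v => ind (∃ i, i ≤ T ∧ A ((z + S u c) + S v i)) := by
      funext v
      apply ind_congr
      constructor
      · rintro ⟨i, hi, hi2, hAi⟩
        obtain ⟨j, rfl⟩ := Nat.exists_eq_add_of_le hi
        refine ⟨j, by omega, ?_⟩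
        rw [S_app_add, ← add_assoc] at hAi; exact hAi
      · rintro ⟨i, hi, hAi⟩
        refine ⟨c + i, by omega, by omega, ?_⟩
        rw [S_app_add, ← add_assoc]; exact hAi
    rw [e]
    exact hit_lemma f hf0 hf A m0 N hA T _
  refine (av_mono c h1).trans ?_
  rw [av_sum]
  apply le_of_eq
  apply sum_congr rfl
  intro n _
  exact av_step f hf c n z

/-- the potential of the points `S y l`, `l ∈ Λ`, seen from `z` within time `N` -/
noncomputable def Phi (N : ℕ) (Λ : Finset ℕ) (y : Pth) (z : Fin 4 → ℤ) : ℝ :=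
  ∑ n ∈ range N, ∑ l ∈ Λ, p n (z - S y l)

theorem hit_bound (y : Pth) (J Λ : Finset ℕ) (c T N : ℕ) (m0 : ℝ) (hm : 0 < m0) (v : Fin 4 → ℤ) :
    av (c + T) (fun x => ind (∃ i, c ≤ i ∧ i ≤ c + T ∧ ∃ j ∈ J, v + S x i = S y j))
      ≤ (∑ n ∈ range (T + N), ∑ l ∈ Λ, p (n + c) (v - S y l)) / m0
        + ∑ j ∈ J, ind (Phi N Λ y (S y j) < m0) * ∑ i ∈ range (T + 1), p (c + i) (v - S y j) := by
  have h1 : ∀ x : Pth, ind (∃ i, c ≤ i ∧ i ≤ c + T ∧ ∃ j ∈ J, v + S x i = S y j)
      ≤ ind (∃ i, c ≤ i ∧ i ≤ c + T ∧ m0 ≤ Phi N Λ y (v + S x i))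
        + ∑ j ∈ J, ind (Phi N Λ y (S y j) < m0) * ∑ i ∈ range (T + 1), ind (v + S x (c + i) = S y j) := by
    intro x
    by_cases h : ∃ i, c ≤ i ∧ i ≤ c + T ∧ ∃ j ∈ J, v + S x i = S y j
    · obtain ⟨i, hi, hi2, j, hj, hij⟩ := h
      rw [ind_of ⟨i, hi, hi2, j, hj, hij⟩]
      have hnn : ∀ j : ℕ, 0 ≤ ind (Phi N Λ y (S y j) < m0)
          * ∑ i ∈ range (T + 1), ind (v + S x (c + i) = S y j) := fun j =>
        mul_nonneg (ind_nonneg _) (sum_nonneg fun i _ => ind_nonneg _)
      by_cases hP : m0 ≤ Phi N Λ y (S y j)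
      · rw [ind_of ⟨i, hi, hi2, by rw [hij]; exact hP⟩]
        have := sum_nonneg (s := J) fun j _ => hnn j
        linarith
      · rw [not_le] at hP
        have h2 : (1 : ℝ) ≤ ∑ j ∈ J, ind (Phi N Λ y (S y j) < m0)
            * ∑ i ∈ range (T + 1), ind (v + S x (c + i) = S y j) := by
          refine le_trans ?_ (single_le_sum (fun j _ => hnn j) hj)
          rw [ind_of hP, one_mul]
          obtain ⟨k, rfl⟩ := Nat.exists_eq_add_of_le hi
          refine le_trans ?_ (single_le_sum (f := fun i => ind (v + S x (c + i) = S y j))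
            (fun i _ => ind_nonneg _) (mem_range.2 (by omega : k < T + 1)))
          change (1 : ℝ) ≤ ind (v + S x (c + k) = S y j)
          rw [ind_of hij]
        linarith [ind_nonneg (∃ i, c ≤ i ∧ i ≤ c + T ∧ m0 ≤ Phi N Λ y (v + S x i))]
    · rw [ind_not h]
      exact add_nonneg (ind_nonneg _) (sum_nonneg fun j _ =>
        mul_nonneg (ind_nonneg _) (sum_nonneg fun i _ => ind_nonneg _))
  refine (av_mono _ h1).trans ?_
  rw [av_add]
  apply add_le_add
  · rw [le_div_iff₀ hm, mul_comm]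
    exact hit_window (fun n z => ∑ l ∈ Λ, p n (z - S y l))
      (fun n z => sum_nonneg fun l _ => p_nonneg _ _)
      (fun n z => by
        simp only [p_succ]
        rw [← sum_div, sum_comm]
        congr 1
        apply sum_congr rfl; intro s _
        apply sum_congr rfl; intro l _
        congr 1; abel)
      (fun z => m0 ≤ Phi N Λ y z) m0 N (fun z hz => hz) c T v
  · rw [av_sum]
    apply le_of_eq
    apply sum_congr rfl
    intro j _
    rw [av_mul_left, av_sum]
    congr 1
    apply sum_congr rfl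
    intro i hi
    exact av_hit_point (by rw [mem_range] at hi; omega) v (S y j)

end Pool.Agent.Lib.MP_e4a9a7_pr
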