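import Mathlib
import Pool.Agent.Lib.MP_e4a9a7_pr.Hit

/-!
# Window estimates
-/

namespace Pool.Agent.Lib.MP_e4a9a7_pr

open Finset

/-! ### reversal -/

def rev (n : ℕ) (w : Pth) : Pth := fun i => if i < n then w (n - 1 - i) else w i

theorem Dep.mono {n m : ℕ} {F : Pth → ℝ} (h : Dep n F) (hm : n ≤ m) : Dep m F :=
  fun u v huv => h u v fun i hi => huv i (by omega)

theorem av_rev (n : ℕ) (F : Pth → ℝ) (hF : Dep n F) : av n (fun w => F (rev n w)) = av n F := by
  induction n generalizing F with
  | zero =>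
    rw [av_zero, av_zero]
    exact hF _ _ (fun i hi => absurd hi (Nat.not_lt_zero i))
  | succ n ih =>
    rw [av_succ, av_split n 1]
    have e1 : ∀ s : Stp, (fun u : Pth => F (rev (n + 1) (cns s u)))
        = fun u => (fun w => F (app n w (cns s dflt))) (rev n u) := by
      intro s; funext u
      apply hF
      intro i hi
      by_cases h : i < n
      · rw [app_of_lt h]
        simp only [rev, hi, h, if_true]
        obtain ⟨k, hk⟩ : ∃ k, n + 1 - 1 - i = k + 1 := ⟨n - 1 - i, by omega⟩
        rw [hk, cns_succ]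
        congr 1; omega
      · have : i = n := by omega
        subst this
        have : app i (rev i u) (cns s dflt) i = s := by
          have := app_add i 0 (rev i u) (cns s dflt)
          simpa using this
        rw [this]
        simp [rev]
    have e2 : ∀ s : Stp, Dep n (fun w => F (app n w (cns s dflt))) := by
      intro s u v huv
      apply hF
      intro i hi
      by_cases h : i < n
      · rw [app_of_lt h, app_of_lt h, huv i h]
      · simp [app, h]
    simp only [e1]
    simp only [ih _ (e2 _)]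
    simp only [av_succ 0, av_zero]
    rw [av_div, av_sum]

theorem S_rev {m n : ℕ} (h : m ≤ n) (w : Pth) : S (rev n w) m = S w n - S w (n - m) := by
  induction m with
  | zero => simp
  | succ m ih =>
    rw [S_succ, ih (by omega)]
    have e : n - m = (n - (m + 1)) + 1 := by omega
    rw [e, S_succ]
    have e2 : rev n w m = w (n - (m + 1)) := by
      simp only [rev]
      rw [if_pos (by omega)]
      congr 1; omega
    rw [e2]; abel

/-! ### windows and the potential -/

theorem Dep_En (L : ℕ) (m0 : ℝ) : Dep (2 * L) (fun u => ind (En L u < m0)) := by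
  intro u v huv
  have : En L u = En L v := by
    unfold En
    apply sum_congr rfl
    intro l hl
    apply sum_congr rfl
    intro n _
    rw [mem_range] at hl
    rw [S_congr (fun i hi => huv i (by omega))]
  simp only [this]

theorem phi_fwd (L j : ℕ) (Λ : Finset ℕ) (y : Pth) (hΛ : ∀ l < L, j + 2 * l ∈ Λ) :
    En L (sh j y) ≤ Phi (2 * L) Λ y (S y j) := by
  unfold Phi En
  rw [sum_comm (s := range (2 * L))]
  have h1 : ∀ l, 0 ≤ ∑ n ∈ range (2 * L), p n (S y j - S y l) :=
    fun l => sum_nonneg fun n _ => p_nonneg _ _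
  refine le_trans ?_ (sum_comp_le (s := range L) (t := Λ) (fun l => j + 2 * l)
    (fun a _ b _ hab => by simpa using hab)
    (fun l hl => hΛ l (mem_range.1 hl)) (fun l => ∑ n ∈ range (2 * L), p n (S y j - S y l)) h1)
  apply sum_le_sum
  intro l _
  refine le_trans ?_ (sum_comp_le (s := range L) (t := range (2 * L)) (fun n => 2 * n)
    (fun a _ b _ hab => by simpa using hab)
    (fun n hn => by rw [mem_range] at hn ⊢; omega) (fun n => p n (S y j - S y (j + 2 * l)))
    (fun n => p_nonneg _ _))
  apply sum_le_sum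
  intro n _
  apply le_of_eq
  have : S (sh j y) (2 * l) = -(S y j - S y (j + 2 * l)) := by rw [S_add]; abel
  rw [this, p_neg]

theorem phi_bwd (L a : ℕ) (Λ : Finset ℕ) (y : Pth) (hΛ : ∀ l < L, a + 2 * L - 2 * l ∈ Λ) :
    En L (rev (2 * L) (sh a y)) ≤ Phi (2 * L) Λ y (S y (a + 2 * L)) := by
  unfold Phi En
  rw [sum_comm (s := range (2 * L))]
  have h1 : ∀ l, 0 ≤ ∑ n ∈ range (2 * L), p n (S y (a + 2 * L) - S y l) :=
    fun l => sum_nonneg fun n _ => p_nonneg _ _
  refine le_trans ?_ (sum_comp_le (s := range L) (t := Λ) (fun l => a + 2 * L - 2 * l)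
    (fun b hb b' hb' hab => by
      rw [mem_coe, mem_range] at hb hb'
      simp only at hab; omega)
    (fun l hl => hΛ l (mem_range.1 hl))
    (fun l => ∑ n ∈ range (2 * L), p n (S y (a + 2 * L) - S y l)) h1)
  apply sum_le_sum
  intro l hl
  rw [mem_range] at hl
  refine le_trans ?_ (sum_comp_le (s := range L) (t := range (2 * L)) (fun n => 2 * n)
    (fun a _ b _ hab => by simpa using hab)
    (fun n hn => by rw [mem_range] at hn ⊢; omega)
    (fun n => p n (S y (a + 2 * L) - S y (a + 2 * L - 2 * l)))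
    (fun n => p_nonneg _ _))
  apply sum_le_sum
  intro n _
  apply le_of_eq
  have : S (rev (2 * L) (sh a y)) (2 * l) = S y (a + 2 * L) - S y (a + 2 * L - 2 * l) := by
    rw [S_rev (by omega)]
    have e : a + 2 * L - 2 * l = a + (2 * L - 2 * l) := by omega
    rw [e, S_add, S_add]; abel
  rw [this]

theorem av_bad1 (L j M i : ℕ) (m0 β : ℝ) (hM : j + 2 * L ≤ M)
    (hβ : av (2 * L) (fun u => ind (En L u < m0)) ≤ β) (v : Fin 4 → ℤ) :
    av M (fun y => ind (En L (sh j y) < m0) * p i (v - S y j)) ≤ β * p (i + j) v := by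
  obtain ⟨r, rfl⟩ := Nat.exists_eq_add_of_le hM
  rw [add_assoc, av_split]
  simp only [sh_app, S_app_le (le_refl j)]
  have h1 : ∀ u : Pth, av (2 * L + r) (fun w => ind (En L w < m0) * p i (v - S u j))
      ≤ β * p i (v - S u j) := by
    intro u
    rw [av_mul_right, av_dep (Dep_En L m0) r]
    exact mul_le_mul_of_nonneg_right hβ (p_nonneg _ _)
  refine (av_mono j h1).trans ?_
  rw [av_mul_left, av_p', add_comm j i]

theorem av_bad2 (L a M i : ℕ) (m0 β : ℝ) (hM : a + 2 * L + 2 * L ≤ M)
    (hβ : av (2 * L) (fun u => ind (En L u < m0)) ≤ β) (v : Fin 4 → ℤ) :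
    av M (fun y => ind (En L (rev (2 * L) (sh a y)) < m0) * ind (En L (sh (a + 2 * L) y) < m0)
      * p i (v - S y (a + 2 * L))) ≤ β * (β * (16 / ((i : ℝ) + a + 1) ^ 2)) := by
  have hβ0 : 0 ≤ β := le_trans (av_nonneg _ fun u => ind_nonneg _) hβ
  obtain ⟨r, rfl⟩ := Nat.exists_eq_add_of_le hM
  rw [show a + 2 * L + 2 * L + r = a + (2 * L + (2 * L + r)) by ring, av_split]
  simp only [sh_app]
  have e1 : ∀ u w : Pth, S (app a u w) (a + 2 * L) = S u a + S w (2 * L) := fun u w => S_app_add _ _ _ _
  have e2 : ∀ u w : Pth, sh (a + 2 * L) (app a u w) = sh (2 * L) w := by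
    intro u w; funext k
    simp only [sh]
    rw [show a + 2 * L + k = a + (2 * L + k) by ring, app_add]
  simp only [e1, e2]
  rw [av_comm, av_split]
  have hd : Dep (2 * L) (fun w => ind (En L (rev (2 * L) w) < m0)) := by
    intro u v huv
    have : En L (rev (2 * L) u) = En L (rev (2 * L) v) := by
      unfold En
      apply sum_congr rfl
      intro l hl
      apply sum_congr rfl
      intro n _
      rw [mem_range] at hl
      rw [S_rev (by omega), S_rev (by omega), S_congr (fun i hi => huv i (by omega)),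
        S_congr (u := u) (v := v) (n := 2 * L - 2 * l) (fun i hi => huv i (by omega))]
    simp only [this]
  have e3 : ∀ w f : Pth, ind (En L (rev (2 * L) (app (2 * L) w f)) < m0)
      = ind (En L (rev (2 * L) w) < m0) := fun w f => hd _ _ fun k hk => app_of_lt hk _ _
  simp only [e3, sh_app, S_app_le (le_refl (2 * L))]
  have h1 : ∀ w : Pth, av (2 * L + r) (fun f => av a (fun u => ind (En L (rev (2 * L) w) < m0)
        * ind (En L f < m0) * p i (v - (S u a + S w (2 * L)))))
      ≤ β * (ind (En L (rev (2 * L) w) < m0) * (16 / ((i : ℝ) + a + 1) ^ 2)) := by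
    intro w
    have h2 : ∀ f : Pth, av a (fun u => ind (En L (rev (2 * L) w) < m0)
        * ind (En L f < m0) * p i (v - (S u a + S w (2 * L))))
        ≤ ind (En L f < m0) * (ind (En L (rev (2 * L) w) < m0) * (16 / ((i : ℝ) + a + 1) ^ 2)) := by
      intro f
      rw [av_mul_left]
      have h3 : av a (fun u => p i (v - (S u a + S w (2 * L)))) ≤ 16 / ((i : ℝ) + a + 1) ^ 2 := by
        have h4 : ∀ u : Pth, p i (v - (S u a + S w (2 * L))) = p i ((v - S w (2 * L)) - S u a) := by
          intro u; congr 1; abel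
        simp only [h4]
        rw [av_p']
        refine (p_le' _ _).trans ?_
        push_cast
        rw [add_comm (a : ℝ) i]
      calc _ ≤ ind (En L (rev (2 * L) w) < m0) * ind (En L f < m0) * (16 / ((i : ℝ) + a + 1) ^ 2) := by
            apply mul_le_mul_of_nonneg_left h3
            exact mul_nonneg (ind_nonneg _) (ind_nonneg _)
        _ = _ := by ring
    refine (av_mono _ h2).trans ?_
    rw [av_mul_right, av_dep (Dep_En L m0) r]
    apply mul_le_mul_of_nonneg_right hβ
    exact mul_nonneg (ind_nonneg _) (by positivity)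
  refine (av_mono _ h1).trans ?_
  rw [av_mul_left, av_mul_right]
  apply mul_le_mul_of_nonneg_left _ hβ0
  apply mul_le_mul_of_nonneg_right _ (by positivity)
  rw [av_rev (2 * L) (fun w => ind (En L w < m0)) (Dep_En L m0)]
  exact hβ

/-! ### two-point function -/

noncomputable def T3 (v : Fin 4 → ℤ) (l n m : ℕ) : ℝ :=
  av l (fun u => p n (v - S u l) * p m (v - S u l))

theorem T3_nonneg (v : Fin 4 → ℤ) (l n m : ℕ) : 0 ≤ T3 v l n m :=
  av_nonneg _ fun _ => mul_nonneg (p_nonneg _ _) (p_nonneg _ _)

theorem T3_le1 (v : Fin 4 → ℤ) (l n m : ℕ) :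
    T3 v l n m ≤ (16 / ((m : ℝ) + 1) ^ 2) * (16 / ((l : ℝ) + n + 1) ^ 2) := by
  unfold T3
  have h1 : ∀ u : Pth, p n (v - S u l) * p m (v - S u l) ≤ (16 / ((m : ℝ) + 1) ^ 2) * p n (v - S u l) := by
    intro u
    rw [mul_comm]
    exact mul_le_mul_of_nonneg_right (p_le' _ _) (p_nonneg _ _)
  refine (av_mono _ h1).trans ?_
  rw [av_mul_left, av_p']
  apply mul_le_mul_of_nonneg_left _ (by positivity)
  refine (p_le' _ _).trans ?_
  push_cast
  exact le_refl _

theorem T3_le2 (v : Fin 4 → ℤ) (l n m : ℕ) :
    T3 v l n m ≤ (16 / ((l : ℝ) + 1) ^ 2) * (16 / ((n : ℝ) + m + 1) ^ 2) := by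
  have h1 : T3 v l n m = av n (fun u' => p m (S u' n) * p l (v + S u' n)) := by
    unfold T3
    have e1 : ∀ u : Pth, p n (v - S u l) * p m (v - S u l)
        = av n (fun u' => ind ((v + S u' n) - S u l = 0) * p m (S u' n)) := by
      intro u
      have e2 : p n (v - S u l) = av n (fun u' => ind ((v - S u l) + S u' n = 0)) := by
        rw [← av_ind]
        apply av_congr; intro u'; rw [← ind_eq_ite]
      rw [e2, ← av_mul_right]
      apply av_congr
      intro u'
      by_cases h : (v - S u l) + S u' n = 0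
      · rw [ind_of h, ind_of (by rw [← h]; abel)]
        have : v - S u l = -(S u' n) := eq_neg_of_add_eq_zero_left h
        rw [this, p_neg]
      · rw [ind_not h, ind_not (fun h' => h (by rw [← h']; abel))]
        simp
    simp only [e1]
    rw [av_comm]
    apply av_congr
    intro u'
    rw [av_mul_right, mul_comm]
    congr 1
    have e3 : ∀ u : Pth, ind ((v + S u' n) - S u l = 0) = p 0 ((v + S u' n) - S u l) := by
      intro u; rw [ind_eq_ite, p_zero]
    simp only [e3]
    rw [av_p']; simp
  rw [h1]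
  have h2 : ∀ u' : Pth, p m (S u' n) * p l (v + S u' n) ≤ (16 / ((l : ℝ) + 1) ^ 2) * p m (0 + S u' n) := by
    intro u'
    rw [zero_add, mul_comm]
    exact mul_le_mul_of_nonneg_right (p_le' _ _) (p_nonneg _ _)
  refine (av_mono _ h2).trans ?_
  rw [av_mul_left, av_p]
  apply mul_le_mul_of_nonneg_left _ (by positivity)
  refine (p_le' _ _).trans ?_
  push_cast
  exact le_refl _

theorem two_pt (v : Fin 4 → ℤ) (M l d n m : ℕ) (h : l + d ≤ M) :
    av M (fun y => p n (v - S y l) * p m (v - S y (l + d))) = T3 v l n (m + d) := by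
  obtain ⟨r, rfl⟩ := Nat.exists_eq_add_of_le h
  rw [av_dep (n := l + d) (by
    intro u w huw
    simp only
    rw [S_congr (n := l) (fun i hi => huw i (by omega)), S_congr (n := l + d) huw]) r]
  rw [av_split]
  simp only [S_app_le (le_refl l), S_app_add]
  unfold T3
  apply av_congr
  intro u
  rw [av_mul_left]
  congr 1
  have : ∀ w : Pth, p m (v - (S u l + S w d)) = p m ((v - S u l) - S w d) := by
    intro w; congr 1; abel
  simp only [this]
  rw [av_p', add_comm]

end Pool.Agent.Lib.MP_e4a9a7_pr
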