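import Mathlib
import Pool.Agent.Lib.MP_e4a9a7_pr.Est

/-!
# Same-block and adjacent-block estimates
-/

namespace Pool.Agent.Lib.MP_e4a9a7_pr

open Finset

theorem sq_sum_le_two (Λ : Finset ℕ) (a : ℕ → ℝ) (ha : ∀ l, 0 ≤ a l) :
    (∑ l ∈ Λ, a l) ^ 2 ≤ 2 * ∑ l ∈ Λ, ∑ l' ∈ Λ with l ≤ l', a l * a l' := by
  rw [sq, sum_mul_sum]
  simp only [sum_filter]
  have h1 : ∀ l l' : ℕ, a l * a l' ≤ (if l ≤ l' then a l * a l' else 0)
      + (if l' ≤ l then a l' * a l else 0) := by
    intro l l'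
    have h0 := mul_nonneg (ha l) (ha l')
    rcases le_total l l' with h | h
    · rw [if_pos h]
      split_ifs
      · rw [mul_comm (a l') (a l)]; linarith
      · linarith
    · rw [if_pos h]
      split_ifs
      · rw [mul_comm (a l') (a l)]; linarith
      · rw [mul_comm (a l') (a l)]; linarith
  calc _ ≤ ∑ l ∈ Λ, ∑ l' ∈ Λ, ((if l ≤ l' then a l * a l' else 0)
      + (if l' ≤ l then a l' * a l else 0)) := by
        gcongr with l _ l' _; exact h1 l l'
    _ = _ := by
        simp only [sum_add_distrib]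
        rw [two_mul]
        congr 1
        exact sum_comm

theorem gamma_sq (v : Fin 4 → ℤ) (c T L : ℕ) :
    av (c + T + 2 * L) (fun y => (∑ n ∈ range (T + 2 * L), ∑ l ∈ Ico (c - 2 * L) (c + T + 2 * L),
        p (n + c) (v - S y l)) ^ 2)
      ≤ 1024 * (∑ l ∈ Ico (c - 2 * L) (c + T + 2 * L), 1 / ((l : ℝ) + 1))
        * (1 + ∑ r ∈ range (c + T + 2 * L + (T + 2 * L)), 1 / ((r : ℝ) + c + 1)) := by
  set M := c + T + 2 * L with hM
  set N1 := T + 2 * L with hN1
  set Λ := Ico (c - 2 * L) M with hΛ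
  set X' := ∑ r ∈ range (M + N1), 1 / ((r : ℝ) + c + 1) with hX'
  have h1 : ∀ y : Pth, (∑ n ∈ range N1, ∑ l ∈ Λ, p (n + c) (v - S y l)) ^ 2
      ≤ 2 * ∑ l ∈ Λ, ∑ l' ∈ Λ with l ≤ l', ∑ n ∈ range N1, ∑ m ∈ range N1,
        p (n + c) (v - S y l) * p (m + c) (v - S y l') := by
    intro y
    rw [sum_comm]
    refine (sq_sum_le_two Λ (fun l => ∑ n ∈ range N1, p (n + c) (v - S y l))
      (fun l => sum_nonneg fun n _ => p_nonneg _ _)).trans ?_
    apply le_of_eq
    congr 1
    apply sum_congr rfl; intro l _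
    apply sum_congr rfl; intro l' _
    rw [sum_mul_sum]
  refine (av_mono M h1).trans ?_
  rw [av_mul_left, av_sum]
  have h2 : ∀ l ∈ Λ, av M (fun y => ∑ l' ∈ Λ with l ≤ l', ∑ n ∈ range N1, ∑ m ∈ range N1,
        p (n + c) (v - S y l) * p (m + c) (v - S y l'))
      ≤ 512 * (1 / ((l : ℝ) + 1)) * (1 + X') := by
    intro l hl
    rw [av_sum]
    have h3 : ∀ l' ∈ Λ.filter (fun l' => l ≤ l'),
        av M (fun y => ∑ n ∈ range N1, ∑ m ∈ range N1,
          p (n + c) (v - S y l) * p (m + c) (v - S y l'))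
        = ∑ m ∈ range N1, ∑ n ∈ range N1, T3 v l (n + c) ((l' - l + m) + c) := by
      intro l' hl'
      rw [mem_filter, hΛ, mem_Ico] at hl'
      rw [av_sum]
      simp only [av_sum]
      rw [sum_comm]
      apply sum_congr rfl; intro m _
      apply sum_congr rfl; intro n _
      obtain ⟨d, hd⟩ := Nat.exists_eq_add_of_le hl'.2
      subst hd
      rw [two_pt v M l d (n + c) (m + c) (by omega)]
      congr 1; omega
    rw [sum_congr rfl h3]
    set φ : ℕ → ℝ := fun r => ∑ n ∈ range N1, T3 v l (n + c) (r + c) with hφ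
    have hφ0 : ∀ r, 0 ≤ φ r := fun r => sum_nonneg fun n _ => T3_nonneg _ _ _ _
    have h4 : ∑ l' ∈ Λ with l ≤ l', ∑ m ∈ range N1, φ (l' - l + m)
        ≤ ∑ d ∈ range M, ∑ m ∈ range N1, φ (d + m) := by
      apply sum_comp_le (fun l' => l' - l) _ _ (fun d => ∑ m ∈ range N1, φ (d + m))
        (fun d => sum_nonneg fun m _ => hφ0 _)
      · intro a ha b hb hab
        simp only [coe_filter, Set.mem_ofPred_eq] at ha hb hab
        omega
      · intro a ha
        rw [mem_filter, hΛ, mem_Ico] at ha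
        rw [mem_range]; omega
    refine h4.trans ((double_sum_le M N1 φ hφ0).trans ?_)
    have h5 : ∀ r ∈ range (M + N1), ((r : ℝ) + 1) * φ r
        ≤ 512 * (ind (r < l) * (1 / ((l : ℝ) + 1) ^ 2) + (1 / ((r : ℝ) + c + 1)) * (1 / ((l : ℝ) + 1))) := by
      intro r _
      have hr0 : (0 : ℝ) ≤ r := Nat.cast_nonneg r
      have hc0 : (0 : ℝ) ≤ c := Nat.cast_nonneg c
      have hl0 : (0 : ℝ) ≤ l := Nat.cast_nonneg l
      by_cases hrl : r < l
      · rw [ind_of hrl, one_mul]
        have h6 : φ r ≤ (256 / ((l : ℝ) + 1) ^ 2) * (2 / ((r : ℝ) + 1)) := by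
          have h7 : ∀ n ∈ range N1, T3 v l (n + c) (r + c)
              ≤ (256 / ((l : ℝ) + 1) ^ 2) * (1 / ((n : ℝ) + r + 1) ^ 2) := by
            intro n _
            refine (T3_le2 v l (n + c) (r + c)).trans ?_
            have hn0 : (0 : ℝ) ≤ n := Nat.cast_nonneg n
            have : (16 : ℝ) / (((n + c : ℕ) : ℝ) + ((r + c : ℕ) : ℝ) + 1) ^ 2
                ≤ 16 * (1 / ((n : ℝ) + r + 1) ^ 2) := by
              rw [mul_one_div]
              push_cast
              apply div_le_div_of_nonneg_left (by norm_num) (by positivity)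
              gcongr <;> linarith
            calc _ ≤ (16 / ((l : ℝ) + 1) ^ 2) * (16 * (1 / ((n : ℝ) + r + 1) ^ 2)) := by
                  gcongr
              _ = _ := by ring
          refine (sum_le_sum h7).trans ?_
          rw [← mul_sum]
          apply mul_le_mul_of_nonneg_left (sum_inv_sq r N1) (by positivity)
        calc ((r : ℝ) + 1) * φ r ≤ ((r : ℝ) + 1) * ((256 / ((l : ℝ) + 1) ^ 2) * (2 / ((r : ℝ) + 1))) := by
              gcongr
          _ = 512 * (1 / ((l : ℝ) + 1) ^ 2) := by field_simp; norm_num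
          _ ≤ _ := by
              have : (0 : ℝ) ≤ (1 / ((r : ℝ) + c + 1)) * (1 / ((l : ℝ) + 1)) := by positivity
              linarith
      · rw [ind_not hrl, zero_mul, zero_add]
        have h6 : φ r ≤ (256 / ((r : ℝ) + c + 1) ^ 2) * (2 / ((l : ℝ) + 1)) := by
          have h7 : ∀ n ∈ range N1, T3 v l (n + c) (r + c)
              ≤ (256 / ((r : ℝ) + c + 1) ^ 2) * (1 / ((n : ℝ) + l + 1) ^ 2) := by
            intro n _
            refine (T3_le1 v l (n + c) (r + c)).trans ?_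
            have hn0 : (0 : ℝ) ≤ n := Nat.cast_nonneg n
            have : (16 : ℝ) / ((l : ℝ) + ((n + c : ℕ) : ℝ) + 1) ^ 2
                ≤ 16 * (1 / ((n : ℝ) + l + 1) ^ 2) := by
              rw [mul_one_div]
              push_cast
              apply div_le_div_of_nonneg_left (by norm_num) (by positivity)
              gcongr ?_ ^ 2
              linarith
            have e : (((r + c : ℕ) : ℝ) + 1) = (r : ℝ) + c + 1 := by push_cast; ring
            rw [e]
            calc _ ≤ (16 / ((r : ℝ) + c + 1) ^ 2) * (16 * (1 / ((n : ℝ) + l + 1) ^ 2)) := by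
                  gcongr
              _ = _ := by ring
          refine (sum_le_sum h7).trans ?_
          rw [← mul_sum]
          apply mul_le_mul_of_nonneg_left (sum_inv_sq l N1) (by positivity)
        calc ((r : ℝ) + 1) * φ r
            ≤ ((r : ℝ) + c + 1) * ((256 / ((r : ℝ) + c + 1) ^ 2) * (2 / ((l : ℝ) + 1))) := by
              apply mul_le_mul _ h6 (hφ0 r) (by positivity)
              linarith
          _ = _ := by field_simp; norm_num
    refine (sum_le_sum h5).trans ?_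
    rw [← mul_sum, sum_add_distrib, ← sum_mul, ← sum_mul]
    have h8 : ∑ r ∈ range (M + N1), ind (r < l) ≤ (l : ℝ) := by
      have : ∑ r ∈ range (M + N1), ind (r < l) ≤ ∑ r ∈ range l, (1 : ℝ) := by
        have e : ∑ r ∈ range (M + N1), ind (r < l)
            = ∑ r ∈ (range (M + N1)).filter (fun r => r < l), (1 : ℝ) := by
          rw [sum_filter]
          apply sum_congr rfl; intro r _; rw [ind_eq_ite]
        rw [e]
        apply sum_le_sum_of_subset_of_nonneg
        · intro r hr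
          rw [mem_filter] at hr
          exact mem_range.2 hr.2
        · intro _ _ _; norm_num
      simpa using this
    have hl0 : (0 : ℝ) ≤ l := Nat.cast_nonneg l
    have h9 : (∑ r ∈ range (M + N1), ind (r < l)) * (1 / ((l : ℝ) + 1) ^ 2) ≤ 1 / ((l : ℝ) + 1) := by
      calc _ ≤ (l : ℝ) * (1 / ((l : ℝ) + 1) ^ 2) := by gcongr
        _ ≤ ((l : ℝ) + 1) * (1 / ((l : ℝ) + 1) ^ 2) := by gcongr; linarith
        _ = _ := by field_simp
    calc 512 * ((∑ r ∈ range (M + N1), ind (r < l)) * (1 / ((l : ℝ) + 1) ^ 2) + X' * (1 / ((l : ℝ) + 1)))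
        ≤ 512 * (1 / ((l : ℝ) + 1) + X' * (1 / ((l : ℝ) + 1))) := by gcongr
      _ = _ := by ring
  calc 2 * ∑ l ∈ Λ, av M (fun y => ∑ l' ∈ Λ with l ≤ l', ∑ n ∈ range N1, ∑ m ∈ range N1,
        p (n + c) (v - S y l) * p (m + c) (v - S y l'))
      ≤ 2 * ∑ l ∈ Λ, 512 * (1 / ((l : ℝ) + 1)) * (1 + X') := by
        gcongr with l hl; exact h2 l hl
    _ = _ := by rw [← sum_mul, ← mul_sum]; ring

/-- probability (over `x`) that the core parts of a block intersect -/
noncomputable def hh (c T : ℕ) (v : Fin 4 → ℤ) (y : Pth) : ℝ :=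
  av (c + T) (fun x => ind (∃ i, c ≤ i ∧ i ≤ c + T ∧ ∃ j ∈ Icc c (c + T), v + S x i = S y j))

theorem hh_nonneg (c T : ℕ) (v : Fin 4 → ℤ) (y : Pth) : 0 ≤ hh c T v y :=
  av_nonneg _ fun _ => ind_nonneg _

theorem hh_le_one (c T : ℕ) (v : Fin 4 → ℤ) (y : Pth) : hh c T v y ≤ 1 :=
  av_le_const _ fun _ => ind_le_one _

theorem hh_congr (c T : ℕ) (v : Fin 4 → ℤ) {y y' : Pth} (h : ∀ i < c + T, y i = y' i) :
    hh c T v y = hh c T v y' := by
  unfold hh
  apply av_congr
  intro x
  apply ind_congr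
  constructor
  · rintro ⟨i, h1, h2, j, hj, h3⟩
    refine ⟨i, h1, h2, j, hj, ?_⟩
    rw [mem_Icc] at hj
    rw [h3]; exact S_congr fun k hk => h k (by omega)
  · rintro ⟨i, h1, h2, j, hj, h3⟩
    refine ⟨i, h1, h2, j, hj, ?_⟩
    rw [mem_Icc] at hj
    rw [h3]; exact S_congr fun k hk => (h k (by omega)).symm

theorem estA (c T L : ℕ) (hL : 1 ≤ L) (h2L : 2 * L ≤ c) (m0 β : ℝ) (hm : 0 < m0)
    (hβ : av (2 * L) (fun u => ind (En L u < m0)) ≤ β) (v : Fin 4 → ℤ) :
    av (c + T) (fun y => hh c T v y ^ 2)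
      ≤ (2 / m0 ^ 2) * (1024 * (∑ l ∈ Ico (c - 2 * L) (c + T + 2 * L), 1 / ((l : ℝ) + 1))
        * (1 + ∑ r ∈ range (c + T + 2 * L + (T + 2 * L)), 1 / ((r : ℝ) + c + 1)))
        + 64 * β ^ 2 * (∑ l ∈ Ico (c - 2 * L) (c + T + 2 * L), 1 / ((l : ℝ) + 1)) := by
  set M := c + T + 2 * L with hM
  set N1 := T + 2 * L with hN1
  set Λ := Ico (c - 2 * L) M with hΛ
  have hβ0 : 0 ≤ β := le_trans (av_nonneg _ fun u => ind_nonneg _) hβ
  set B : Pth → ℝ := fun y => ∑ j ∈ Icc c (c + T), ind (Phi (2 * L) Λ y (S y j) < m0)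
    * ∑ i ∈ range (T + 1), p (c + i) (v - S y j) with hB
  set G : Pth → ℝ := fun y => ∑ n ∈ range N1, ∑ l ∈ Λ, p (n + c) (v - S y l) with hG
  have hB0 : ∀ y, 0 ≤ B y := fun y => sum_nonneg fun j _ =>
    mul_nonneg (ind_nonneg _) (sum_nonneg fun i _ => p_nonneg _ _)
  have hG0 : ∀ y, 0 ≤ G y := fun y => sum_nonneg fun n _ => sum_nonneg fun l _ => p_nonneg _ _
  rw [← av_dep_le (n := c + T) (m := M) (fun u w huw => by simp only [hh_congr c T v huw]) (by omega)]
  have h1 : ∀ y, hh c T v y ^ 2 ≤ (2 / m0 ^ 2) * G y ^ 2 + 2 * B y := by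
    intro y
    have h2 : hh c T v y ≤ G y / m0 + B y := hit_bound y (Icc c (c + T)) Λ c T (2 * L) m0 hm v
    have h3 := hh_nonneg c T v y
    have h4 := hh_le_one c T v y
    have h5 := hB0 y
    have h6 : (2 / m0 ^ 2) * G y ^ 2 = 2 * (G y / m0) ^ 2 := by field_simp
    have h7 : 0 ≤ G y / m0 := div_nonneg (hG0 y) hm.le
    rw [h6]
    by_cases hb : B y ≤ 1
    · have h8 : hh c T v y ^ 2 ≤ (G y / m0 + B y) ^ 2 := by gcongr
      nlinarith [sq_nonneg (G y / m0 - B y)]
    · rw [not_le] at hb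
      have h8 : hh c T v y ^ 2 ≤ 1 := by nlinarith
      have : 0 ≤ 2 * (G y / m0) ^ 2 := by positivity
      linarith
  refine (av_mono M h1).trans ?_
  rw [av_add, av_mul_left, av_mul_left]
  apply add_le_add
  · apply mul_le_mul_of_nonneg_left _ (by positivity)
    exact gamma_sq v c T L
  · have h2 : av M B ≤ ∑ j ∈ Icc c (c + T), ∑ i ∈ range (T + 1),
        β * (β * (16 / ((i : ℝ) + j + 1) ^ 2)) := by
      rw [hB, av_sum]
      apply sum_le_sum
      intro j hj
      rw [mem_Icc] at hj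
      simp only [mul_sum]
      rw [av_sum]
      apply sum_le_sum
      intro i _
      obtain ⟨a, ha⟩ : ∃ a, j = a + 2 * L := ⟨j - 2 * L, by omega⟩
      subst ha
      have h3 : ∀ y : Pth, ind (Phi (2 * L) Λ y (S y (a + 2 * L)) < m0) * p (c + i) (v - S y (a + 2 * L))
          ≤ ind (En L (rev (2 * L) (sh a y)) < m0) * ind (En L (sh (a + 2 * L) y) < m0)
            * p (c + i) (v - S y (a + 2 * L)) := by
        intro y
        apply mul_le_mul_of_nonneg_right _ (p_nonneg _ _)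
        rw [← ind_and]
        apply ind_mono
        intro hlt
        constructor
        · refine lt_of_le_of_lt (phi_bwd L a Λ y ?_) hlt
          intro l hl
          rw [hΛ, mem_Ico]; omega
        · refine lt_of_le_of_lt (phi_fwd L (a + 2 * L) Λ y ?_) hlt
          intro l hl
          rw [hΛ, mem_Ico]; omega
      refine (av_mono M h3).trans ?_
      refine (av_bad2 L a M (c + i) m0 β (by omega) hβ v).trans ?_
      have h5 : ((2 * L : ℕ) : ℝ) ≤ c := by exact_mod_cast h2L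
      have h6 : (i : ℝ) + ((a + 2 * L : ℕ) : ℝ) + 1 ≤ ((c + i : ℕ) : ℝ) + a + 1 := by
        push_cast at h5 ⊢
        linarith
      have h7 : (16 : ℝ) / (((c + i : ℕ) : ℝ) + a + 1) ^ 2
          ≤ 16 / ((i : ℝ) + ((a + 2 * L : ℕ) : ℝ) + 1) ^ 2 := by
        apply div_le_div_of_nonneg_left (by norm_num) (by positivity)
        exact pow_le_pow_left₀ (by positivity) h6 2
      exact mul_le_mul_of_nonneg_left (mul_le_mul_of_nonneg_left h7 hβ0) hβ0
    have h3 : ∑ j ∈ Icc c (c + T), ∑ i ∈ range (T + 1), β * (β * (16 / ((i : ℝ) + j + 1) ^ 2))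
        ≤ 32 * β ^ 2 * ∑ l ∈ Λ, 1 / ((l : ℝ) + 1) := by
      have h4 : ∀ j ∈ Icc c (c + T), ∑ i ∈ range (T + 1), β * (β * (16 / ((i : ℝ) + j + 1) ^ 2))
          ≤ 32 * β ^ 2 * (1 / ((j : ℝ) + 1)) := by
        intro j _
        have e : ∑ i ∈ range (T + 1), β * (β * (16 / ((i : ℝ) + j + 1) ^ 2))
            = 16 * β ^ 2 * ∑ i ∈ range (T + 1), 1 / ((i : ℝ) + j + 1) ^ 2 := by
          rw [mul_sum]
          apply sum_congr rfl; intro i _; ring
        rw [e]
        calc _ ≤ 16 * β ^ 2 * (2 / ((j : ℝ) + 1)) := by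
              apply mul_le_mul_of_nonneg_left (sum_inv_sq j (T + 1)) (by positivity)
          _ = _ := by ring
      refine (sum_le_sum h4).trans ?_
      rw [← mul_sum]
      apply mul_le_mul_of_nonneg_left _ (by positivity)
      apply sum_le_sum_of_subset_of_nonneg
      · intro j hj
        rw [mem_Icc] at hj
        rw [hΛ, mem_Ico]
        omega
      · intro j _ _; positivity
    calc 2 * av M B ≤ 2 * (32 * β ^ 2 * ∑ l ∈ Λ, 1 / ((l : ℝ) + 1)) := by
          gcongr; exact h2.trans h3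
      _ = _ := by ring

/-- adjacent blocks: `x` up to time `2c`, `y` at times in `[c, c+T]` -/
noncomputable def adj (c T : ℕ) (v : Fin 4 → ℤ) : ℝ :=
  av (2 * c) (fun x => av (c + T) (fun y =>
    ind (∃ i, i ≤ 2 * c ∧ ∃ j ∈ Icc c (c + T), v + S x i = S y j)))

theorem estB (c T L : ℕ) (hL : 1 ≤ L) (h2L : 2 * L ≤ c) (m0 β : ℝ) (hm : 0 < m0)
    (hβ : av (2 * L) (fun u => ind (En L u < m0)) ≤ β) (v : Fin 4 → ℤ) :
    adj c T v ≤ 96 / m0 + 64 * β := by
  have hβ0 : 0 ≤ β := le_trans (av_nonneg _ fun u => ind_nonneg _) hβ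
  unfold adj
  rw [av_comm]
  set M := c + T + 2 * L with hM
  set Λ := Ico c M with hΛ
  have hdep : Dep (c + T) (fun y => av (2 * c) (fun x =>
      ind (∃ i, i ≤ 2 * c ∧ ∃ j ∈ Icc c (c + T), v + S x i = S y j))) := by
    intro y y' h
    apply av_congr
    intro x
    apply ind_congr
    constructor
    · rintro ⟨i, h1, j, hj, h3⟩
      refine ⟨i, h1, j, hj, ?_⟩
      rw [mem_Icc] at hj
      rw [h3]; exact S_congr fun k hk => h k (by omega)
    · rintro ⟨i, h1, j, hj, h3⟩
      refine ⟨i, h1, j, hj, ?_⟩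
      rw [mem_Icc] at hj
      rw [h3]; exact S_congr fun k hk => (h k (by omega)).symm
  rw [← av_dep_le hdep (m := M) (by omega)]
  have h1 : ∀ y : Pth, av (2 * c) (fun x =>
      ind (∃ i, i ≤ 2 * c ∧ ∃ j ∈ Icc c (c + T), v + S x i = S y j))
      ≤ (∑ n ∈ range (2 * c + 2 * L), ∑ l ∈ Λ, p n (v - S y l)) / m0
        + ∑ j ∈ Icc c (c + T), ∑ i ∈ range (2 * c + 1),
          ind (En L (sh j y) < m0) * p i (v - S y j) := by
    intro y
    have h2 := hit_bound y (Icc c (c + T)) Λ 0 (2 * c) (2 * L) m0 hm v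
    simp only [Nat.zero_le, true_and, Nat.zero_add, Nat.add_zero] at h2
    refine h2.trans ?_
    gcongr ?_ + ?_
    · exact le_refl _
    · apply sum_le_sum
      intro j hj
      rw [mem_Icc] at hj
      rw [← mul_sum]
      apply mul_le_mul_of_nonneg_right _ (sum_nonneg fun i _ => p_nonneg _ _)
      apply ind_mono
      intro hlt
      refine lt_of_le_of_lt (phi_fwd L j Λ y ?_) hlt
      intro l hl
      rw [hΛ, mem_Ico]; omega
  refine (av_mono M h1).trans ?_
  rw [av_add, av_div]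
  have hc0 : (0 : ℝ) ≤ c := Nat.cast_nonneg c
  have h2L' : ((2 * L : ℕ) : ℝ) ≤ c := by exact_mod_cast h2L
  apply add_le_add
  · apply div_le_div_of_nonneg_right _ hm.le
    rw [av_sum]
    have h3 : ∀ n ∈ range (2 * c + 2 * L), av M (fun y => ∑ l ∈ Λ, p n (v - S y l))
        ≤ 32 / ((c : ℝ) + 1) := by
      intro n _
      rw [av_sum]
      have h4 : ∀ l ∈ Λ, av M (fun y => p n (v - S y l)) ≤ 16 * (1 / ((l : ℝ) + 1) ^ 2) := by
        intro l hl
        rw [hΛ, mem_Ico] at hl
        rw [av_S_le (by omega : l ≤ M) (fun z => p n (v - z)), av_p']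
        refine (p_le' _ _).trans ?_
        rw [mul_one_div]
        apply div_le_div_of_nonneg_left (by norm_num) (by positivity)
        push_cast
        gcongr
        linarith [(Nat.cast_nonneg n : (0 : ℝ) ≤ n)]
      refine (sum_le_sum h4).trans ?_
      rw [← mul_sum, hΛ, sum_Ico_eq_sum_range]
      have h5 := sum_inv_sq c (M - c)
      have h6 : ∑ k ∈ range (M - c), 1 / (((c + k : ℕ) : ℝ) + 1) ^ 2
          = ∑ k ∈ range (M - c), 1 / ((k : ℝ) + c + 1) ^ 2 := by
        apply sum_congr rfl; intro k _; push_cast; ring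
      rw [h6]
      calc _ ≤ 16 * (2 / ((c : ℝ) + 1)) := by gcongr
        _ = _ := by ring
    refine (sum_le_sum h3).trans ?_
    rw [sum_const, card_range, nsmul_eq_mul, mul_div_assoc', div_le_iff₀ (by positivity)]
    push_cast at h2L' ⊢
    nlinarith
  · rw [av_sum]
    have h3 : ∀ j ∈ Icc c (c + T), av M (fun y => ∑ i ∈ range (2 * c + 1),
        ind (En L (sh j y) < m0) * p i (v - S y j))
        ≤ (2 * (c : ℝ) + 1) * (β * (16 * (1 / ((j : ℝ) + 1) ^ 2))) := by
      intro j hj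
      rw [mem_Icc] at hj
      rw [av_sum]
      calc _ ≤ ∑ i ∈ range (2 * c + 1), β * (16 * (1 / ((j : ℝ) + 1) ^ 2)) := by
            apply sum_le_sum
            intro i _
            refine (av_bad1 L j M i m0 β (by omega) hβ v).trans ?_
            apply mul_le_mul_of_nonneg_left _ hβ0
            refine (p_le' _ _).trans ?_
            rw [mul_one_div]
            apply div_le_div_of_nonneg_left (by norm_num) (by positivity)
            push_cast
            gcongr
            linarith [(Nat.cast_nonneg i : (0 : ℝ) ≤ i)]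
        _ = _ := by rw [sum_const, card_range, nsmul_eq_mul]; push_cast; ring
    refine (sum_le_sum h3).trans ?_
    rw [← mul_sum, ← mul_sum, ← mul_sum]
    have h5 : ∑ j ∈ Icc c (c + T), 1 / ((j : ℝ) + 1) ^ 2 ≤ 2 / ((c : ℝ) + 1) := by
      have e : Icc c (c + T) = Ico c (c + T + 1) := by
        ext j; rw [mem_Icc, mem_Ico]; omega
      rw [e, sum_Ico_eq_sum_range]
      have h6 := sum_inv_sq c (c + T + 1 - c)
      refine le_trans (le_of_eq ?_) h6
      apply sum_congr rfl; intro k _; push_cast; ring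
    calc (2 * (c : ℝ) + 1) * (β * (16 * ∑ j ∈ Icc c (c + T), 1 / ((j : ℝ) + 1) ^ 2))
        ≤ (2 * (c : ℝ) + 1) * (β * (16 * (2 / ((c : ℝ) + 1)))) := by gcongr
      _ = (β * 32) * ((2 * (c : ℝ) + 1) / ((c : ℝ) + 1)) := by ring
      _ ≤ (β * 32) * 2 := by
          apply mul_le_mul_of_nonneg_left _ (by positivity)
          rw [div_le_iff₀ (by positivity)]
          linarith
      _ = _ := by ring

end Pool.Agent.Lib.MP_e4a9a7_pr
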