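import Mathlib
import Pool.Agent.Lib.MP_e4a9a7_pr.Est2

/-!
# The key estimates for the block lengths `16 ^ (k ^ 2)`
-/

namespace Pool.Agent.Lib.MP_e4a9a7_pr

open Finset

/-- block lengths -/
def Tl (k : ℕ) : ℕ := 16 ^ (k ^ 2)

theorem Tl_eq (k : ℕ) : Tl k = 2 ^ (4 * k ^ 2) := by
  unfold Tl; rw [pow_mul]; norm_num

theorem Tl_pos (k : ℕ) : 0 < Tl k := by unfold Tl; positivity

theorem Tl_mono {a b : ℕ} (h : a ≤ b) : Tl a ≤ Tl b := by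
  unfold Tl; gcongr; norm_num

theorem Tl_succ (k : ℕ) : Tl (k + 1) = Tl k * 16 ^ (2 * k + 1) := by
  unfold Tl; rw [← pow_add]; congr 1; ring

theorem four_L_le (k : ℕ) (hk : 1 ≤ k) : 4 * 2 ^ (k ^ 2) ≤ Tl k := by
  rw [Tl_eq]
  have hk2 : 1 ≤ k ^ 2 := Nat.one_le_pow _ _ hk
  calc 4 * 2 ^ (k ^ 2) = 2 ^ (k ^ 2 + 2) := by rw [pow_add]; ring
    _ ≤ 2 ^ (4 * k ^ 2) := Nat.pow_le_pow_right (by norm_num) (by omega)

theorem X_le (k : ℕ) (hk : 1 ≤ k) :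
    ∑ l ∈ Ico (Tl k - 2 * 2 ^ (k ^ 2)) (Tl (k + 1) + 2 * 2 ^ (k ^ 2)), 1 / ((l : ℝ) + 1) ≤ 14 * k := by
  have hk1 : (1 : ℝ) ≤ k := by exact_mod_cast hk
  have hk2 : 1 ≤ k ^ 2 := Nat.one_le_pow _ _ hk
  have h4L := four_L_le k hk
  have hcT : Tl k ≤ Tl (k + 1) := Tl_mono (Nat.le_succ k)
  have hT : Tl (k + 1) = 2 ^ (4 * (k + 1) ^ 2) := Tl_eq (k + 1)
  have hab : 4 * k ^ 2 - 1 ≤ 4 * (k + 1) ^ 2 + 1 := by
    have : k ^ 2 ≤ (k + 1) ^ 2 := Nat.pow_le_pow_left (Nat.le_succ k) 2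
    omega
  have h2 : ∑ l ∈ Ico (Tl k - 2 * 2 ^ (k ^ 2)) (Tl (k + 1) + 2 * 2 ^ (k ^ 2)), 1 / ((l : ℝ) + 1)
      ≤ ∑ l ∈ (Ico (2 ^ (4 * k ^ 2 - 1)) (2 ^ (4 * (k + 1) ^ 2 + 1)) : Finset ℕ), 1 / ((l : ℝ) + 1) := by
    apply sum_le_sum_of_subset_of_nonneg
    · apply Ico_subset_Ico
      · have e : 2 ^ (4 * k ^ 2) = 2 * 2 ^ (4 * k ^ 2 - 1) := by
          rw [← pow_succ']; congr 1; omega
        rw [← Tl_eq] at e
        omega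
      · have e : 2 ^ (4 * (k + 1) ^ 2 + 1) = 2 * Tl (k + 1) := by rw [pow_add, ← hT]; ring
        rw [e]; omega
    · intro _ _ _; positivity
  refine h2.trans ((sum_inv_dyadic _ _ hab).trans ?_)
  rw [Nat.cast_sub (by omega)]
  push_cast
  nlinarith

theorem X'_le (k : ℕ) (hk : 1 ≤ k) :
    ∑ r ∈ range (Tl (k + 1) + 2 * 2 ^ (k ^ 2) + (Tl (k + 1) - Tl k + 2 * 2 ^ (k ^ 2))),
      1 / ((r : ℝ) + (Tl k : ℕ) + 1) ≤ 14 * k := by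
  have hk1 : (1 : ℝ) ≤ k := by exact_mod_cast hk
  have h4L := four_L_le k hk
  have hcT : Tl k ≤ Tl (k + 1) := Tl_mono (Nat.le_succ k)
  have hT : Tl (k + 1) = 2 ^ (4 * (k + 1) ^ 2) := Tl_eq (k + 1)
  have hab : 4 * k ^ 2 ≤ 4 * (k + 1) ^ 2 + 2 := by
    have : k ^ 2 ≤ (k + 1) ^ 2 := Nat.pow_le_pow_left (Nat.le_succ k) 2
    omega
  have h2 : ∑ r ∈ range (Tl (k + 1) + 2 * 2 ^ (k ^ 2) + (Tl (k + 1) - Tl k + 2 * 2 ^ (k ^ 2))),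
        1 / ((r : ℝ) + (Tl k : ℕ) + 1)
      ≤ ∑ l ∈ (Ico (2 ^ (4 * k ^ 2)) (2 ^ (4 * (k + 1) ^ 2 + 2)) : Finset ℕ), 1 / ((l : ℝ) + 1) := by
    rw [sum_Ico_eq_sum_range, ← Tl_eq k]
    have h3 : ∀ r : ℕ, 1 / ((r : ℝ) + (Tl k : ℕ) + 1) = 1 / (((Tl k + r : ℕ) : ℝ) + 1) := by
      intro r; push_cast; ring
    simp only [h3]
    apply sum_le_sum_of_subset_of_nonneg
    · apply range_subset_range.2
      have e : 2 ^ (4 * (k + 1) ^ 2 + 2) = 4 * Tl (k + 1) := by rw [pow_add, ← hT]; ring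
      rw [e]; omega
    · intro _ _ _; positivity
  refine h2.trans ((sum_inv_dyadic _ _ hab).trans ?_)
  push_cast
  nlinarith

theorem arith1 (k cE CE m0 β X X' : ℝ) (hk1 : 1 ≤ k) (hcE : 0 < cE) (hCE : 0 < CE) (hm0pos : 0 < m0)
    (hβpos : 0 < β) (hβle : β ≤ 2 * CE / k ^ 2) (hm0le : cE * k ^ 2 / 2 ≤ m0)
    (hX0 : 0 ≤ X) (hX'0 : 0 ≤ X') (hXle : X ≤ 14 * k) (hX'le : X' ≤ 14 * k) :
    2 / m0 ^ 2 * (1024 * X * (1 + X')) + 64 * β ^ 2 * X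
      ≤ ((8 / cE ^ 2) * (1024 * 14 * 15) + 64 * (2 * CE) ^ 2 * 14 + (192 / cE + 128 * CE)) / k ^ 2 := by
  have hk0 : 0 < k := by linarith
  have h5 : 2 / m0 ^ 2 ≤ 8 / cE ^ 2 / k ^ 4 := by
    rw [div_div, div_le_div_iff₀ (by positivity) (by positivity)]
    have h6 : (cE * k ^ 2 / 2) ^ 2 ≤ m0 ^ 2 := by gcongr
    have h7 : (cE * k ^ 2 / 2) ^ 2 = cE ^ 2 * k ^ 4 / 4 := by ring
    rw [h7] at h6
    linarith
  have h6 : 1024 * X * (1 + X') ≤ 1024 * 14 * 15 * k ^ 2 := by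
    calc 1024 * X * (1 + X') ≤ 1024 * (14 * k) * (1 + 14 * k) := by gcongr
      _ ≤ 1024 * (14 * k) * (15 * k) := by gcongr; linarith
      _ = _ := by ring
  have h7 : 2 / m0 ^ 2 * (1024 * X * (1 + X')) ≤ (8 / cE ^ 2) * (1024 * 14 * 15) / k ^ 2 := by
    calc 2 / m0 ^ 2 * (1024 * X * (1 + X'))
        ≤ (8 / cE ^ 2 / k ^ 4) * (1024 * 14 * 15 * k ^ 2) := by gcongr
      _ = _ := by field_simp
  have h8 : 64 * β ^ 2 * X ≤ 64 * (2 * CE) ^ 2 * 14 / k ^ 2 := by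
    calc 64 * β ^ 2 * X ≤ 64 * (2 * CE / k ^ 2) ^ 2 * (14 * k) := by gcongr
      _ = (64 * (2 * CE) ^ 2 * 14) * (k / k ^ 4) := by ring
      _ ≤ (64 * (2 * CE) ^ 2 * 14) * (1 / k ^ 2) := by
          apply mul_le_mul_of_nonneg_left _ (by positivity)
          rw [div_le_div_iff₀ (by positivity) (by positivity), one_mul]
          calc k * k ^ 2 = k ^ 3 := by ring
            _ ≤ k ^ 4 := pow_le_pow_right₀ hk1 (by norm_num)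
      _ = _ := by ring
  have h9 : 0 ≤ (192 / cE + 128 * CE) / k ^ 2 := by positivity
  rw [add_div, add_div]
  linarith

theorem arith2 (k cE CE m0 β : ℝ) (hk1 : 1 ≤ k) (hcE : 0 < cE) (hCE : 0 < CE) (hm0pos : 0 < m0)
    (hβle : β ≤ 2 * CE / k ^ 2) (hm0le : cE * k ^ 2 / 2 ≤ m0) :
    96 / m0 + 64 * β
      ≤ ((8 / cE ^ 2) * (1024 * 14 * 15) + 64 * (2 * CE) ^ 2 * 14 + (192 / cE + 128 * CE)) / k ^ 2 := by
  have hk0 : 0 < k := by linarith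
  have h2 : 96 / m0 ≤ 192 / cE / k ^ 2 := by
    rw [div_div, div_le_div_iff₀ hm0pos (by positivity)]
    nlinarith
  have h3 : 64 * β ≤ 128 * CE / k ^ 2 := by
    calc 64 * β ≤ 64 * (2 * CE / k ^ 2) := by gcongr
      _ = _ := by ring
  have h9 : 0 ≤ ((8 / cE ^ 2) * (1024 * 14 * 15) + 64 * (2 * CE) ^ 2 * 14) / k ^ 2 := by
    positivity
  rw [add_div, add_div (192 / cE)]
  linarith

theorem key_est (cE CE : ℝ) (hcE : 0 < cE) (hCE : 0 < CE)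
    (hE : ∀ L, 1 ≤ L → av (2 * L) (fun u => ind (En L u < cE * HL L)) ≤ CE / HL L) :
    ∃ C : ℝ, 0 < C ∧ ∀ k : ℕ, 1 ≤ k → ∀ v : Fin 4 → ℤ,
      av (Tl (k + 1)) (fun y => hh (Tl k) (Tl (k + 1) - Tl k) v y ^ 2) ≤ C / (k : ℝ) ^ 2 ∧
      adj (Tl k) (Tl (k + 1)) v ≤ C / (k : ℝ) ^ 2 := by
  refine ⟨(8 / cE ^ 2) * (1024 * 14 * 15) + 64 * (2 * CE) ^ 2 * 14 + (192 / cE + 128 * CE),
    by positivity, ?_⟩
  intro k hk v
  have hk1 : (1 : ℝ) ≤ k := by exact_mod_cast hk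
  have hHL : (k : ℝ) ^ 2 / 2 ≤ HL (2 ^ (k ^ 2)) := by
    have := le_sum_inv_range_dyadic (k ^ 2)
    unfold HL
    push_cast at this ⊢
    simpa using this
  have hHLpos : 0 < HL (2 ^ (k ^ 2)) := lt_of_lt_of_le (by positivity) hHL
  have hβle : CE / HL (2 ^ (k ^ 2)) ≤ 2 * CE / (k : ℝ) ^ 2 := by
    rw [div_le_div_iff₀ hHLpos (by positivity)]
    nlinarith
  have hm0le : cE * (k : ℝ) ^ 2 / 2 ≤ cE * HL (2 ^ (k ^ 2)) := by nlinarith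
  have h4L := four_L_le k hk
  have hcT : Tl k ≤ Tl (k + 1) := Tl_mono (Nat.le_succ k)
  have hL1 : 1 ≤ 2 ^ (k ^ 2) := Nat.one_le_two_pow
  have h2L : 2 * 2 ^ (k ^ 2) ≤ Tl k := by omega
  have hEL := hE (2 ^ (k ^ 2)) hL1
  constructor
  · have h1 := estA (Tl k) (Tl (k + 1) - Tl k) (2 ^ (k ^ 2)) hL1 h2L (cE * HL (2 ^ (k ^ 2)))
      (CE / HL (2 ^ (k ^ 2))) (by positivity) hEL v
    have e1 : Tl k + (Tl (k + 1) - Tl k) = Tl (k + 1) := by omega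
    rw [e1] at h1
    refine h1.trans ?_
    apply arith1 (k : ℝ) cE CE (cE * HL (2 ^ (k ^ 2))) (CE / HL (2 ^ (k ^ 2))) _ _ hk1 hcE hCE
      (by positivity) (by positivity) hβle hm0le
    · exact sum_nonneg fun _ _ => by positivity
    · exact sum_nonneg fun _ _ => by positivity
    · exact X_le k hk
    · exact X'_le k hk
  · exact (estB (Tl k) (Tl (k + 1)) (2 ^ (k ^ 2)) hL1 h2L (cE * HL (2 ^ (k ^ 2)))
      (CE / HL (2 ^ (k ^ 2))) (by positivity) hEL v).trans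
      (arith2 (k : ℝ) cE CE (cE * HL (2 ^ (k ^ 2))) (CE / HL (2 ^ (k ^ 2))) hk1 hcE hCE
        (by positivity) hβle hm0le)

end Pool.Agent.Lib.MP_e4a9a7_pr
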