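import Mathlib
import Pool.Agent.Lib.MP_e4a9a7_pr.Key

/-!
# Block densities
-/

namespace Pool.Agent.Lib.MP_e4a9a7_pr

open Finset

/-- block weights -/
structure BW (b : ℕ → ℕ) (w : ℕ → (Fin 4 → ℤ) → Pth → Pth → ℝ) (ε : ℕ → ℝ) : Prop where
  dep : ∀ n v x x' y y', (∀ i < b n, x i = x' i) → (∀ i < b n, y i = y' i) → w n v x y = w n v x' y'
  nonneg : ∀ n v x y, 0 ≤ w n v x y
  le_two : ∀ n v x y, w n v x y ≤ 2
  avy : ∀ n v x, av (b n) (fun y => w n v x y) = 1
  l2 : ∀ n v, av (b n) (fun y => (av (b n) (fun x => w n v x y)) ^ 2) ≤ 1 + ε n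

/-- start time of block `n` -/
def tt (b : ℕ → ℕ) (n : ℕ) : ℕ := ∑ j ∈ range n, b j

theorem tt_succ (b : ℕ → ℕ) (n : ℕ) : tt b (n + 1) = tt b n + b n := by
  simp [tt, sum_range_succ]

theorem tt_zero (b : ℕ → ℕ) : tt b 0 = 0 := by simp [tt]

/-- density -/
noncomputable def WW (b : ℕ → ℕ) (w : ℕ → (Fin 4 → ℤ) → Pth → Pth → ℝ) (v₀ : Fin 4 → ℤ) :
    ℕ → Pth → Pth → ℝ
  | 0, _, _ => 1
  | (n + 1), x, y => WW b w v₀ n x y
      * w n (v₀ + S x (tt b n) - S y (tt b n)) (sh (tt b n) x) (sh (tt b n) y)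

section

variable {b : ℕ → ℕ} {w : ℕ → (Fin 4 → ℤ) → Pth → Pth → ℝ} {ε : ℕ → ℝ} (v₀ : Fin 4 → ℤ)

theorem WW_nonneg (h : BW b w ε) (n : ℕ) (x y : Pth) : 0 ≤ WW b w v₀ n x y := by
  induction n with
  | zero => simp [WW]
  | succ n ih => exact mul_nonneg ih (h.nonneg _ _ _ _)

theorem WW_congr (h : BW b w ε) (n : ℕ) {x x' y y' : Pth} (hx : ∀ i < tt b n, x i = x' i)
    (hy : ∀ i < tt b n, y i = y' i) : WW b w v₀ n x y = WW b w v₀ n x' y' := by
  induction n with
  | zero => simp [WW]
  | succ n ih =>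
    rw [tt_succ] at hx hy
    simp only [WW]
    rw [ih (fun i hi => hx i (by omega)) (fun i hi => hy i (by omega)),
      S_congr (u := x) (v := x') (fun i hi => hx i (by omega)),
      S_congr (u := y) (v := y') (fun i hi => hy i (by omega))]
    congr 1
    apply h.dep
    · intro i hi; exact hx _ (by omega)
    · intro i hi; exact hy _ (by omega)

theorem WW_app (h : BW b w ε) (n : ℕ) (x x' y y' : Pth) :
    WW b w v₀ n (app (tt b n) x x') (app (tt b n) y y') = WW b w v₀ n x y :=
  WW_congr v₀ h n (fun _ hi => app_of_lt hi _ _) (fun _ hi => app_of_lt hi _ _)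

theorem WW_succ_app (h : BW b w ε) (n : ℕ) (x x' y y' : Pth) :
    WW b w v₀ (n + 1) (app (tt b n) x x') (app (tt b n) y y')
      = WW b w v₀ n x y * w n (v₀ + S x (tt b n) - S y (tt b n)) x' y' := by
  simp only [WW, WW_app v₀ h, sh_app, S_app_le (le_refl (tt b n))]

theorem WW_avy (h : BW b w ε) (n : ℕ) (x : Pth) : av (tt b n) (fun y => WW b w v₀ n x y) = 1 := by
  induction n with
  | zero => simp [WW, av_const]
  | succ n ih =>
    rw [tt_succ, av_split]
    have h1 : ∀ y : Pth, av (b n) (fun y' => WW b w v₀ (n + 1) x (app (tt b n) y y'))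
        = WW b w v₀ n x y := by
      intro y
      have h2 : ∀ y' : Pth, WW b w v₀ (n + 1) x (app (tt b n) y y')
          = WW b w v₀ n x y * w n (v₀ + S x (tt b n) - S y (tt b n)) (sh (tt b n) x) y' := by
        intro y'
        have hx : x = app (tt b n) x (sh (tt b n) x) := by
          funext i
          simp only [app, sh]
          split_ifs with hi
          · rfl
          · congr 1; omega
        conv_lhs => rw [hx]
        rw [WW_succ_app v₀ h]
      simp only [h2]
      rw [av_mul_left, h.avy, mul_one]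
    simp only [h1]
    exact ih

/-- the integral with respect to the coupled density -/
noncomputable def Qn (b : ℕ → ℕ) (w : ℕ → (Fin 4 → ℤ) → Pth → Pth → ℝ) (v₀ : Fin 4 → ℤ)
    (n : ℕ) (F : Pth → Pth → ℝ) : ℝ :=
  av (tt b n) (fun x => av (tt b n) (fun y => WW b w v₀ n x y * F x y))

theorem Qn_mono (h : BW b w ε) (n : ℕ) {F G : Pth → Pth → ℝ} (hFG : ∀ x y, F x y ≤ G x y) :
    Qn b w v₀ n F ≤ Qn b w v₀ n G :=
  av_mono _ fun x => av_mono _ fun y => mul_le_mul_of_nonneg_left (hFG x y) (WW_nonneg v₀ h n x y)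

theorem Qn_add (n : ℕ) (F G : Pth → Pth → ℝ) :
    Qn b w v₀ n (fun x y => F x y + G x y) = Qn b w v₀ n F + Qn b w v₀ n G := by
  unfold Qn
  rw [← av_add]
  apply av_congr; intro x
  rw [← av_add]
  apply av_congr; intro y
  ring

theorem Qn_one (h : BW b w ε) (n : ℕ) : Qn b w v₀ n (fun _ _ => 1) = 1 := by
  unfold Qn
  simp only [mul_one, WW_avy v₀ h, av_const]

theorem Qn_succ (h : BW b w ε) (n : ℕ) (F : Pth → Pth → ℝ) :
    Qn b w v₀ (n + 1) F = av (tt b n) (fun x => av (tt b n) (fun y => WW b w v₀ n x y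
      * av (b n) (fun x' => av (b n) (fun y' => w n (v₀ + S x (tt b n) - S y (tt b n)) x' y'
        * F (app (tt b n) x x') (app (tt b n) y y'))))) := by
  unfold Qn
  rw [tt_succ, av_split]
  apply av_congr; intro x
  have h1 : ∀ x' : Pth, av (tt b n + b n) (fun y => WW b w v₀ (n + 1) (app (tt b n) x x') y
        * F (app (tt b n) x x') y)
      = av (tt b n) (fun y => av (b n) (fun y' => WW b w v₀ n x y
        * (w n (v₀ + S x (tt b n) - S y (tt b n)) x' y'
          * F (app (tt b n) x x') (app (tt b n) y y')))) := by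
    intro x'
    rw [av_split]
    apply av_congr; intro y
    apply av_congr; intro y'
    rw [WW_succ_app v₀ h]; ring
  simp only [h1]
  rw [av_comm]
  apply av_congr; intro y
  simp only [av_mul_left]

theorem Qn_stable (h : BW b w ε) (n : ℕ) (F : Pth → Pth → ℝ)
    (hF : ∀ x x' y y', F (app (tt b n) x x') (app (tt b n) y y') = F x y) :
    Qn b w v₀ (n + 1) F = Qn b w v₀ n F := by
  rw [Qn_succ v₀ h]
  unfold Qn
  apply av_congr; intro x
  apply av_congr; intro y
  congr 1
  simp only [hF, av_mul_right, h.avy, av_const, one_mul]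

/-- one-block bound -/
theorem Qn_crude1 (h : BW b w ε) (n : ℕ) (F : Pth → Pth → ℝ) (e : ℝ)
    (hF : ∀ x y : Pth, av (b n) (fun x' => av (b n) (fun y' =>
      w n (v₀ + S x (tt b n) - S y (tt b n)) x' y'
        * F (app (tt b n) x x') (app (tt b n) y y'))) ≤ e) :
    Qn b w v₀ (n + 1) F ≤ e := by
  rw [Qn_succ v₀ h]
  have h1 : Qn b w v₀ n (fun _ _ => e) = e := by
    have := Qn_one v₀ h n
    unfold Qn at this ⊢
    simp only [mul_one] at this
    simp only [av_mul_right]
    rw [this, one_mul]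
  rw [← h1]
  conv_rhs => rw [h1]
  calc _ ≤ av (tt b n) (fun x => av (tt b n) (fun y => WW b w v₀ n x y * e)) := by
        apply av_mono; intro x
        apply av_mono; intro y
        exact mul_le_mul_of_nonneg_left (hF x y) (WW_nonneg v₀ h n x y)
    _ = e := h1

theorem WW_add_two_le (h : BW b w ε) (n : ℕ) (x y : Pth) :
    WW b w v₀ (n + 2) x y ≤ 4 * WW b w v₀ n x y := by
  simp only [WW]
  have h0 := WW_nonneg v₀ h n x y
  have h1 := h.nonneg n (v₀ + S x (tt b n) - S y (tt b n)) (sh (tt b n) x) (sh (tt b n) y)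
  have h2 := h.le_two n (v₀ + S x (tt b n) - S y (tt b n)) (sh (tt b n) x) (sh (tt b n) y)
  have h3 := h.nonneg (n + 1) (v₀ + S x (tt b (n + 1)) - S y (tt b (n + 1))) (sh (tt b (n + 1)) x)
    (sh (tt b (n + 1)) y)
  have h4 := h.le_two (n + 1) (v₀ + S x (tt b (n + 1)) - S y (tt b (n + 1))) (sh (tt b (n + 1)) x)
    (sh (tt b (n + 1)) y)
  set A := w n (v₀ + S x (tt b n) - S y (tt b n)) (sh (tt b n) x) (sh (tt b n) y)
  set B := w (n + 1) (v₀ + S x (tt b (n + 1)) - S y (tt b (n + 1))) (sh (tt b (n + 1)) x)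
    (sh (tt b (n + 1)) y)
  have h5 : A * B ≤ 4 := by nlinarith
  calc WW b w v₀ n x y * A * B = WW b w v₀ n x y * (A * B) := by ring
    _ ≤ WW b w v₀ n x y * 4 := by gcongr
    _ = _ := by ring

/-- two-block bound -/
theorem Qn_crude2 (h : BW b w ε) (n : ℕ) (F : Pth → Pth → ℝ) (hF0 : ∀ x y, 0 ≤ F x y) (e : ℝ)
    (hF : ∀ x y : Pth, av (b n + b (n + 1)) (fun x' => av (b n + b (n + 1)) (fun y' =>
        F (app (tt b n) x x') (app (tt b n) y y'))) ≤ e) :
    Qn b w v₀ (n + 2) F ≤ 4 * e := by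
  unfold Qn
  have ht : tt b (n + 2) = tt b n + (b n + b (n + 1)) := by
    rw [tt_succ, tt_succ]; ring
  rw [ht]
  have h1 : ∀ x y, WW b w v₀ (n + 2) x y * F x y ≤ 4 * (WW b w v₀ n x y * F x y) := by
    intro x y
    calc _ ≤ (4 * WW b w v₀ n x y) * F x y :=
          mul_le_mul_of_nonneg_right (WW_add_two_le v₀ h n x y) (hF0 x y)
      _ = _ := by ring
  refine (av_mono _ fun x => av_mono _ fun y => h1 x y).trans ?_
  simp only [av_mul_left]
  apply mul_le_mul_of_nonneg_left _ (by norm_num)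
  rw [av_split]
  have h2 : ∀ x : Pth, av (b n + b (n + 1)) (fun x' => av (tt b n + (b n + b (n + 1)))
        (fun y => WW b w v₀ n (app (tt b n) x x') y * F (app (tt b n) x x') y))
      ≤ av (tt b n) (fun y => WW b w v₀ n x y * e) := by
    intro x
    have h3 : ∀ x' : Pth, av (tt b n + (b n + b (n + 1)))
        (fun y => WW b w v₀ n (app (tt b n) x x') y * F (app (tt b n) x x') y)
        = av (tt b n) (fun y => av (b n + b (n + 1)) (fun y' => WW b w v₀ n x y
          * F (app (tt b n) x x') (app (tt b n) y y'))) := by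
      intro x'
      rw [av_split]
      apply av_congr; intro y
      apply av_congr; intro y'
      rw [WW_app v₀ h]
    simp only [h3]
    rw [av_comm]
    apply av_mono; intro y
    simp only [av_mul_left]
    exact mul_le_mul_of_nonneg_left (hF x y) (WW_nonneg v₀ h n x y)
  refine (av_mono _ h2).trans ?_
  simp only [av_mul_right, WW_avy v₀ h, av_const, one_mul]
  exact le_refl _

/-- `L²` bound of the second marginal density -/
theorem WW_l2 (h : BW b w ε) (hε : ∀ n, 0 ≤ ε n) (n : ℕ) :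
    av (tt b n) (fun y => (av (tt b n) (fun x => WW b w v₀ n x y)) ^ 2)
      ≤ ∏ j ∈ range n, (1 + ε j) := by
  induction n with
  | zero => simp [WW, av_const]
  | succ n ih =>
    rw [prod_range_succ, tt_succ, av_split]
    have h1 : ∀ y : Pth, av (b n) (fun y' => (av (tt b n + b n)
        (fun x => WW b w v₀ (n + 1) x (app (tt b n) y y'))) ^ 2)
        ≤ (av (tt b n) (fun x => WW b w v₀ n x y)) ^ 2 * (1 + ε n) := by
      intro y
      have h2 : ∀ y' : Pth, av (tt b n + b n) (fun x => WW b w v₀ (n + 1) x (app (tt b n) y y'))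
          = av (tt b n) (fun x => WW b w v₀ n x y
            * av (b n) (fun x' => w n (v₀ + S x (tt b n) - S y (tt b n)) x' y')) := by
        intro y'
        rw [av_split]
        apply av_congr; intro x
        rw [← av_mul_left]
        apply av_congr; intro x'
        rw [WW_succ_app v₀ h]
      simp only [h2]
      have h3 : ∀ y' : Pth, (av (tt b n) (fun x => WW b w v₀ n x y
            * av (b n) (fun x' => w n (v₀ + S x (tt b n) - S y (tt b n)) x' y'))) ^ 2
          ≤ av (tt b n) (fun x => WW b w v₀ n x y) * av (tt b n) (fun x => WW b w v₀ n x y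
            * (av (b n) (fun x' => w n (v₀ + S x (tt b n) - S y (tt b n)) x' y')) ^ 2) := by
        intro y'
        exact av_cs (tt b n) (f := fun x => WW b w v₀ n x y)
          (fun x => av (b n) (fun x' => w n (v₀ + S x (tt b n) - S y (tt b n)) x' y'))
          (fun x => WW_nonneg v₀ h n x y)
      refine (av_mono _ h3).trans ?_
      rw [av_mul_left, av_comm, sq, mul_assoc]
      have hnn : 0 ≤ av (tt b n) (fun x => WW b w v₀ n x y) :=
        av_nonneg _ fun x => WW_nonneg v₀ h n x y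
      apply mul_le_mul_of_nonneg_left _ hnn
      rw [← av_mul_right]
      apply av_mono; intro x
      rw [av_mul_left]
      exact mul_le_mul_of_nonneg_left (h.l2 n _) (WW_nonneg v₀ h n x y)
    refine (av_mono _ h1).trans ?_
    rw [av_mul_right]
    exact mul_le_mul_of_nonneg_right ih (by linarith [hε n])

end

end Pool.Agent.Lib.MP_e4a9a7_pr
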