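import Mathlib
import Pool.Agent.Lib.MP_e4a9a7_pr.Blocks

/-!
# The resampling weights
-/

namespace Pool.Agent.Lib.MP_e4a9a7_pr

open Finset

/-- intersection of the core parts -/
def core (c T : ℕ) (v : Fin 4 → ℤ) (x y : Pth) : Prop :=
  ∃ i, c ≤ i ∧ i ≤ c + T ∧ ∃ j ∈ Icc c (c + T), v + S x i = S y j

theorem core_symm (c T : ℕ) (v : Fin 4 → ℤ) (x y : Pth) : core c T v x y ↔ core c T (-v) y x := by
  constructor
  · rintro ⟨i, h1, h2, j, hj, h3⟩
    rw [mem_Icc] at hj
    refine ⟨j, hj.1, hj.2, i, mem_Icc.2 ⟨h1, h2⟩, ?_⟩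
    rw [← h3]; abel
  · rintro ⟨i, h1, h2, j, hj, h3⟩
    rw [mem_Icc] at hj
    refine ⟨j, hj.1, hj.2, i, mem_Icc.2 ⟨h1, h2⟩, ?_⟩
    rw [← h3]; abel

theorem core_congr (c T : ℕ) (v : Fin 4 → ℤ) {x x' y y' : Pth} (hx : ∀ i < c + T, x i = x' i)
    (hy : ∀ i < c + T, y i = y' i) : core c T v x y ↔ core c T v x' y' := by
  unfold core
  constructor
  · rintro ⟨i, h1, h2, j, hj, h3⟩
    refine ⟨i, h1, h2, j, hj, ?_⟩
    rw [mem_Icc] at hj
    rw [← S_congr (fun k hk => hx k (by omega)), ← S_congr (fun k hk => hy k (by omega))]; exact h3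
  · rintro ⟨i, h1, h2, j, hj, h3⟩
    refine ⟨i, h1, h2, j, hj, ?_⟩
    rw [mem_Icc] at hj
    rw [S_congr (fun k hk => hx k (by omega)), S_congr (fun k hk => hy k (by omega))]; exact h3

theorem av_core_x (c T : ℕ) (v : Fin 4 → ℤ) (y : Pth) :
    av (c + T) (fun x => ind (core c T v x y)) = hh c T v y := rfl

theorem av_core_y (c T : ℕ) (v : Fin 4 → ℤ) (x : Pth) :
    av (c + T) (fun y => ind (core c T v x y)) = hh c T (-v) x := by
  rw [← av_core_x]
  apply av_congr; intro y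
  exact ind_congr (core_symm c T v x y)

/-- the density of the resample-once coupling of one block -/
noncomputable def rw1 (c T : ℕ) (v : Fin 4 → ℤ) (x y : Pth) : ℝ :=
  (1 - ind (core c T v x y)) + hh c T (-v) x

theorem rw1_nonneg (c T : ℕ) (v : Fin 4 → ℤ) (x y : Pth) : 0 ≤ rw1 c T v x y := by
  unfold rw1
  have := ind_le_one (core c T v x y)
  have := hh_nonneg c T (-v) x
  linarith

theorem rw1_le_two (c T : ℕ) (v : Fin 4 → ℤ) (x y : Pth) : rw1 c T v x y ≤ 2 := by
  unfold rw1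
  have := ind_nonneg (core c T v x y)
  have := hh_le_one c T (-v) x
  linarith

theorem rw1_avy (c T : ℕ) (v : Fin 4 → ℤ) (x : Pth) : av (c + T) (fun y => rw1 c T v x y) = 1 := by
  unfold rw1
  rw [av_add, av_sub, av_const, av_const, av_core_y]; ring

theorem rw1_avx (c T : ℕ) (v : Fin 4 → ℤ) (y : Pth) :
    av (c + T) (fun x => rw1 c T v x y) = 1 + av (c + T) (hh c T v) - hh c T v y := by
  unfold rw1
  rw [av_add, av_sub, av_const, av_core_x]
  have h : av (c + T) (fun x => hh c T (-v) x) = av (c + T) (hh c T v) := by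
    have h1 : ∀ x : Pth, hh c T (-v) x = av (c + T) (fun y => ind (core c T v x y)) :=
      fun x => (av_core_y c T v x).symm
    simp only [h1]
    rw [av_comm]
    rfl
  rw [h]; ring

theorem rw1_l2 (c T : ℕ) (v : Fin 4 → ℤ) :
    av (c + T) (fun y => (av (c + T) (fun x => rw1 c T v x y)) ^ 2)
      ≤ 1 + av (c + T) (fun y => hh c T v y ^ 2) := by
  simp only [rw1_avx]
  set m := av (c + T) (hh c T v) with hm
  have h1 : ∀ y : Pth, (1 + m - hh c T v y) ^ 2 = ((1 + m) ^ 2 + (-2 * (1 + m)) * hh c T v y)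
      + hh c T v y ^ 2 := by intro y; ring
  simp only [h1]
  rw [av_add, av_add, av_const, av_mul_left]
  have : av (c + T) (fun y => hh c T v y) = m := rfl
  rw [this]
  nlinarith [sq_nonneg m]

theorem rw1_core (c T : ℕ) (v : Fin 4 → ℤ) :
    av (c + T) (fun x => av (c + T) (fun y => rw1 c T v x y * ind (core c T v x y)))
      = av (c + T) (fun x => hh c T (-v) x ^ 2) := by
  apply av_congr; intro x
  have h1 : ∀ y : Pth, rw1 c T v x y * ind (core c T v x y) = hh c T (-v) x * ind (core c T v x y) := by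
    intro y
    unfold rw1
    by_cases h : core c T v x y
    · rw [ind_of h]; ring
    · rw [ind_not h]; ring
  simp only [h1]
  rw [av_mul_left, av_core_y]; ring

theorem rw1_congr (c T : ℕ) (v : Fin 4 → ℤ) {x x' y y' : Pth} (hx : ∀ i < c + T, x i = x' i)
    (hy : ∀ i < c + T, y i = y' i) : rw1 c T v x y = rw1 c T v x' y' := by
  unfold rw1
  rw [ind_congr (core_congr c T v hx hy), hh_congr c T (-v) hx]

/-- block lengths -/
def bK (K : ℕ) (n : ℕ) : ℕ := Tl (K + n)

noncomputable def wK (K : ℕ) : ℕ → (Fin 4 → ℤ) → Pth → Pth → ℝ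
  | 0, _, _, _ => 1
  | (n + 1), v, x, y => rw1 (Tl (K + n)) (Tl (K + n + 1) - Tl (K + n)) v x y

noncomputable def eK (K : ℕ) (C : ℝ) : ℕ → ℝ
  | 0 => 0
  | (n + 1) => C / ((K + n : ℕ) : ℝ) ^ 2

theorem bK_succ (K n : ℕ) : bK K (n + 1) = Tl (K + n) + (Tl (K + n + 1) - Tl (K + n)) := by
  have := Tl_mono (Nat.le_succ (K + n))
  unfold bK
  rw [← add_assoc]
  simp only [Nat.succ_eq_add_one] at this
  omega

theorem bwK (K : ℕ) (hK : 1 ≤ K) (C : ℝ)
    (hC : ∀ k : ℕ, 1 ≤ k → ∀ v : Fin 4 → ℤ,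
      av (Tl (k + 1)) (fun y => hh (Tl k) (Tl (k + 1) - Tl k) v y ^ 2) ≤ C / (k : ℝ) ^ 2) :
    BW (bK K) (wK K) (eK K C) where
  dep := by
    intro n v x x' y y' hx hy
    rcases n with _ | n
    · rfl
    · rw [bK_succ] at hx hy
      exact rw1_congr _ _ v hx hy
  nonneg := by
    intro n v x y
    rcases n with _ | n
    · exact zero_le_one
    · exact rw1_nonneg _ _ _ _ _
  le_two := by
    intro n v x y
    rcases n with _ | n
    · change (1 : ℝ) ≤ 2; norm_num
    · exact rw1_le_two _ _ _ _ _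
  avy := by
    intro n v x
    rcases n with _ | n
    · exact av_const _ _
    · rw [bK_succ]; exact rw1_avy _ _ _ _
  l2 := by
    intro n v
    rcases n with _ | n
    · simp only [wK, eK, av_const]; norm_num
    · rw [bK_succ]
      refine (rw1_l2 _ _ _).trans ?_
      have h := hC (K + n) (by omega) v
      have e : Tl (K + n) + (Tl (K + n + 1) - Tl (K + n)) = Tl (K + n + 1) := by
        have := Tl_mono (Nat.le_succ (K + n))
        simp only [Nat.succ_eq_add_one] at this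
        omega
      rw [e]
      simp only [eK]
      linarith

/-- hitting a finite set at late times -/
theorem hit_set (Z : Finset (Fin 4 → ℤ)) (c T : ℕ) (v : Fin 4 → ℤ) :
    av (c + T) (fun y => ind (∃ z ∈ Z, ∃ j ∈ Icc c (c + T), v + S y j = z))
      ≤ Z.card * (32 / ((c : ℝ) + 1)) := by
  have h1 : ∀ y : Pth, ind (∃ z ∈ Z, ∃ j ∈ Icc c (c + T), v + S y j = z)
      ≤ ∑ z ∈ Z, ∑ j ∈ Icc c (c + T), ind (v + S y j = z) := by
    intro y
    refine (ind_exists_le Z _).trans ?_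
    apply sum_le_sum; intro z _
    exact ind_exists_le _ _
  refine (av_mono _ h1).trans ?_
  rw [av_sum]
  have h2 : ∀ z ∈ Z, av (c + T) (fun y => ∑ j ∈ Icc c (c + T), ind (v + S y j = z))
      ≤ 32 / ((c : ℝ) + 1) := by
    intro z _
    rw [av_sum]
    have h3 : ∀ j ∈ Icc c (c + T), av (c + T) (fun y => ind (v + S y j = z))
        ≤ 16 * (1 / ((j : ℝ) + 1) ^ 2) := by
      intro j hj
      rw [mem_Icc] at hj
      rw [av_hit_point hj.2]
      refine (p_le' _ _).trans (le_of_eq ?_)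
      ring
    refine (sum_le_sum h3).trans ?_
    rw [← mul_sum]
    have e : Icc c (c + T) = Ico c (c + T + 1) := by
      ext j; rw [mem_Icc, mem_Ico]; omega
    rw [e, sum_Ico_eq_sum_range]
    have h6 := sum_inv_sq c (c + T + 1 - c)
    have h7 : ∑ k ∈ range (c + T + 1 - c), 1 / (((c + k : ℕ) : ℝ) + 1) ^ 2
        = ∑ k ∈ range (c + T + 1 - c), 1 / ((k : ℝ) + c + 1) ^ 2 := by
      apply sum_congr rfl; intro k _; push_cast; ring
    rw [h7]
    calc _ ≤ 16 * (2 / ((c : ℝ) + 1)) := by gcongr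
      _ = _ := by ring
  refine (sum_le_sum h2).trans ?_
  rw [sum_const, nsmul_eq_mul]

end Pool.Agent.Lib.MP_e4a9a7_pr
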