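import Mathlib
import Pool.Agent.Lib.MP_e4a9a7_pr.Util

/-!
# Window energy of four-dimensional simple random walk

The expected energy is of order `log L`, its variance is at most of order `log L`, so by Chebyshev
the energy is at least `c log L` with probability `1 - C / log L`.
-/

namespace Pool.Agent.Lib.MP_e4a9a7_pr

open Finset

/-! ### sums over the lattice -/

theorem finite_box (n : ℕ) : {z : Fin 4 → ℤ | ∀ i, |z i| ≤ (n : ℤ)}.Finite := by
  apply (Set.finite_Icc (fun _ : Fin 4 => -(n : ℤ)) (fun _ : Fin 4 => (n : ℤ))).subset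
  intro z hz
  exact ⟨fun i => (abs_le.1 (hz i)).1, fun i => (abs_le.1 (hz i)).2⟩

theorem finite_support_p (n : ℕ) : (Function.support (p n)).Finite := by
  apply (finite_box n).subset
  intro z hz i
  by_contra h
  push Not at h
  exact hz (p_eq_zero_of_lt n z i h)

theorem summable_p_mul (n : ℕ) (f : (Fin 4 → ℤ) → ℝ) : Summable (fun w => p n w * f w) := by
  apply summable_of_hasFiniteSupport
  apply (finite_support_p n).subset
  intro z hz h
  apply hz
  simp only [h, zero_mul]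

theorem av_eq_tsum (n : ℕ) (f : (Fin 4 → ℤ) → ℝ) :
    av n (fun u => f (S u n)) = ∑' w, p n w * f w := by
  induction n generalizing f with
  | zero =>
    simp only [av_zero, S_zero, p_zero]
    rw [tsum_eq_single 0]
    · simp
    · intro b hb; simp [hb]
  | succ n ih =>
    rw [av_succ]
    have h1 : ∀ s : Stp, av n (fun u => f (S (cns s u) (n + 1))) = ∑' w, p n (w - stepVec s) * f w := by
      intro s
      have h2 : ∀ u, f (S (cns s u) (n + 1)) = (fun z => f (stepVec s + z)) (S u n) := by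
        intro u; rw [S_cns]
      simp only [h2]
      rw [ih (fun z => f (stepVec s + z))]
      rw [← (Equiv.subRight (stepVec s)).tsum_eq (fun w => p n w * f (stepVec s + w))]
      apply tsum_congr
      intro w
      simp only [Equiv.subRight_apply, add_sub_cancel]
    simp only [h1]
    have hsum : ∀ s ∈ (Finset.univ : Finset Stp), Summable (fun w => p n (w - stepVec s) * f w) := by
      intro s _
      apply summable_of_hasFiniteSupport
      apply ((finite_support_p n).image (fun z => z + stepVec s)).subset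
      intro w hw
      refine ⟨w - stepVec s, ?_, by simp⟩
      intro h
      apply hw
      simp only [h, zero_mul]
    rw [← Summable.tsum_finsetSum hsum, ← tsum_div_const]
    apply tsum_congr
    intro w
    have h3 : p (n + 1) w = (1 / 8) * ∑ s : Stp, p n (w - stepVec s) := rfl
    rw [h3, ← sum_mul]
    ring

theorem tsum_p_sq (n : ℕ) : ∑' w, p n w * p n w = p (2 * n) 0 := by
  rw [← av_eq_tsum n (fun z => p n z)]
  have := av_p n n 0
  simp only [zero_add] at this
  rw [this, two_mul]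

/-- return probabilities dominate (even times) -/
theorem p_even_le (n : ℕ) (z : Fin 4 → ℤ) : p (2 * n) z ≤ p (2 * n) 0 := by
  have h1 : p (2 * n) z = ∑' w, p n w * p n (z + w) := by
    rw [← av_eq_tsum n (fun w => p n (z + w)), av_p, two_mul]
  have hs1 : Summable (fun w => p n w * p n w) := summable_p_mul n _
  have hs2 : Summable (fun w => p n (z + w) * p n (z + w)) :=
    (Equiv.addLeft z).summable_iff.mpr hs1
  have h2 : ∑' w, p n (z + w) * p n (z + w) = ∑' w, p n w * p n w :=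
    (Equiv.addLeft z).tsum_eq (fun w => p n w * p n w)
  have h3 : ∑' w, p n w * p n (z + w)
      ≤ ∑' w, ((p n w * p n w) / 2 + (p n (z + w) * p n (z + w)) / 2) := by
    apply Summable.tsum_le_tsum _ (summable_p_mul n _) ((hs1.div_const 2).add (hs2.div_const 2))
    intro w
    nlinarith [sq_nonneg (p n w - p n (z + w))]
  rw [Summable.tsum_add (hs1.div_const 2) (hs2.div_const 2), tsum_div_const, tsum_div_const, h2,
    tsum_p_sq] at h3
  rw [h1]
  linarith

/-- return probability at time `2 m` -/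
noncomputable def rp (m : ℕ) : ℝ := p (2 * m) 0

theorem rp_nonneg (m : ℕ) : 0 ≤ rp m := p_nonneg _ _

theorem rp_le (m : ℕ) : rp m ≤ 16 / ((m : ℝ) + 1) ^ 2 := by
  refine (p_le' _ _).trans ?_
  push_cast
  have : (0 : ℝ) ≤ m := Nat.cast_nonneg m
  gcongr
  linarith

theorem le_rp (m : ℕ) : 1 / (8 * ((m : ℝ) + 2) ^ 2) ≤ rp m := le_p_zero m

theorem rp_succ_le (m : ℕ) : rp (m + 1) ≤ rp m := by
  unfold rp
  have h := av_p 2 (2 * m) 0
  rw [show 2 * (m + 1) = 2 + 2 * m by ring, ← h]
  exact av_le_const 2 fun u => p_even_le m _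

theorem rp_anti {m n : ℕ} (h : m ≤ n) : rp n ≤ rp m := antitone_nat_of_succ_le rp_succ_le h

/-! ### correlations -/

theorem av_p_mul_le_right (l n r : ℕ) :
    av (2 * l) (fun u => p (2 * n) (S u (2 * l)) * p (2 * r) (S u (2 * l))) ≤ rp r * rp (l + n) := by
  have h : av (2 * l) (fun u => p (2 * n) (S u (2 * l))) = rp (l + n) := by
    have := av_p (2 * l) (2 * n) 0
    simp only [zero_add] at this
    rw [this]; unfold rp; congr 1; ring
  rw [← h, ← av_mul_left]
  apply av_mono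
  intro u
  rw [mul_comm]
  exact mul_le_mul_of_nonneg_right (p_even_le r _) (p_nonneg _ _)

theorem av_p_mul_swap (l n r : ℕ) :
    av (2 * l) (fun u => p (2 * n) (S u (2 * l)) * p (2 * r) (S u (2 * l)))
      = av (2 * r) (fun u => p (2 * n) (S u (2 * r)) * p (2 * l) (S u (2 * r))) := by
  rw [av_eq_tsum (2 * l) (fun z => p (2 * n) z * p (2 * r) z),
    av_eq_tsum (2 * r) (fun z => p (2 * n) z * p (2 * l) z)]
  apply tsum_congr
  intro w; ring

theorem av_p_mul_le_left (l n r : ℕ) :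
    av (2 * l) (fun u => p (2 * n) (S u (2 * l)) * p (2 * r) (S u (2 * l))) ≤ rp l * rp (n + r) := by
  rw [av_p_mul_swap]
  have := av_p_mul_le_right r n l
  rwa [Nat.add_comm r n] at this

/-- Markov property for the product of two kernels -/
theorem av_p_mul (L l l' n n' : ℕ) (hl : l ≤ l') (hL : l' ≤ L) :
    av (2 * L) (fun u => p (2 * n) (S u (2 * l)) * p (2 * n') (S u (2 * l')))
      = av (2 * l) (fun u => p (2 * n) (S u (2 * l)) * p (2 * (l' - l + n')) (S u (2 * l))) := by
  obtain ⟨d, rfl⟩ := Nat.exists_eq_add_of_le hl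
  obtain ⟨e, rfl⟩ := Nat.exists_eq_add_of_le hL
  rw [show 2 * (l + d + e) = 2 * l + (2 * d + 2 * e) by ring, av_split]
  apply av_congr
  intro u
  have h1 : ∀ v : Pth, p (2 * n) (S (app (2 * l) u v) (2 * l)) * p (2 * n') (S (app (2 * l) u v) (2 * (l + d)))
      = p (2 * n) (S u (2 * l)) * p (2 * n') (S u (2 * l) + S v (2 * d)) := by
    intro v
    rw [S_app_le le_rfl, show 2 * (l + d) = 2 * l + 2 * d by ring, S_app_add]
  simp only [h1]
  rw [av_mul_left]
  congr 1
  have h2 : Dep (2 * d) (fun v => p (2 * n') (S u (2 * l) + S v (2 * d))) := by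
    intro v v' h
    simp only
    rw [S_congr h]
  rw [av_dep h2, av_p]
  congr 1
  omega

/-! ### elementary sums -/

theorem sum_rp_le (a N : ℕ) : ∑ n ∈ range N, rp (a + n) ≤ 32 / ((a : ℝ) + 1) := by
  calc ∑ n ∈ range N, rp (a + n) ≤ ∑ n ∈ range N, 16 * (1 / ((n : ℝ) + a + 1) ^ 2) := by
        apply sum_le_sum
        intro n _
        refine (rp_le _).trans (le_of_eq ?_)
        push_cast
        rw [mul_one_div]
        congr 2
        ring
    _ = 16 * ∑ n ∈ range N, 1 / ((n : ℝ) + a + 1) ^ 2 := by rw [mul_sum]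
    _ ≤ 16 * (2 / ((a : ℝ) + 1)) := by gcongr; exact sum_inv_sq a N
    _ = _ := by ring

theorem tele (l R : ℕ) :
    ∑ r ∈ Ico l R, ((r : ℝ) + 1) * (rp r - rp (r + l)) ≤ 48 := by
  -- extend to a large range
  have h0 : ∀ r : ℕ, 0 ≤ ((r : ℝ) + 1) * (rp r - rp (r + l)) := fun r =>
    mul_nonneg (by positivity) (sub_nonneg.2 (rp_anti (Nat.le_add_right r l)))
  set Q := R + 2 * l with hQ
  have h1 : ∑ r ∈ Ico l R, ((r : ℝ) + 1) * (rp r - rp (r + l))
      ≤ ∑ r ∈ Ico l Q, ((r : ℝ) + 1) * (rp r - rp (r + l)) := by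
    apply sum_le_sum_of_subset_of_nonneg
    · apply Ico_subset_Ico le_rfl; omega
    · intro r _ _; exact h0 r
  refine h1.trans ?_
  have h2 : ∑ r ∈ Ico l Q, ((r : ℝ) + 1) * (rp r - rp (r + l))
      = ∑ r ∈ Ico l Q, ((r : ℝ) + 1) * rp r - ∑ r ∈ Ico l Q, ((r : ℝ) + 1) * rp (r + l) := by
    rw [← sum_sub_distrib]
    apply sum_congr rfl
    intro r _; ring
  have h3 : ∑ r ∈ Ico l Q, ((r : ℝ) + 1) * rp (r + l)
      = ∑ s ∈ Ico (2 * l) (Q + l), ((s : ℝ) - l + 1) * rp s := by
    have := sum_Ico_add' (fun s : ℕ => ((s : ℝ) - l + 1) * rp s) l Q l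
    rw [show l + l = 2 * l by ring] at this
    rw [← this]
    apply sum_congr rfl
    intro r _
    push_cast
    ring
  have h4 : ∑ s ∈ Ico (2 * l) Q, ((s : ℝ) - l + 1) * rp s
      ≤ ∑ s ∈ Ico (2 * l) (Q + l), ((s : ℝ) - l + 1) * rp s := by
    apply sum_le_sum_of_subset_of_nonneg
    · apply Ico_subset_Ico le_rfl; omega
    · intro s hs _
      rw [mem_Ico] at hs
      apply mul_nonneg _ (rp_nonneg _)
      have : ((l : ℕ) : ℝ) ≤ s := by exact_mod_cast (by omega : l ≤ s)
      linarith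
  have h5 : ∑ r ∈ Ico l Q, ((r : ℝ) + 1) * rp r
      = ∑ r ∈ Ico l (2 * l), ((r : ℝ) + 1) * rp r + ∑ r ∈ Ico (2 * l) Q, ((r : ℝ) + 1) * rp r := by
    rw [sum_Ico_consecutive _ (by omega) (by omega)]
  have h6 : ∑ r ∈ Ico (2 * l) Q, ((r : ℝ) + 1) * rp r - ∑ s ∈ Ico (2 * l) Q, ((s : ℝ) - l + 1) * rp s
      = l * ∑ r ∈ Ico (2 * l) Q, rp r := by
    rw [← sum_sub_distrib, mul_sum]
    apply sum_congr rfl
    intro r _; ring
  have h7 : ∑ r ∈ Ico l (2 * l), ((r : ℝ) + 1) * rp r ≤ 16 := by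
    calc ∑ r ∈ Ico l (2 * l), ((r : ℝ) + 1) * rp r ≤ ∑ r ∈ Ico l (2 * l), 16 / ((l : ℝ) + 1) := by
          apply sum_le_sum
          intro r hr
          rw [mem_Ico] at hr
          have hlr : (l : ℝ) ≤ r := by exact_mod_cast hr.1
          have hl0 : (0 : ℝ) ≤ l := Nat.cast_nonneg l
          calc ((r : ℝ) + 1) * rp r ≤ ((r : ℝ) + 1) * (16 / ((r : ℝ) + 1) ^ 2) := by
                gcongr; exact rp_le r
            _ = 16 / ((r : ℝ) + 1) := by field_simp
            _ ≤ _ := by gcongr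
      _ = (l : ℝ) * (16 / ((l : ℝ) + 1)) := by
          rw [sum_const, Nat.card_Ico, nsmul_eq_mul]
          congr 2
          omega
      _ ≤ 16 := by
          have hl0 : (0 : ℝ) ≤ l := Nat.cast_nonneg l
          rw [mul_div_assoc', div_le_iff₀ (by positivity)]
          linarith
  have h8 : (l : ℝ) * ∑ r ∈ Ico (2 * l) Q, rp r ≤ 32 := by
    have : ∑ r ∈ Ico (2 * l) Q, rp r ≤ 32 / (((2 * l : ℕ) : ℝ) + 1) := by
      rw [sum_Ico_eq_sum_range]
      exact sum_rp_le _ _
    have hl0 : (0 : ℝ) ≤ l := Nat.cast_nonneg l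
    calc (l : ℝ) * ∑ r ∈ Ico (2 * l) Q, rp r ≤ (l : ℝ) * (32 / (((2 * l : ℕ) : ℝ) + 1)) := by gcongr
      _ ≤ 32 := by
          push_cast
          rw [mul_div_assoc', div_le_iff₀ (by positivity)]
          linarith
  linarith

/-! ### mean and variance of the energy -/

/-- energy seen at one time -/
noncomputable def Al (L l : ℕ) (u : Pth) : ℝ := ∑ n ∈ range L, p (2 * n) (S u (2 * l))

theorem av_Al (L l : ℕ) (hl : l ≤ L) : av (2 * L) (Al L l) = ∑ n ∈ range L, rp (l + n) := by
  unfold Al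
  rw [av_sum]
  apply sum_congr rfl
  intro n _
  have h2 : Dep (2 * l) (fun v => p (2 * n) (S v (2 * l))) := by
    intro v v' h
    simp only
    rw [S_congr h]
  rw [av_dep_le h2 (by omega)]
  have := av_p (2 * l) (2 * n) 0
  simp only [zero_add] at this
  rw [this]; unfold rp; congr 1; ring

theorem En_eq (L : ℕ) (u : Pth) : En L u = ∑ l ∈ range L, Al L l u := rfl

noncomputable def mean (L : ℕ) : ℝ := ∑ l ∈ range L, ∑ n ∈ range L, rp (l + n)

theorem av_En (L : ℕ) : av (2 * L) (En L) = mean L := by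
  have h : av (2 * L) (En L) = ∑ l ∈ range L, av (2 * L) (Al L l) := by
    rw [← av_sum]
    exact av_congr _ fun u => En_eq L u
  rw [h, mean]
  apply sum_congr rfl
  intro l hl
  exact av_Al L l (mem_range.1 hl).le

theorem HL_pos (L : ℕ) (hL : 1 ≤ L) : 0 < HL L := by
  unfold HL
  apply sum_pos
  · intro l _; positivity
  · exact ⟨0, mem_range.2 hL⟩

theorem le_mean (L : ℕ) : HL L / 32 ≤ mean L := by
  unfold HL mean
  rw [sum_div]
  apply sum_le_sum
  intro l hl
  rw [mem_range] at hl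
  calc 1 / ((l : ℝ) + 1) / 32 = ∑ n ∈ range (l + 1), 1 / (8 * (2 * ((l : ℝ) + 1)) ^ 2) := by
        rw [sum_const, card_range, nsmul_eq_mul]
        push_cast
        field_simp
        ring
    _ ≤ ∑ n ∈ range (l + 1), rp (l + n) := by
        apply sum_le_sum
        intro n hn
        rw [mem_range] at hn
        refine le_trans ?_ (le_rp _)
        push_cast
        have : (n : ℝ) ≤ l := by exact_mod_cast Nat.lt_succ_iff.1 hn
        gcongr
        linarith
    _ ≤ ∑ n ∈ range L, rp (l + n) := by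
        apply sum_le_sum_of_subset_of_nonneg
        · exact range_subset_range.2 hl
        · intro n _ _; exact rp_nonneg _

/-- covariance bound: the summand, as a function of `l`, `n` and `r = l' - l + n'` -/
noncomputable def cb (l n r : ℕ) : ℝ :=
  if r < l then rp l * rp (n + r) else rp (l + n) * (rp r - rp (r + l))

theorem cb_nonneg (l n r : ℕ) : 0 ≤ cb l n r := by
  unfold cb
  split_ifs
  · exact mul_nonneg (rp_nonneg _) (rp_nonneg _)
  · exact mul_nonneg (rp_nonneg _) (sub_nonneg.2 (rp_anti (Nat.le_add_right r l)))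

theorem cov_le (L l l' n n' : ℕ) (hl : l ≤ l') (hL : l' ≤ L) :
    av (2 * L) (fun u => p (2 * n) (S u (2 * l)) * p (2 * n') (S u (2 * l')))
      - rp (l + n) * rp (l' + n') ≤ cb l n (l' - l + n') := by
  rw [av_p_mul L l l' n n' hl hL]
  set r := l' - l + n' with hr
  have e : l' + n' = r + l := by omega
  rw [e]
  unfold cb
  split_ifs with h
  · have h1 := av_p_mul_le_left l n r
    have h2 := mul_nonneg (rp_nonneg (l + n)) (rp_nonneg (r + l))
    linarith
  · have h1 := av_p_mul_le_right l n r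
    nlinarith

theorem cov_Al_le (L l l' : ℕ) (hl : l ≤ l') (hL : l' < L) :
    av (2 * L) (fun u => Al L l u * Al L l' u) - av (2 * L) (Al L l) * av (2 * L) (Al L l')
      ≤ ∑ n' ∈ range L, ∑ n ∈ range L, cb l n (l' - l + n') := by
  rw [av_Al L l (by omega), av_Al L l' hL.le]
  have h1 : av (2 * L) (fun u => Al L l u * Al L l' u) = ∑ n ∈ range L, ∑ n' ∈ range L,
      av (2 * L) (fun u => p (2 * n) (S u (2 * l)) * p (2 * n') (S u (2 * l'))) := by
    have : ∀ u, Al L l u * Al L l' u = ∑ n ∈ range L, ∑ n' ∈ range L,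
        p (2 * n) (S u (2 * l)) * p (2 * n') (S u (2 * l')) := by
      intro u
      unfold Al
      rw [sum_mul_sum]
    simp only [this]
    rw [av_sum]
    apply sum_congr rfl
    intro n _
    rw [av_sum]
  rw [h1, sum_mul_sum, ← sum_sub_distrib]
  simp only [← sum_sub_distrib]
  rw [sum_comm]
  apply sum_le_sum
  intro n' _
  apply sum_le_sum
  intro n _
  exact cov_le L l l' n n' hl hL.le

/-- the sum of the covariance bounds for fixed `l` -/
theorem sum_cb_le (L l : ℕ) (hl : l < L) :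
    ∑ l' ∈ Ico l L, ∑ n' ∈ range L, ∑ n ∈ range L, cb l n (l' - l + n')
      ≤ 2048 / ((l : ℝ) + 1) := by
  have h1 : ∑ l' ∈ Ico l L, ∑ n' ∈ range L, ∑ n ∈ range L, cb l n (l' - l + n')
      = ∑ d ∈ range (L - l), ∑ n' ∈ range L, ∑ n ∈ range L, cb l n (d + n') := by
    rw [sum_Ico_eq_sum_range]
    apply sum_congr rfl
    intro d _
    apply sum_congr rfl
    intro n' _
    rw [show l + d - l = d by omega]
  rw [h1]
  refine (double_sum_le (L - l) L (fun r => ∑ n ∈ range L, cb l n r)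
    (fun r => sum_nonneg fun n _ => cb_nonneg _ _ _)).trans ?_
  -- split at l
  have h2 : ∑ r ∈ range (L - l + L), ((r : ℝ) + 1) * ∑ n ∈ range L, cb l n r
      = ∑ r ∈ range l, ((r : ℝ) + 1) * ∑ n ∈ range L, cb l n r
        + ∑ r ∈ Ico l (L - l + L), ((r : ℝ) + 1) * ∑ n ∈ range L, cb l n r := by
    rw [sum_range_add_sum_Ico _ (by omega)]
  rw [h2]
  have hl0 : (0 : ℝ) ≤ l := Nat.cast_nonneg l
  have h3 : ∑ r ∈ range l, ((r : ℝ) + 1) * ∑ n ∈ range L, cb l n r ≤ 512 / ((l : ℝ) + 1) := by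
    calc ∑ r ∈ range l, ((r : ℝ) + 1) * ∑ n ∈ range L, cb l n r
        ≤ ∑ r ∈ range l, 512 / ((l : ℝ) + 1) ^ 2 := by
          apply sum_le_sum
          intro r hr
          rw [mem_range] at hr
          have e1 : ∑ n ∈ range L, cb l n r = rp l * ∑ n ∈ range L, rp (r + n) := by
            rw [mul_sum]
            apply sum_congr rfl
            intro n _
            unfold cb
            rw [if_pos hr, Nat.add_comm n r]
          rw [e1]
          calc ((r : ℝ) + 1) * (rp l * ∑ n ∈ range L, rp (r + n))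
              ≤ ((r : ℝ) + 1) * ((16 / ((l : ℝ) + 1) ^ 2) * (32 / ((r : ℝ) + 1))) := by
                have := rp_nonneg l
                have h5 : 0 ≤ ∑ n ∈ range L, rp (r + n) := sum_nonneg fun n _ => rp_nonneg _
                gcongr
                · exact rp_le l
                · exact sum_rp_le r L
            _ = 512 / ((l : ℝ) + 1) ^ 2 := by field_simp; norm_num
      _ = (l : ℝ) * (512 / ((l : ℝ) + 1) ^ 2) := by
          rw [sum_const, card_range, nsmul_eq_mul]
      _ ≤ ((l : ℝ) + 1) * (512 / ((l : ℝ) + 1) ^ 2) := by gcongr; linarith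
      _ = _ := by field_simp
  have h4 : ∑ r ∈ Ico l (L - l + L), ((r : ℝ) + 1) * ∑ n ∈ range L, cb l n r
      ≤ 1536 / ((l : ℝ) + 1) := by
    calc ∑ r ∈ Ico l (L - l + L), ((r : ℝ) + 1) * ∑ n ∈ range L, cb l n r
        = ∑ r ∈ Ico l (L - l + L), (∑ n ∈ range L, rp (l + n)) * (((r : ℝ) + 1) * (rp r - rp (r + l))) := by
          apply sum_congr rfl
          intro r hr
          rw [mem_Ico] at hr
          have e1 : ∑ n ∈ range L, cb l n r = (∑ n ∈ range L, rp (l + n)) * (rp r - rp (r + l)) := by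
            rw [sum_mul]
            apply sum_congr rfl
            intro n _
            unfold cb
            rw [if_neg (by omega)]
          rw [e1]; ring
      _ = (∑ n ∈ range L, rp (l + n)) * ∑ r ∈ Ico l (L - l + L), (((r : ℝ) + 1) * (rp r - rp (r + l))) := by
          rw [mul_sum]
      _ ≤ (32 / ((l : ℝ) + 1)) * 48 := by
          have h5 : 0 ≤ ∑ r ∈ Ico l (L - l + L), (((r : ℝ) + 1) * (rp r - rp (r + l))) :=
            sum_nonneg fun r _ =>
              mul_nonneg (by positivity) (sub_nonneg.2 (rp_anti (Nat.le_add_right r l)))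
          exact mul_le_mul (sum_rp_le l L) (tele l _) h5 (by positivity)
      _ = _ := by ring
  calc _ ≤ 512 / ((l : ℝ) + 1) + 1536 / ((l : ℝ) + 1) := add_le_add h3 h4
    _ = _ := by ring

theorem sum_sym_le (L : ℕ) (Q B : ℕ → ℕ → ℝ) (hs : ∀ l l', Q l l' = Q l' l)
    (hB : ∀ l l', 0 ≤ B l l') (hQ : ∀ l l', l ≤ l' → l' < L → Q l l' ≤ B l l') :
    ∑ l ∈ range L, ∑ l' ∈ range L, Q l l' ≤ 2 * ∑ l ∈ range L, ∑ l' ∈ Ico l L, B l l' := by
  have h1 : ∀ l ∈ range L, ∀ l' ∈ range L, Q l l'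
      ≤ (if l ≤ l' then B l l' else 0) + (if l' ≤ l then B l' l else 0) := by
    intro l hl l' hl'
    rw [mem_range] at hl hl'
    have a1 := hB l l'
    have a2 := hB l' l
    rcases Nat.lt_trichotomy l l' with h | h | h
    · rw [if_pos h.le, if_neg (by omega)]
      have := hQ l l' h.le hl'
      linarith
    · subst h
      rw [if_pos le_rfl]
      have := hQ l l le_rfl hl
      linarith
    · rw [if_neg (by omega), if_pos h.le, hs]
      have := hQ l' l h.le hl
      linarith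
  have h2 : ∀ l ∈ range L, ∑ l' ∈ range L, (if l ≤ l' then B l l' else 0) = ∑ l' ∈ Ico l L, B l l' := by
    intro l _
    rw [← sum_filter]
    apply sum_congr _ (fun _ _ => rfl)
    ext x
    simp only [mem_filter, mem_range, mem_Ico]
    tauto
  calc ∑ l ∈ range L, ∑ l' ∈ range L, Q l l'
      ≤ ∑ l ∈ range L, ∑ l' ∈ range L,
        ((if l ≤ l' then B l l' else 0) + (if l' ≤ l then B l' l else 0)) :=
        sum_le_sum fun l hl => sum_le_sum fun l' hl' => h1 l hl l' hl'
    _ = ∑ l ∈ range L, ∑ l' ∈ range L, (if l ≤ l' then B l l' else 0)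
        + ∑ l' ∈ range L, ∑ l ∈ range L, (if l' ≤ l then B l' l else 0) := by
        simp only [sum_add_distrib]
        congr 1
        rw [sum_comm]
    _ = _ := by
        rw [sum_congr rfl h2]
        ring

/-- variance bound -/
theorem var_En (L : ℕ) : av (2 * L) (fun u => En L u ^ 2) - mean L ^ 2 ≤ 4096 * HL L := by
  have h1 : av (2 * L) (fun u => En L u ^ 2) = ∑ l ∈ range L, ∑ l' ∈ range L,
      av (2 * L) (fun u => Al L l u * Al L l' u) := by
    have : ∀ u, En L u ^ 2 = ∑ l ∈ range L, ∑ l' ∈ range L, Al L l u * Al L l' u := by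
      intro u
      rw [En_eq, sq, sum_mul_sum]
    simp only [this]
    rw [av_sum]
    apply sum_congr rfl
    intro l _
    rw [av_sum]
  have h2 : mean L ^ 2 = ∑ l ∈ range L, ∑ l' ∈ range L,
      av (2 * L) (Al L l) * av (2 * L) (Al L l') := by
    rw [← sum_mul_sum, ← sq]
    congr 1
    unfold mean
    apply sum_congr rfl
    intro l hl
    rw [av_Al L l (mem_range.1 hl).le]
  rw [h1, h2, ← sum_sub_distrib]
  simp only [← sum_sub_distrib]
  refine (sum_sym_le L _ (fun l l' => ∑ n' ∈ range L, ∑ n ∈ range L, cb l n (l' - l + n'))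
    ?_ ?_ ?_).trans ?_
  · intro l l'
    have : ∀ u, Al L l u * Al L l' u = Al L l' u * Al L l u := fun u => mul_comm _ _
    simp only [this]
    ring
  · intro l l'
    exact sum_nonneg fun n' _ => sum_nonneg fun n _ => cb_nonneg _ _ _
  · intro l l' hl hl'
    exact cov_Al_le L l l' hl hl'
  · unfold HL
    rw [mul_sum, mul_sum]
    apply sum_le_sum
    intro l hl
    have := sum_cb_le L l (mem_range.1 hl)
    calc _ ≤ 2 * (2048 / ((l : ℝ) + 1)) := by gcongr
      _ = _ := by ring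

/-- Chebyshev: the energy is rarely small -/
theorem energy : ∃ c C : ℝ, 0 < c ∧ 0 < C ∧ ∀ L, 1 ≤ L →
    av (2 * L) (fun u => if En L u < c * HL L then (1 : ℝ) else 0) ≤ C / HL L := by
  refine ⟨1 / 64, 4096 * 4096, by norm_num, by norm_num, ?_⟩
  intro L hL
  have hH := HL_pos L hL
  have hM := le_mean L
  set M := mean L with hMdef
  have hM0 : 0 < M := by linarith
  -- pointwise Chebyshev
  have h1 : ∀ u, (if En L u < 1 / 64 * HL L then (1 : ℝ) else 0) ≤ (4 / M ^ 2) * (En L u - M) ^ 2 := by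
    intro u
    split_ifs with h
    · have h2 : M / 2 ≤ M - En L u := by linarith
      have h3 : (M / 2) ^ 2 ≤ (En L u - M) ^ 2 := by nlinarith
      calc (1 : ℝ) = (4 / M ^ 2) * (M / 2) ^ 2 := by field_simp; norm_num
        _ ≤ _ := by gcongr
    · positivity
  refine (av_mono _ h1).trans ?_
  rw [av_mul_left]
  have h4 : av (2 * L) (fun u => (En L u - M) ^ 2) = av (2 * L) (fun u => En L u ^ 2) - M ^ 2 := by
    have : ∀ u, (En L u - M) ^ 2 = En L u ^ 2 - 2 * M * En L u + M ^ 2 := fun u => by ring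
    simp only [this]
    rw [av_add, av_sub, av_mul_left, av_const]
    have h5 : av (2 * L) (fun u => En L u) = M := av_En L
    rw [h5]; ring
  rw [h4]
  have h5 := var_En L
  calc 4 / M ^ 2 * (av (2 * L) (fun u => En L u ^ 2) - M ^ 2) ≤ 4 / M ^ 2 * (4096 * HL L) := by gcongr
    _ ≤ 4 / (HL L / 32) ^ 2 * (4096 * HL L) := by gcongr
    _ = _ := by field_simp; norm_num

/-! ### off-diagonal bound -/

theorem sum_stepVec (i : Fin 4) : ∑ s : Stp, ((stepVec s i : ℤ) : ℝ) = 0 := by
  rw [Fintype.sum_prod_type]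
  simp only [Fintype.sum_bool, stepVec]
  fin_cases i <;> simp [Fin.sum_univ_four, Pi.single_apply]

theorem sum_stepVec_sq (i : Fin 4) : ∑ s : Stp, ((stepVec s i : ℤ) : ℝ) ^ 2 = 2 := by
  rw [Fintype.sum_prod_type]
  simp only [Fintype.sum_bool, stepVec]
  fin_cases i <;> simp [Fin.sum_univ_four, Pi.single_apply] <;> norm_num

theorem av_S_sq (m : ℕ) (i : Fin 4) : av m (fun u => ((S u m i : ℤ) : ℝ) ^ 2) = m / 4 := by
  induction m with
  | zero => simp [av_zero]
  | succ m ih =>
    rw [av_succ]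
    have h1 : ∀ s : Stp, av m (fun u => ((S (cns s u) (m + 1) i : ℤ) : ℝ) ^ 2)
        = ((stepVec s i : ℤ) : ℝ) ^ 2 + 2 * ((stepVec s i : ℤ) : ℝ) * av m (fun u => ((S u m i : ℤ) : ℝ))
          + (m : ℝ) / 4 := by
      intro s
      have : ∀ u, ((S (cns s u) (m + 1) i : ℤ) : ℝ) ^ 2
          = ((stepVec s i : ℤ) : ℝ) ^ 2 + 2 * ((stepVec s i : ℤ) : ℝ) * ((S u m i : ℤ) : ℝ)
            + ((S u m i : ℤ) : ℝ) ^ 2 := by
        intro u
        rw [S_cns]
        have : (stepVec s + S u m) i = stepVec s i + S u m i := rfl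
        rw [this]; push_cast; ring
      simp only [this]
      rw [av_add, av_add, av_const, av_mul_left, ih]
    simp only [h1]
    rw [sum_add_distrib, sum_add_distrib, sum_stepVec_sq, sum_const, card_stp]
    have h2 : ∑ s : Stp, 2 * ((stepVec s i : ℤ) : ℝ) * av m (fun u => ((S u m i : ℤ) : ℝ)) = 0 := by
      rw [← sum_mul, ← mul_sum, sum_stepVec]; ring
    rw [h2]
    push_cast
    simp only [nsmul_eq_mul]
    push_cast
    ring

/-- one half of the off-diagonal estimate -/
theorem offdiag_half (m m' : ℕ) (z : Fin 4 → ℤ) (i : Fin 4) (r : ℕ) (hr : 0 < r) (hm : m ≤ m' + 1) :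
    av m (fun u => av m' (fun v =>
      ind (z + S u m + S v m' = 0 ∧ (r : ℤ) ≤ 2 * |S u m i|))) ≤ 16 / ((r : ℝ) ^ 2 * (m' + 1)) := by
  have hr' : (0 : ℝ) < r := by exact_mod_cast hr
  have h1 : ∀ u : Pth, av m' (fun v => ind (z + S u m + S v m' = 0 ∧ (r : ℤ) ≤ 2 * |S u m i|))
      ≤ (16 / ((m' : ℝ) + 1) ^ 2) * (4 / (r : ℝ) ^ 2 * ((S u m i : ℤ) : ℝ) ^ 2) := by
    intro u
    have h2 : av m' (fun v => ind (z + S u m + S v m' = 0 ∧ (r : ℤ) ≤ 2 * |S u m i|))
        = p m' (z + S u m) * ind ((r : ℤ) ≤ 2 * |S u m i|) := by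
      simp only [ind_and]
      rw [av_mul_right]
      congr 1
      rw [← av_ind]
      apply av_congr
      intro v
      rw [ind_eq_ite]
    rw [h2]
    by_cases h : (r : ℤ) ≤ 2 * |S u m i|
    · rw [ind_of h, mul_one]
      have h3 : (1 : ℝ) ≤ 4 / (r : ℝ) ^ 2 * ((S u m i : ℤ) : ℝ) ^ 2 := by
        have h4 : (r : ℝ) ≤ 2 * |((S u m i : ℤ) : ℝ)| := by exact_mod_cast h
        rw [div_mul_eq_mul_div, le_div_iff₀ (by positivity), one_mul]
        rw [← sq_abs (((S u m i : ℤ) : ℝ))]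
        nlinarith [abs_nonneg (((S u m i : ℤ) : ℝ))]
      calc p m' (z + S u m) ≤ 16 / ((m' : ℝ) + 1) ^ 2 := p_le' _ _
        _ = 16 / ((m' : ℝ) + 1) ^ 2 * 1 := by ring
        _ ≤ _ := by gcongr
    · rw [ind_not h, mul_zero]; positivity
  refine (av_mono _ h1).trans ?_
  rw [av_mul_left, av_mul_left, av_S_sq]
  have hm' : (m : ℝ) ≤ (m' : ℝ) + 1 := by exact_mod_cast hm
  calc 16 / ((m' : ℝ) + 1) ^ 2 * (4 / (r : ℝ) ^ 2 * ((m : ℝ) / 4))
      ≤ 16 / ((m' : ℝ) + 1) ^ 2 * (4 / (r : ℝ) ^ 2 * (((m' : ℝ) + 1) / 4)) := by gcongr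
    _ = _ := by field_simp

theorem p_offdiag : ∃ C : ℝ, 0 < C ∧ ∀ (n : ℕ) (z : Fin 4 → ℤ) (i : Fin 4) (r : ℕ), 0 < r →
    (r : ℤ) ≤ |z i| → p n z ≤ C / ((r : ℝ) ^ 2 * (n + 1)) := by
  refine ⟨64, by norm_num, ?_⟩
  intro n z i r hr hz
  have hr' : (0 : ℝ) < r := by exact_mod_cast hr
  obtain ⟨m, m', hn, h1, h2⟩ : ∃ m m', n = m + m' ∧ m ≤ m' + 1 ∧ m' ≤ m + 1 :=
    ⟨n / 2, n - n / 2, by omega, by omega, by omega⟩
  subst hn
  have h3 : p (m + m') z = av m (fun u => av m' (fun v => ind (z + S u m + S v m' = 0))) := by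
    rw [← av_ind, av_split]
    apply av_congr
    intro u
    apply av_congr
    intro v
    rw [ind_eq_ite]
    simp only [S_app_add, add_assoc]
  have h4 : ∀ u v : Pth, ind (z + S u m + S v m' = 0)
      ≤ ind (z + S u m + S v m' = 0 ∧ (r : ℤ) ≤ 2 * |S u m i|)
        + ind (z + S v m' + S u m = 0 ∧ (r : ℤ) ≤ 2 * |S v m' i|) := by
    intro u v
    refine le_trans (ind_mono ?_) (ind_or_le _ _)
    intro h
    have h5 : z i + S u m i + S v m' i = 0 := by
      have := congrFun h i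
      simpa using this
    have h6 : z + S v m' + S u m = 0 := by rw [← h]; abel
    by_contra hcon
    push Not at hcon
    obtain ⟨h7, h8⟩ := hcon
    have h7' := h7 h
    have h8' := h8 h6
    have h9 : z i = -(S u m i + S v m' i) := by linarith
    rw [h9, abs_neg] at hz
    have := abs_add_le (S u m i) (S v m' i)
    omega
  rw [h3]
  have h5 : av m (fun u => av m' (fun v => ind (z + S u m + S v m' = 0)))
      ≤ av m (fun u => av m' (fun v => ind (z + S u m + S v m' = 0 ∧ (r : ℤ) ≤ 2 * |S u m i|)))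
        + av m (fun u => av m' (fun v => ind (z + S v m' + S u m = 0 ∧ (r : ℤ) ≤ 2 * |S v m' i|))) := by
    rw [← av_add]
    apply av_mono
    intro u
    rw [← av_add]
    exact av_mono _ (h4 u)
  refine h5.trans ?_
  rw [av_comm m m' (fun u v => ind (z + S v m' + S u m = 0 ∧ (r : ℤ) ≤ 2 * |S v m' i|))]
  have h6 := offdiag_half m m' z i r hr h1
  have h7 := offdiag_half m' m z i r hr h2
  refine (add_le_add h6 h7).trans ?_
  have hm1 : (m : ℝ) + m' + 1 ≤ 2 * ((m' : ℝ) + 1) := by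
    have : (m : ℝ) ≤ (m' : ℝ) + 1 := by exact_mod_cast h1
    linarith
  have hm2 : (m : ℝ) + m' + 1 ≤ 2 * ((m : ℝ) + 1) := by
    have : (m' : ℝ) ≤ (m : ℝ) + 1 := by exact_mod_cast h2
    linarith
  have h8 : 16 / ((r : ℝ) ^ 2 * ((m' : ℝ) + 1)) ≤ 32 / ((r : ℝ) ^ 2 * ((m : ℝ) + m' + 1)) := by
    rw [div_le_div_iff₀ (by positivity) (by positivity)]
    have : 0 < (r : ℝ) ^ 2 := by positivity
    nlinarith
  have h9 : 16 / ((r : ℝ) ^ 2 * ((m : ℝ) + 1)) ≤ 32 / ((r : ℝ) ^ 2 * ((m : ℝ) + m' + 1)) := by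
    rw [div_le_div_iff₀ (by positivity) (by positivity)]
    have : 0 < (r : ℝ) ^ 2 := by positivity
    nlinarith
  push_cast
  calc _ ≤ 32 / ((r : ℝ) ^ 2 * ((m : ℝ) + m' + 1)) + 32 / ((r : ℝ) ^ 2 * ((m : ℝ) + m' + 1)) :=
        add_le_add h8 h9
    _ = _ := by ring

end Pool.Agent.Lib.MP_e4a9a7_pr
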