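import Mathlib
import Pool.Agent.Lib.MP_e4a9a7_pr.Conc

/-!
# Probability of collisions under the coupled density
-/

namespace Pool.Agent.Lib.MP_e4a9a7_pr

open Finset

section

variable (K : ℕ) (v₀ : Fin 4 → ℤ)

/-- collision up to the start of block `n` -/
def Col (n : ℕ) (x y : Pth) : Prop :=
  ∃ i, i ≤ tt (bK K) n ∧ ∃ j, j ≤ tt (bK K) n ∧ v₀ + S x i = S y j

/-- the second walk hits the set `Z` up to the start of block `n` -/
def HitY (Z : Finset (Fin 4 → ℤ)) (n : ℕ) (y : Pth) : Prop := ∃ z ∈ Z, ∃ j, j ≤ tt (bK K) n ∧ S y j = z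

/-- the first walk hits the set `Z` up to the start of block `n` -/
def HitX (Z : Finset (Fin 4 → ℤ)) (n : ℕ) (x : Pth) : Prop :=
  ∃ z ∈ Z, ∃ i, i ≤ tt (bK K) n ∧ v₀ + S x i = z

variable {K}

theorem bK_two_mul_le (hK : 1 ≤ K) (m : ℕ) : 2 * bK K m ≤ bK K (m + 1) := by
  unfold bK
  rw [← add_assoc, Tl_succ]
  have : 2 ≤ 16 ^ (2 * (K + m) + 1) := by
    calc 2 ≤ 16 ^ 1 := by norm_num
      _ ≤ 16 ^ (2 * (K + m) + 1) := Nat.pow_le_pow_right (by norm_num) (by omega)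
  calc 2 * Tl (K + m) = Tl (K + m) * 2 := by ring
    _ ≤ _ := Nat.mul_le_mul_left _ this

/-- decomposition of a new collision -/
theorem new_col (m : ℕ) (x y : Pth) (h : Col K v₀ (m + 2) x y) :
    Col K v₀ (m + 1) x y ∨
    core (bK K m) (bK K (m + 1) - bK K m)
      (v₀ + S x (tt (bK K) (m + 1)) - S y (tt (bK K) (m + 1)))
      (sh (tt (bK K) (m + 1)) x) (sh (tt (bK K) (m + 1)) y) ∨
    (∃ i, i ≤ 2 * bK K m ∧ ∃ j ∈ Icc (bK K m) (bK K m + bK K (m + 1)),
      (v₀ + S x (tt (bK K) m) - S y (tt (bK K) m)) + S (sh (tt (bK K) m) x) i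
        = S (sh (tt (bK K) m) y) j) ∨
    (∃ j, j ≤ 2 * bK K m ∧ ∃ i ∈ Icc (bK K m) (bK K m + bK K (m + 1)),
      (-(v₀ + S x (tt (bK K) m) - S y (tt (bK K) m))) + S (sh (tt (bK K) m) y) j
        = S (sh (tt (bK K) m) x) i) ∨
    (∃ z ∈ (range (tt (bK K) m + 1)).image (fun i => v₀ + S x i),
      ∃ j ∈ Icc (bK K m) (bK K m + bK K (m + 1)), S y (tt (bK K) m) + S (sh (tt (bK K) m) y) j = z) ∨
    (∃ z ∈ (range (tt (bK K) m + 1)).image (fun j => S y j),
      ∃ i ∈ Icc (bK K m) (bK K m + bK K (m + 1)),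
        (v₀ + S x (tt (bK K) m)) + S (sh (tt (bK K) m) x) i = z) := by
  obtain ⟨i, hi, j, hj, hij⟩ := h
  have ht1 : tt (bK K) (m + 1) = tt (bK K) m + bK K m := tt_succ _ _
  have ht2 : tt (bK K) (m + 2) = tt (bK K) m + bK K m + bK K (m + 1) := by
    rw [tt_succ, tt_succ]
  have hc : bK K m ≤ bK K (m + 1) := Tl_mono (by omega)
  set t := tt (bK K) m with ht
  set c := bK K m with hcdef
  set T' := bK K (m + 1) with hT'
  rw [ht2] at hi hj
  rw [ht1]
  by_cases h1 : i ≤ t + c ∧ j ≤ t + c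
  · left
    exact ⟨i, by rw [ht1]; exact h1.1, j, by rw [ht1]; exact h1.2, hij⟩
  right
  by_cases h2 : t + c + c ≤ i ∧ t + c + c ≤ j
  · left
    obtain ⟨i', hi'⟩ := Nat.exists_eq_add_of_le (show t + c ≤ i by omega)
    obtain ⟨j', hj'⟩ := Nat.exists_eq_add_of_le (show t + c ≤ j by omega)
    refine ⟨i', by omega, by omega, j', mem_Icc.2 ⟨by omega, by omega⟩, ?_⟩
    rw [hi', hj', S_add, S_add y] at hij
    have : v₀ + S x (t + c) - S y (t + c) + S (sh (t + c) x) i'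
        = (v₀ + (S x (t + c) + S (sh (t + c) x) i')) - S y (t + c) := by abel
    rw [this, hij]; abel
  right
  by_cases h3 : i < t + c + c ∧ t + c ≤ j
  · -- i early, j late
    obtain ⟨j', hj'⟩ := Nat.exists_eq_add_of_le (show t ≤ j by omega)
    by_cases h4 : t ≤ i
    · left
      obtain ⟨i', hi'⟩ := Nat.exists_eq_add_of_le h4
      refine ⟨i', by omega, j', mem_Icc.2 ⟨by omega, by omega⟩, ?_⟩
      rw [hi', hj', S_add, S_add y] at hij
      have : v₀ + S x t - S y t + S (sh t x) i' = (v₀ + (S x t + S (sh t x) i')) - S y t := by abel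
      rw [this, hij]; abel
    · right; right; left
      refine ⟨v₀ + S x i, mem_image.2 ⟨i, mem_range.2 (by omega), rfl⟩, j',
        mem_Icc.2 ⟨by omega, by omega⟩, ?_⟩
      rw [hj', S_add] at hij
      exact hij.symm
  · -- j early, i late
    have h5 : j < t + c + c ∧ t + c ≤ i := by omega
    obtain ⟨i', hi'⟩ := Nat.exists_eq_add_of_le (show t ≤ i by omega)
    by_cases h4 : t ≤ j
    · right; left
      obtain ⟨j', hj'⟩ := Nat.exists_eq_add_of_le h4
      refine ⟨j', by omega, i', mem_Icc.2 ⟨by omega, by omega⟩, ?_⟩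
      rw [hi', hj', S_add, S_add y] at hij
      have : -(v₀ + S x t - S y t) + S (sh t y) j' = (S y t + S (sh t y) j') - v₀ - S x t := by abel
      rw [this, ← hij]; abel
    · right; right; right
      refine ⟨S y j, mem_image.2 ⟨j, mem_range.2 (by omega), rfl⟩, i',
        mem_Icc.2 ⟨by omega, by omega⟩, ?_⟩
      rw [hi', S_add] at hij
      rw [← hij]; abel

theorem adj_av (c T : ℕ) (hcT : c ≤ T) (v : Fin 4 → ℤ) :
    av (c + T) (fun x => av (c + T) (fun y =>
      ind (∃ i, i ≤ 2 * c ∧ ∃ j ∈ Icc c (c + T), v + S x i = S y j))) = adj c T v := by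
  unfold adj
  apply av_dep_le _ (by omega)
  intro x x' h
  apply av_congr; intro y
  apply ind_congr
  constructor
  · rintro ⟨i, h1, j, hj, h3⟩
    refine ⟨i, h1, j, hj, ?_⟩
    rw [← S_congr (fun k hk => h k (by omega))]; exact h3
  · rintro ⟨i, h1, j, hj, h3⟩
    refine ⟨i, h1, j, hj, ?_⟩
    rw [S_congr (fun k hk => h k (by omega))]; exact h3

theorem col_step (hK : 1 ≤ K) (C : ℝ)
    (hC : ∀ k : ℕ, 1 ≤ k → ∀ v : Fin 4 → ℤ,
      av (Tl (k + 1)) (fun y => hh (Tl k) (Tl (k + 1) - Tl k) v y ^ 2) ≤ C / (k : ℝ) ^ 2 ∧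
      adj (Tl k) (Tl (k + 1)) v ≤ C / (k : ℝ) ^ 2) (m : ℕ) :
    Qn (bK K) (wK K) v₀ (m + 2) (fun x y => ind (Col K v₀ (m + 2) x y))
      ≤ Qn (bK K) (wK K) v₀ (m + 1) (fun x y => ind (Col K v₀ (m + 1) x y))
        + (9 * (C / ((K + m : ℕ) : ℝ) ^ 2)
          + 8 * (((tt (bK K) m : ℝ) + 1) * (32 / ((bK K m : ℝ) + 1)))) := by
  have hBW := bwK K hK C (fun k hk v => (hC k hk v).1)
  set b := bK K with hb
  set w := wK K with hw
  have hcT : b m ≤ b (m + 1) := Tl_mono (by omega)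
  -- the five kinds of new collisions
  set N1 : Pth → Pth → ℝ := fun x y => ind (core (b m) (b (m + 1) - b m)
      (v₀ + S x (tt b (m + 1)) - S y (tt b (m + 1))) (sh (tt b (m + 1)) x) (sh (tt b (m + 1)) y)) with hN1
  set N2 : Pth → Pth → ℝ := fun x y => ind (∃ i, i ≤ 2 * b m ∧ ∃ j ∈ Icc (b m) (b m + b (m + 1)),
      (v₀ + S x (tt b m) - S y (tt b m)) + S (sh (tt b m) x) i = S (sh (tt b m) y) j) with hN2
  set N3 : Pth → Pth → ℝ := fun x y => ind (∃ j, j ≤ 2 * b m ∧ ∃ i ∈ Icc (b m) (b m + b (m + 1)),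
      (-(v₀ + S x (tt b m) - S y (tt b m))) + S (sh (tt b m) y) j = S (sh (tt b m) x) i) with hN3
  set N4 : Pth → Pth → ℝ := fun x y => ind (∃ z ∈ (range (tt b m + 1)).image (fun i => v₀ + S x i),
      ∃ j ∈ Icc (b m) (b m + b (m + 1)), S y (tt b m) + S (sh (tt b m) y) j = z) with hN4
  set N5 : Pth → Pth → ℝ := fun x y => ind (∃ z ∈ (range (tt b m + 1)).image (fun j => S y j),
      ∃ i ∈ Icc (b m) (b m + b (m + 1)), (v₀ + S x (tt b m)) + S (sh (tt b m) x) i = z) with hN5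
  have h0 : ∀ x y, ind (Col K v₀ (m + 2) x y) ≤ ind (Col K v₀ (m + 1) x y)
      + (N1 x y + (N2 x y + (N3 x y + (N4 x y + N5 x y)))) := by
    intro x y
    refine (ind_mono (new_col v₀ m x y)).trans ?_
    refine (ind_or_le _ _).trans (add_le_add le_rfl ?_)
    refine (ind_or_le _ _).trans (add_le_add le_rfl ?_)
    refine (ind_or_le _ _).trans (add_le_add le_rfl ?_)
    refine (ind_or_le _ _).trans (add_le_add le_rfl ?_)
    exact ind_or_le _ _
  refine (Qn_mono v₀ hBW (m + 2) h0).trans ?_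
  rw [Qn_add v₀, Qn_add v₀, Qn_add v₀, Qn_add v₀, Qn_add v₀]
  -- stability of the old part
  have hstab : Qn b w v₀ (m + 2) (fun x y => ind (Col K v₀ (m + 1) x y))
      = Qn b w v₀ (m + 1) (fun x y => ind (Col K v₀ (m + 1) x y)) := by
    apply Qn_stable v₀ hBW
    intro x x' y y'
    apply ind_congr
    unfold Col
    constructor
    · rintro ⟨i, hi, j, hj, hij⟩
      refine ⟨i, hi, j, hj, ?_⟩
      rw [S_app_le hi, S_app_le hj] at hij; exact hij
    · rintro ⟨i, hi, j, hj, hij⟩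
      refine ⟨i, hi, j, hj, ?_⟩
      rw [S_app_le hi, S_app_le hj]; exact hij
  have e1 : b m + (b (m + 1) - b m) = b (m + 1) := by omega
  have hbm : b m = Tl (K + m) := rfl
  have hbm1 : b (m + 1) = Tl (K + m + 1) := rfl
  have hQ1 : Qn b w v₀ (m + 2) N1 ≤ C / ((K + m : ℕ) : ℝ) ^ 2 := by
    apply Qn_crude1 v₀ hBW (m + 1)
    intro x y
    simp only [hN1, sh_app, S_app_le (le_refl (tt b (m + 1)))]
    have h2 : w (m + 1) = fun v x y => rw1 (b m) (b (m + 1) - b m) v x y := rfl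
    simp only [h2]
    have h3 := rw1_core (b m) (b (m + 1) - b m) (v₀ + S x (tt b (m + 1)) - S y (tt b (m + 1)))
    rw [e1] at h3
    rw [h3]
    exact (hC (K + m) (by omega) _).1
  have hQ2 : Qn b w v₀ (m + 2) N2 ≤ 4 * (C / ((K + m : ℕ) : ℝ) ^ 2) := by
    apply Qn_crude2 v₀ hBW m _ (fun x y => ind_nonneg _)
    intro x y
    simp only [sh_app, S_app_le (le_refl (tt b m))]
    rw [adj_av (b m) (b (m + 1)) hcT]
    exact (hC (K + m) (by omega) _).2
  have hQ3 : Qn b w v₀ (m + 2) N3 ≤ 4 * (C / ((K + m : ℕ) : ℝ) ^ 2) := by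
    apply Qn_crude2 v₀ hBW m _ (fun x y => ind_nonneg _)
    intro x y
    simp only [sh_app, S_app_le (le_refl (tt b m))]
    rw [av_comm, adj_av (b m) (b (m + 1)) hcT]
    exact (hC (K + m) (by omega) _).2
  have hQ4 : Qn b w v₀ (m + 2) N4 ≤ 4 * (((tt b m : ℝ) + 1) * (32 / ((b m : ℝ) + 1))) := by
    apply Qn_crude2 v₀ hBW m _ (fun x y => ind_nonneg _)
    intro x y
    simp only [hN4, sh_app, S_app_le (le_refl (tt b m))]
    have h2 : ∀ x' : Pth, (range (tt b m + 1)).image (fun i => v₀ + S (app (tt b m) x x') i)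
        = (range (tt b m + 1)).image (fun i => v₀ + S x i) := by
      intro x'
      apply image_congr
      intro i hi
      rw [mem_coe, mem_range] at hi
      change v₀ + S (app (tt b m) x x') i = v₀ + S x i
      rw [S_app_le (by omega)]
    simp only [h2, av_const]
    refine (hit_set _ (b m) (b (m + 1)) (S y (tt b m))).trans ?_
    apply mul_le_mul_of_nonneg_right _ (by positivity)
    have := card_image_le (s := range (tt b m + 1)) (f := fun i => v₀ + S x i)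
    rw [card_range] at this
    exact_mod_cast this
  have hQ5 : Qn b w v₀ (m + 2) N5 ≤ 4 * (((tt b m : ℝ) + 1) * (32 / ((b m : ℝ) + 1))) := by
    apply Qn_crude2 v₀ hBW m _ (fun x y => ind_nonneg _)
    intro x y
    simp only [hN5, sh_app, S_app_le (le_refl (tt b m))]
    have h2 : ∀ y' : Pth, (range (tt b m + 1)).image (fun i => S (app (tt b m) y y') i)
        = (range (tt b m + 1)).image (fun i => S y i) := by
      intro x'
      apply image_congr
      intro i hi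
      rw [mem_coe, mem_range] at hi
      change S (app (tt b m) y x') i = S y i
      rw [S_app_le (by omega)]
    simp only [h2]
    rw [av_comm]
    simp only [av_const]
    refine (hit_set _ (b m) (b (m + 1)) (v₀ + S x (tt b m))).trans ?_
    apply mul_le_mul_of_nonneg_right _ (by positivity)
    have := card_image_le (s := range (tt b m + 1)) (f := fun i => S y i)
    rw [card_range] at this
    exact_mod_cast this
  rw [hstab]
  linarith

theorem hitY_step (hK : 1 ≤ K) (C : ℝ)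
    (hC : ∀ k : ℕ, 1 ≤ k → ∀ v : Fin 4 → ℤ,
      av (Tl (k + 1)) (fun y => hh (Tl k) (Tl (k + 1) - Tl k) v y ^ 2) ≤ C / (k : ℝ) ^ 2)
    (Z : Finset (Fin 4 → ℤ)) (m : ℕ) :
    Qn (bK K) (wK K) v₀ (m + 2) (fun _ y => ind (HitY K Z (m + 2) y))
      ≤ Qn (bK K) (wK K) v₀ (m + 1) (fun _ y => ind (HitY K Z (m + 1) y))
        + 4 * (Z.card * (32 / ((bK K m : ℝ) + 1))) := by
  have hBW := bwK K hK C hC
  set b := bK K with hb
  set w := wK K with hw
  set N : Pth → Pth → ℝ := fun _ y => ind (∃ z ∈ Z,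
      ∃ j ∈ Icc (b m) (b m + b (m + 1)), S y (tt b m) + S (sh (tt b m) y) j = z) with hN
  have ht1 : tt b (m + 1) = tt b m + b m := tt_succ _ _
  have ht2 : tt b (m + 2) = tt b m + b m + b (m + 1) := by rw [tt_succ, tt_succ]
  have h0 : ∀ x y : Pth, ind (HitY K Z (m + 2) y) ≤ ind (HitY K Z (m + 1) y) + N x y := by
    intro x y
    refine le_trans (ind_mono ?_) (ind_or_le _ _)
    rintro ⟨z, hz, j, hj, hjz⟩
    rw [ht2] at hj
    by_cases h1 : j ≤ tt b (m + 1)
    · left; exact ⟨z, hz, j, h1, hjz⟩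
    · right
      rw [ht1] at h1
      obtain ⟨j', hj'⟩ := Nat.exists_eq_add_of_le (show tt b m ≤ j by omega)
      refine ⟨z, hz, j', mem_Icc.2 ⟨by omega, by omega⟩, ?_⟩
      rw [hj', S_add] at hjz
      exact hjz
  refine (Qn_mono v₀ hBW (m + 2) h0).trans ?_
  rw [Qn_add v₀]
  have hstab : Qn b w v₀ (m + 2) (fun _ y => ind (HitY K Z (m + 1) y))
      = Qn b w v₀ (m + 1) (fun _ y => ind (HitY K Z (m + 1) y)) := by
    apply Qn_stable v₀ hBW
    intro x x' y y'
    apply ind_congr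
    unfold HitY
    constructor
    · rintro ⟨z, hz, j, hj, hjz⟩
      refine ⟨z, hz, j, hj, ?_⟩
      rw [S_app_le hj] at hjz; exact hjz
    · rintro ⟨z, hz, j, hj, hjz⟩
      refine ⟨z, hz, j, hj, ?_⟩
      rw [S_app_le hj]; exact hjz
  rw [hstab]
  apply add_le_add le_rfl
  apply Qn_crude2 v₀ hBW m _ (fun x y => ind_nonneg _)
  intro x y
  simp only [hN, sh_app, S_app_le (le_refl (tt b m)), av_const]
  exact hit_set Z (b m) (b (m + 1)) (S y (tt b m))

theorem hitX_step (hK : 1 ≤ K) (C : ℝ)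
    (hC : ∀ k : ℕ, 1 ≤ k → ∀ v : Fin 4 → ℤ,
      av (Tl (k + 1)) (fun y => hh (Tl k) (Tl (k + 1) - Tl k) v y ^ 2) ≤ C / (k : ℝ) ^ 2)
    (Z : Finset (Fin 4 → ℤ)) (m : ℕ) :
    Qn (bK K) (wK K) v₀ (m + 2) (fun x _ => ind (HitX K v₀ Z (m + 2) x))
      ≤ Qn (bK K) (wK K) v₀ (m + 1) (fun x _ => ind (HitX K v₀ Z (m + 1) x))
        + 4 * (Z.card * (32 / ((bK K m : ℝ) + 1))) := by
  have hBW := bwK K hK C hC
  set b := bK K with hb
  set w := wK K with hw
  set N : Pth → Pth → ℝ := fun x _ => ind (∃ z ∈ Z,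
      ∃ j ∈ Icc (b m) (b m + b (m + 1)), (v₀ + S x (tt b m)) + S (sh (tt b m) x) j = z) with hN
  have ht1 : tt b (m + 1) = tt b m + b m := tt_succ _ _
  have ht2 : tt b (m + 2) = tt b m + b m + b (m + 1) := by rw [tt_succ, tt_succ]
  have h0 : ∀ x y : Pth, ind (HitX K v₀ Z (m + 2) x) ≤ ind (HitX K v₀ Z (m + 1) x) + N x y := by
    intro x y
    refine le_trans (ind_mono ?_) (ind_or_le _ _)
    rintro ⟨z, hz, j, hj, hjz⟩
    rw [ht2] at hj
    by_cases h1 : j ≤ tt b (m + 1)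
    · left; exact ⟨z, hz, j, h1, hjz⟩
    · right
      rw [ht1] at h1
      obtain ⟨j', hj'⟩ := Nat.exists_eq_add_of_le (show tt b m ≤ j by omega)
      refine ⟨z, hz, j', mem_Icc.2 ⟨by omega, by omega⟩, ?_⟩
      rw [hj', S_add] at hjz
      rw [← hjz]; abel
  refine (Qn_mono v₀ hBW (m + 2) h0).trans ?_
  rw [Qn_add v₀]
  have hstab : Qn b w v₀ (m + 2) (fun x _ => ind (HitX K v₀ Z (m + 1) x))
      = Qn b w v₀ (m + 1) (fun x _ => ind (HitX K v₀ Z (m + 1) x)) := by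
    apply Qn_stable v₀ hBW
    intro x x' y y'
    apply ind_congr
    unfold HitX
    constructor
    · rintro ⟨z, hz, j, hj, hjz⟩
      refine ⟨z, hz, j, hj, ?_⟩
      rw [S_app_le hj] at hjz; exact hjz
    · rintro ⟨z, hz, j, hj, hjz⟩
      refine ⟨z, hz, j, hj, ?_⟩
      rw [S_app_le hj]; exact hjz
  rw [hstab]
  apply add_le_add le_rfl
  apply Qn_crude2 v₀ hBW m _ (fun x y => ind_nonneg _)
  intro x y
  rw [av_comm]
  simp only [hN, sh_app, S_app_le (le_refl (tt b m)), av_const]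
  exact hit_set Z (b m) (b (m + 1)) (v₀ + S x (tt b m))

end

end Pool.Agent.Lib.MP_e4a9a7_pr
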