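import Mathlib
import Pool.Agent.Lib.MP_e4a9a7_pr.Fail

/-!
# Total collision probability
-/

namespace Pool.Agent.Lib.MP_e4a9a7_pr

open Finset

theorem green_far (C' : ℝ) (hC' : 0 < C')
    (hoff : ∀ (n : ℕ) (z : Fin 4 → ℤ) (i : Fin 4) (r : ℕ), 0 < r → (r : ℤ) ≤ |z i| →
      p n z ≤ C' / ((r : ℝ) ^ 2 * (n + 1)))
    (K : ℕ) (z : Fin 4 → ℤ) (i : Fin 4) (hz : (Tl K : ℤ) ≤ |z i|) (N : ℕ) :
    ∑ n ∈ range N, p n z ≤ (C' + 32) / ((4 : ℝ) ^ (K ^ 2)) ^ 3 := by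
  set R := (4 ^ (K ^ 2)) ^ 3 with hR
  have hr : Tl K = (4 ^ (K ^ 2)) ^ 2 := by
    unfold Tl; rw [← pow_mul, mul_comm, pow_mul]; norm_num
  set q : ℝ := (4 : ℝ) ^ (K ^ 2) with hq
  have hq0 : 0 < q := by positivity
  have hrq : (Tl K : ℝ) = q ^ 2 := by rw [hr]; push_cast; rfl
  have hRq : (R : ℝ) = q ^ 3 := by rw [hR]; push_cast; rfl
  have h1 : ∑ n ∈ range N, p n z ≤ ∑ n ∈ range (R + N), p n z := by
    apply sum_le_sum_of_subset_of_nonneg (range_subset_range.2 (by omega))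
    intro n _ _; exact p_nonneg _ _
  rw [sum_range_add] at h1
  refine h1.trans ?_
  have h2 : ∑ n ∈ range R, p n z ≤ C' / q ^ 3 := by
    have h3 : ∀ n ∈ range R, p n z ≤ C' / (q ^ 2) ^ 3 := by
      intro n _
      by_cases hn : n < Tl K
      · rw [p_eq_zero_of_lt n z i (lt_of_lt_of_le (by exact_mod_cast hn) hz)]; positivity
      · refine (hoff n z i (Tl K) (Tl_pos K) hz).trans ?_
        rw [hrq]
        apply div_le_div_of_nonneg_left hC'.le (by positivity)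
        have : (Tl K : ℝ) ≤ n := by exact_mod_cast (not_lt.1 hn)
        rw [hrq] at this
        calc (q ^ 2) ^ 3 = (q ^ 2) ^ 2 * q ^ 2 := by ring
          _ ≤ (q ^ 2) ^ 2 * ((n : ℝ) + 1) := by gcongr; linarith
    refine (sum_le_sum h3).trans ?_
    rw [sum_const, card_range, nsmul_eq_mul, hRq]
    apply le_of_eq
    field_simp
  have h4 : ∑ n ∈ range N, p (R + n) z ≤ 32 / q ^ 3 := by
    have h5 : ∀ n ∈ range N, p (R + n) z ≤ 16 * (1 / ((n : ℝ) + R + 1) ^ 2) := by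
      intro n _
      refine (p_le' _ _).trans (le_of_eq ?_)
      push_cast; ring
    refine (sum_le_sum h5).trans ?_
    rw [← mul_sum]
    calc _ ≤ 16 * (2 / ((R : ℝ) + 1)) := by
          gcongr; exact sum_inv_sq R N
      _ = 32 / ((R : ℝ) + 1) := by ring
      _ ≤ 32 / q ^ 3 := by
          apply div_le_div_of_nonneg_left (by norm_num) (by positivity)
          rw [hRq]; linarith
  rw [add_div]
  exact add_le_add h2 h4

theorem hitY_two (K : ℕ) (v₀ : Fin 4 → ℤ) (hK : 1 ≤ K) (C : ℝ)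
    (hC : ∀ k : ℕ, 1 ≤ k → ∀ v : Fin 4 → ℤ,
      av (Tl (k + 1)) (fun y => hh (Tl k) (Tl (k + 1) - Tl k) v y ^ 2) ≤ C / (k : ℝ) ^ 2)
    (Z : Finset (Fin 4 → ℤ)) :
    Qn (bK K) (wK K) v₀ 2 (fun _ y => ind (HitY K Z 2 y))
      ≤ 4 * ∑ z ∈ Z, ∑ j ∈ range (tt (bK K) 2 + 1), p j z := by
  have hBW := bwK K hK C hC
  apply Qn_crude2 v₀ hBW 0 _ (fun x y => ind_nonneg _)
  intro x y
  simp only [tt_zero, app_zero, av_const]
  have h1 : ∀ y' : Pth, ind (HitY K Z 2 y')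
      ≤ ∑ z ∈ Z, ∑ j ∈ range (tt (bK K) 2 + 1), ind ((0 : Fin 4 → ℤ) + S y' j = z) := by
    intro y'
    unfold HitY
    refine (ind_exists_le Z _).trans ?_
    apply sum_le_sum; intro z _
    refine le_trans (ind_mono ?_) (ind_exists_le (range (tt (bK K) 2 + 1)) _)
    rintro ⟨j, hj, hjz⟩
    exact ⟨j, mem_range.2 (by omega), by rw [zero_add]; exact hjz⟩
  refine (av_mono _ h1).trans ?_
  rw [av_sum]
  apply sum_le_sum; intro z _
  rw [av_sum]
  apply sum_le_sum; intro j hj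
  rw [mem_range] at hj
  have ht : tt (bK K) 2 = bK K 0 + bK K (0 + 1) := by
    rw [tt_succ, tt_succ, tt_zero]; ring
  rw [av_hit_point (by omega), zero_sub, p_neg]

theorem hitX_two (K : ℕ) (v₀ : Fin 4 → ℤ) (hK : 1 ≤ K) (C : ℝ)
    (hC : ∀ k : ℕ, 1 ≤ k → ∀ v : Fin 4 → ℤ,
      av (Tl (k + 1)) (fun y => hh (Tl k) (Tl (k + 1) - Tl k) v y ^ 2) ≤ C / (k : ℝ) ^ 2)
    (Z : Finset (Fin 4 → ℤ)) :
    Qn (bK K) (wK K) v₀ 2 (fun x _ => ind (HitX K v₀ Z 2 x))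
      ≤ 4 * ∑ z ∈ Z, ∑ j ∈ range (tt (bK K) 2 + 1), p j (v₀ - z) := by
  have hBW := bwK K hK C hC
  apply Qn_crude2 v₀ hBW 0 _ (fun x y => ind_nonneg _)
  intro x y
  rw [av_comm]
  simp only [tt_zero, app_zero, av_const]
  have h1 : ∀ x' : Pth, ind (HitX K v₀ Z 2 x')
      ≤ ∑ z ∈ Z, ∑ j ∈ range (tt (bK K) 2 + 1), ind (v₀ + S x' j = z) := by
    intro x'
    unfold HitX
    refine (ind_exists_le Z _).trans ?_
    apply sum_le_sum; intro z _
    refine le_trans (ind_mono ?_) (ind_exists_le (range (tt (bK K) 2 + 1)) _)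
    rintro ⟨j, hj, hjz⟩
    exact ⟨j, mem_range.2 (by omega), hjz⟩
  refine (av_mono _ h1).trans ?_
  rw [av_sum]
  apply sum_le_sum; intro z _
  rw [av_sum]
  apply sum_le_sum; intro j hj
  rw [mem_range] at hj
  have ht : tt (bK K) 2 = bK K 0 + bK K (0 + 1) := by
    rw [tt_succ, tt_succ, tt_zero]; ring
  rw [av_hit_point (by omega)]

theorem col_one (K : ℕ) (v₀ : Fin 4 → ℤ) (i : Fin 4) (hv : 2 * (Tl K : ℤ) < |v₀ i|) :
    Qn (bK K) (wK K) v₀ 1 (fun x y => ind (Col K v₀ 1 x y)) = 0 := by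
  unfold Qn
  have h1 : ∀ x y : Pth, WW (bK K) (wK K) v₀ 1 x y * ind (Col K v₀ 1 x y) = 0 := by
    intro x y
    rw [ind_not, mul_zero]
    rintro ⟨a, ha, b, hb, hab⟩
    have ht : tt (bK K) 1 = Tl K := by rw [tt_succ, tt_zero]; simp [bK]
    rw [ht] at ha hb
    have h2 := congrFun hab i
    simp only [Pi.add_apply] at h2
    have h3 := abs_S_le x a i
    have h4 := abs_S_le y b i
    have h5 : v₀ i = S y b i - S x a i := by linarith
    have h6 : |v₀ i| ≤ |S y b i| + |S x a i| := by rw [h5]; exact abs_sub _ _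
    have h7 : ((a : ℤ)) ≤ Tl K := by exact_mod_cast ha
    have h8 : ((b : ℤ)) ≤ Tl K := by exact_mod_cast hb
    linarith
  simp only [h1, av_const]

theorem tt_ratio (K : ℕ) (hK : 1 ≤ K) (m : ℕ) :
    (tt (bK K) m + 1) * (K + m) ^ 2 ≤ 2 * (bK K m + 1) := by
  have hsq : ∀ q : ℕ, (q + 1) ^ 2 ≤ 16 ^ (2 * q + 1) := by
    intro q
    have h1 : q + 1 ≤ 2 ^ (q + 1) := Nat.lt_two_pow_self.le
    calc (q + 1) ^ 2 ≤ (2 ^ (q + 1)) ^ 2 := Nat.pow_le_pow_left h1 2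
      _ = 4 ^ (q + 1) := by rw [← pow_mul, mul_comm, pow_mul]; norm_num
      _ ≤ 16 ^ (q + 1) := Nat.pow_le_pow_left (by norm_num) _
      _ ≤ 16 ^ (2 * q + 1) := Nat.pow_le_pow_right (by norm_num) (by omega)
  rcases m with _ | m
  · rw [tt_zero]
    have h1 : K ^ 2 ≤ Tl K := by
      unfold Tl
      exact (Nat.lt_pow_self (by norm_num : 1 < 16)).le
    unfold bK
    simp only [add_zero, zero_add, one_mul]
    omega
  · have h1 : ∀ m, tt (bK K) (m + 1) + 1 ≤ 2 * bK K m := by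
      intro m
      induction m with
      | zero =>
        rw [tt_succ, tt_zero]
        have := Tl_pos (K + 0)
        unfold bK
        omega
      | succ m ih =>
        rw [tt_succ]
        have := bK_two_mul_le hK m
        omega
    have h2 : bK K (m + 1) = bK K m * 16 ^ (2 * (K + m) + 1) := by
      unfold bK
      rw [← add_assoc, Tl_succ]
    have h3 := hsq (K + m)
    calc (tt (bK K) (m + 1) + 1) * (K + (m + 1)) ^ 2
        ≤ (2 * bK K m) * 16 ^ (2 * (K + m) + 1) := by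
          apply Nat.mul_le_mul (h1 m)
          rw [← add_assoc]; exact h3
      _ = 2 * bK K (m + 1) := by rw [h2]; ring
      _ ≤ _ := by omega

theorem ratio_real (K : ℕ) (hK : 1 ≤ K) (m : ℕ) :
    ((tt (bK K) m : ℝ) + 1) * (32 / ((bK K m : ℝ) + 1)) ≤ 64 / ((K + m : ℕ) : ℝ) ^ 2 := by
  have h := tt_ratio K hK m
  have h' : ((tt (bK K) m : ℝ) + 1) * ((K + m : ℕ) : ℝ) ^ 2 ≤ 2 * ((bK K m : ℝ) + 1) := by
    exact_mod_cast h
  have hKm : (0 : ℝ) < ((K + m : ℕ) : ℝ) := by exact_mod_cast (by omega : 0 < K + m)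
  rw [mul_div_assoc', div_le_div_iff₀ (by positivity) (by positivity)]
  linarith

theorem sum_K (K' m : ℕ) : ∑ j ∈ range m, 1 / (((K' + 1 + j : ℕ) : ℝ)) ^ 2 ≤ 2 / (((K' + 1 : ℕ) : ℝ)) := by
  have := sum_inv_sq K' m
  push_cast at this ⊢
  refine le_trans (le_of_eq ?_) this
  apply sum_congr rfl; intro j _
  ring

theorem total_fail (C C' : ℝ) (hCpos : 0 < C) (hC' : 0 < C')
    (hoff : ∀ (n : ℕ) (z : Fin 4 → ℤ) (i : Fin 4) (r : ℕ), 0 < r → (r : ℤ) ≤ |z i| →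
      p n z ≤ C' / ((r : ℝ) ^ 2 * (n + 1)))
    (hC : ∀ k : ℕ, 1 ≤ k → ∀ v : Fin 4 → ℤ,
      av (Tl (k + 1)) (fun y => hh (Tl k) (Tl (k + 1) - Tl k) v y ^ 2) ≤ C / (k : ℝ) ^ 2 ∧
      adj (Tl k) (Tl (k + 1)) v ≤ C / (k : ℝ) ^ 2) :
    ∃ K : ℕ, 1 ≤ K ∧ ∀ (v₀ : Fin 4 → ℤ) (i : Fin 4) (ZX ZY : Finset (Fin 4 → ℤ)),
      2 * (Tl K : ℤ) < |v₀ i| → ZX.card ≤ Tl K + 1 → ZY.card ≤ Tl K + 1 →
      (∀ z ∈ ZX, (Tl K : ℤ) ≤ |z i|) → (∀ z ∈ ZY, (Tl K : ℤ) ≤ |(v₀ - z) i|) →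
      ∀ m : ℕ, Qn (bK K) (wK K) v₀ (m + 2) (fun x y =>
        ind (Col K v₀ (m + 2) x y ∨ HitY K ZX (m + 2) y ∨ HitX K v₀ ZY (m + 2) x)) ≤ 1 / 2 := by
  set D := 2 * (9 * C + 512) + 2 * (512 + 8 * (C' + 32)) with hD
  obtain ⟨K', hK'⟩ := exists_nat_ge (2 * D)
  refine ⟨K' + 1, by omega, ?_⟩
  intro v₀ i ZX ZY hv hZX hZY hzX hzY m
  have hDpos : 0 < D := by positivity
  set K := K' + 1 with hK
  have hK1 : 1 ≤ K := by omega
  have hKr : (0 : ℝ) < (K : ℝ) := by exact_mod_cast hK1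
  have hBW := bwK K hK1 C (fun k hk v => (hC k hk v).1)
  -- collisions
  have hcol : ∀ m, Qn (bK K) (wK K) v₀ (m + 1) (fun x y => ind (Col K v₀ (m + 1) x y))
      ≤ ∑ j ∈ range m, (9 * C + 512) * (1 / ((K + j : ℕ) : ℝ) ^ 2) := by
    intro m
    induction m with
    | zero => simp only [range_zero, sum_empty]; exact (col_one K v₀ i hv).le
    | succ m ih =>
      rw [sum_range_succ]
      refine (col_step v₀ hK1 C hC m).trans ?_
      have := ratio_real K hK1 m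
      have e : 9 * (C / ((K + m : ℕ) : ℝ) ^ 2) + 8 * (64 / ((K + m : ℕ) : ℝ) ^ 2)
          = (9 * C + 512) * (1 / ((K + m : ℕ) : ℝ) ^ 2) := by ring
      linarith
  have hcol' : Qn (bK K) (wK K) v₀ (m + 2) (fun x y => ind (Col K v₀ (m + 2) x y))
      ≤ (9 * C + 512) * (2 / (K : ℝ)) := by
    refine (hcol (m + 1)).trans ?_
    rw [← mul_sum]
    apply mul_le_mul_of_nonneg_left _ (by positivity)
    exact sum_K K' (m + 1)
  -- base of the hitting estimates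
  have hq : (K : ℝ) ≤ (4 : ℝ) ^ (K ^ 2) := by
    have h1 : K ≤ 4 ^ K := (Nat.lt_pow_self (by norm_num : 1 < 4)).le
    have h2 : 4 ^ K ≤ 4 ^ (K ^ 2) := Nat.pow_le_pow_right (by norm_num) (by nlinarith)
    exact_mod_cast h1.trans h2
  have hbase : ∀ (Z : Finset (Fin 4 → ℤ)) (g : (Fin 4 → ℤ) → (Fin 4 → ℤ)), Z.card ≤ Tl K + 1 →
      (∀ z ∈ Z, (Tl K : ℤ) ≤ |(g z) i|) →
      4 * ∑ z ∈ Z, ∑ j ∈ range (tt (bK K) 2 + 1), p j (g z) ≤ 8 * (C' + 32) / (K : ℝ) := by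
    intro Z g hZ hg
    set q : ℝ := (4 : ℝ) ^ (K ^ 2) with hqdef
    have hq0 : 0 < q := by positivity
    have hq1 : 1 ≤ q := one_le_pow₀ (by norm_num)
    have h1 : ∑ z ∈ Z, ∑ j ∈ range (tt (bK K) 2 + 1), p j (g z)
        ≤ ∑ z ∈ Z, (C' + 32) / q ^ 3 := by
      apply sum_le_sum
      intro z hz
      exact green_far C' hC' hoff K (g z) i (hg z hz) _
    have h2 : (Z.card : ℝ) ≤ 2 * q ^ 2 := by
      have h3 : (Z.card : ℝ) ≤ (Tl K : ℝ) + 1 := by exact_mod_cast hZ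
      have h4 : (Tl K : ℝ) = q ^ 2 := by
        unfold Tl; push_cast
        rw [hqdef, ← pow_mul, mul_comm, pow_mul]; norm_num
      rw [h4] at h3
      have : 1 ≤ q ^ 2 := one_le_pow₀ hq1
      linarith
    rw [sum_const, nsmul_eq_mul] at h1
    calc 4 * ∑ z ∈ Z, ∑ j ∈ range (tt (bK K) 2 + 1), p j (g z)
        ≤ 4 * ((2 * q ^ 2) * ((C' + 32) / q ^ 3)) := by
          gcongr
          refine h1.trans ?_
          gcongr
      _ = 8 * (C' + 32) / q := by field_simp; ring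
      _ ≤ _ := by gcongr
  have hstepbound : ∀ (Z : Finset (Fin 4 → ℤ)) (m : ℕ), Z.card ≤ Tl K + 1 →
      4 * ((Z.card : ℝ) * (32 / ((bK K (m + 1) : ℝ) + 1))) ≤ 256 * (1 / ((K + (m + 1) : ℕ) : ℝ) ^ 2) := by
    intro Z m hZ
    have h1 := ratio_real K hK1 (m + 1)
    have h2 : (Z.card : ℝ) ≤ (tt (bK K) (m + 1) : ℝ) + 1 := by
      have h3 : Tl K ≤ tt (bK K) (m + 1) := by
        have h4 : tt (bK K) 1 = Tl K := by rw [tt_succ, tt_zero]; simp [bK]
        rw [← h4]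
        unfold tt
        apply sum_le_sum_of_subset
        exact range_subset_range.2 (by omega)
      exact_mod_cast hZ.trans (by omega)
    have h5 : (Z.card : ℝ) * (32 / ((bK K (m + 1) : ℝ) + 1))
        ≤ 64 / ((K + (m + 1) : ℕ) : ℝ) ^ 2 :=
      le_trans (mul_le_mul_of_nonneg_right h2 (by positivity)) h1
    calc _ ≤ 4 * (64 / ((K + (m + 1) : ℕ) : ℝ) ^ 2) := by linarith
      _ = _ := by ring
  have hsumshift : ∀ m, ∑ j ∈ range m, 256 * (1 / ((K + (j + 1) : ℕ) : ℝ) ^ 2) ≤ 512 / (K : ℝ) := by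
    intro m
    rw [← mul_sum]
    have h1 : ∑ j ∈ range m, 1 / ((K + (j + 1) : ℕ) : ℝ) ^ 2 ≤ ∑ j ∈ range m, 1 / ((K + j : ℕ) : ℝ) ^ 2 := by
      apply sum_le_sum
      intro j _
      apply one_div_le_one_div_of_le
      · have : (0 : ℝ) < ((K + j : ℕ) : ℝ) := by exact_mod_cast (by omega : 0 < K + j)
        positivity
      · have : (((K + j : ℕ) : ℝ)) ≤ ((K + (j + 1) : ℕ) : ℝ) := by exact_mod_cast (by omega)
        gcongr
    have h2 := sum_K K' m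
    calc 256 * ∑ j ∈ range m, 1 / ((K + (j + 1) : ℕ) : ℝ) ^ 2 ≤ 256 * (2 / (K : ℝ)) := by
          apply mul_le_mul_of_nonneg_left (h1.trans h2) (by norm_num)
      _ = _ := by ring
  have hhitY : Qn (bK K) (wK K) v₀ (m + 2) (fun _ y => ind (HitY K ZX (m + 2) y))
      ≤ (512 + 8 * (C' + 32)) / (K : ℝ) := by
    have h1 : ∀ m, Qn (bK K) (wK K) v₀ (m + 2) (fun _ y => ind (HitY K ZX (m + 2) y))
        ≤ 8 * (C' + 32) / (K : ℝ) + ∑ j ∈ range m, 256 * (1 / ((K + (j + 1) : ℕ) : ℝ) ^ 2) := by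
      intro m
      induction m with
      | zero =>
        simp only [range_zero, sum_empty, add_zero]
        exact (hitY_two K v₀ hK1 C (fun k hk v => (hC k hk v).1) ZX).trans
          (hbase ZX (fun z => z) hZX hzX)
      | succ m ih =>
        rw [sum_range_succ]
        refine (hitY_step v₀ hK1 C (fun k hk v => (hC k hk v).1) ZX (m + 1)).trans ?_
        have := hstepbound ZX m hZX
        linarith
    refine (h1 m).trans ?_
    rw [add_div]
    linarith [hsumshift m]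
  have hhitX : Qn (bK K) (wK K) v₀ (m + 2) (fun x _ => ind (HitX K v₀ ZY (m + 2) x))
      ≤ (512 + 8 * (C' + 32)) / (K : ℝ) := by
    have h1 : ∀ m, Qn (bK K) (wK K) v₀ (m + 2) (fun x _ => ind (HitX K v₀ ZY (m + 2) x))
        ≤ 8 * (C' + 32) / (K : ℝ) + ∑ j ∈ range m, 256 * (1 / ((K + (j + 1) : ℕ) : ℝ) ^ 2) := by
      intro m
      induction m with
      | zero =>
        simp only [range_zero, sum_empty, add_zero]
        exact (hitX_two K v₀ hK1 C (fun k hk v => (hC k hk v).1) ZY).trans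
          (hbase ZY (fun z => v₀ - z) hZY hzY)
      | succ m ih =>
        rw [sum_range_succ]
        refine (hitX_step v₀ hK1 C (fun k hk v => (hC k hk v).1) ZY (m + 1)).trans ?_
        have := hstepbound ZY m hZY
        linarith
    refine (h1 m).trans ?_
    rw [add_div]
    linarith [hsumshift m]
  have h0 : ∀ x y : Pth, ind (Col K v₀ (m + 2) x y ∨ HitY K ZX (m + 2) y ∨ HitX K v₀ ZY (m + 2) x)
      ≤ ind (Col K v₀ (m + 2) x y) + (ind (HitY K ZX (m + 2) y) + ind (HitX K v₀ ZY (m + 2) x)) := by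
    intro x y
    refine (ind_or_le _ _).trans (add_le_add le_rfl (ind_or_le _ _))
  refine (Qn_mono v₀ hBW (m + 2) h0).trans ?_
  rw [Qn_add v₀, Qn_add v₀]
  have hfin : D / (K : ℝ) ≤ 1 / 2 := by
    rw [div_le_div_iff₀ hKr (by norm_num)]
    have : ((K' : ℕ) : ℝ) ≤ (K : ℝ) := by rw [hK]; push_cast; linarith
    linarith
  have e : D / (K : ℝ) = (9 * C + 512) * (2 / (K : ℝ)) + ((512 + 8 * (C' + 32)) / (K : ℝ)
      + (512 + 8 * (C' + 32)) / (K : ℝ)) := by rw [hD]; ring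
  linarith

theorem prod_eK (K : ℕ) (hK : 1 ≤ K) (C : ℝ) (hC : 0 < C) (n : ℕ) :
    ∏ j ∈ range n, (1 + eK K C j) ≤ Real.exp (2 * C) := by
  obtain ⟨K', rfl⟩ : ∃ K', K = K' + 1 := ⟨K - 1, by omega⟩
  have h1 : ∀ n, ∑ j ∈ range (n + 1), eK (K' + 1) C j ≤ 2 * C := by
    intro n
    rw [sum_range_succ']
    simp only [eK, add_zero]
    have h2 : ∑ k ∈ range n, C / ((K' + 1 + k : ℕ) : ℝ) ^ 2
        = C * ∑ k ∈ range n, 1 / ((K' + 1 + k : ℕ) : ℝ) ^ 2 := by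
      rw [mul_sum]; apply sum_congr rfl; intro j _; ring
    rw [h2]
    have h3 := sum_K K' n
    have h4 : 2 / (((K' + 1 : ℕ) : ℝ)) ≤ 2 := by
      rw [div_le_iff₀ (by positivity)]
      push_cast
      have : (0 : ℝ) ≤ K' := Nat.cast_nonneg _
      linarith
    calc C * ∑ k ∈ range n, 1 / ((K' + 1 + k : ℕ) : ℝ) ^ 2 ≤ C * 2 := by
          apply mul_le_mul_of_nonneg_left (h3.trans h4) hC.le
      _ = _ := by ring
  have hnn : ∀ j, 0 ≤ eK (K' + 1) C j := by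
    intro j
    rcases j with _ | j
    · simp [eK]
    · simp only [eK]; positivity
  have h5 : ∏ j ∈ range n, (1 + eK (K' + 1) C j) ≤ Real.exp (∑ j ∈ range n, eK (K' + 1) C j) := by
    rw [Real.exp_sum]
    apply prod_le_prod
    · intro j _; linarith [hnn j]
    · intro j _
      have := Real.add_one_le_exp (eK (K' + 1) C j)
      linarith
  refine h5.trans (Real.exp_le_exp.2 ?_)
  refine le_trans ?_ (h1 n)
  apply sum_le_sum_of_subset_of_nonneg
  · exact range_subset_range.2 (by omega)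
  · intro j _ _; exact hnn j

end Pool.Agent.Lib.MP_e4a9a7_pr
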