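import Mathlib
import Pool.Agent.Lib.MP_e4a9a7_pr.Total

/-!
# Finite-level couplings
-/

namespace Pool.Agent.Lib.MP_e4a9a7_pr

open Finset

/-- completion of a sub-coupling -/
theorem completion (N : ℕ) (σ : Pth → Pth → ℝ)
    (hr : ∀ u, av N (fun v => σ u v) ≤ 1 / 4) (hc : ∀ v, av N (fun u => σ u v) ≤ 1) :
    ∃ κ : Pth → Pth → ℝ, (∀ u v, σ u v ≤ κ u v) ∧ (∀ u, av N (fun v => κ u v) = 1) ∧
      (∀ v, av N (fun u => κ u v) = 1) := by
  set r : Pth → ℝ := fun u => av N (fun v => σ u v) with hrdef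
  set c : Pth → ℝ := fun v => av N (fun u => σ u v) with hcdef
  set m := av N r with hm
  have hm' : av N c = m := by rw [hcdef, hm, hrdef, av_comm]
  have hm1 : m ≤ 1 / 4 := av_le_const N hr
  have hm2 : 0 < 1 - m := by linarith
  refine ⟨fun u v => σ u v + (1 - r u) * (1 - c v) / (1 - m), ?_, ?_, ?_⟩
  · intro u v
    have h1 : 0 ≤ 1 - r u := by have := hr u; simp only [hrdef]; linarith
    have h2 : 0 ≤ 1 - c v := by have := hc v; simp only [hcdef]; linarith
    have : 0 ≤ (1 - r u) * (1 - c v) / (1 - m) := by positivity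
    linarith
  · intro u
    rw [av_add, av_div, av_mul_left, av_sub, av_const, hm', mul_div_assoc, div_self hm2.ne', mul_one]
    change r u + (1 - r u) = 1
    ring
  · intro v
    rw [av_add, av_div, av_mul_right, av_sub, av_const]
    change c v + (1 - m) * (1 - c v) / (1 - m) = 1
    rw [mul_comm, mul_div_assoc, div_self hm2.ne', mul_one]
    ring

theorem av_all (s : Stp) (n : ℕ) : av n (fun u => ind (∀ j < n, u j = s)) = (1 / 8) ^ n := by
  induction n with
  | zero => rw [av_zero, ind_of (by intro j hj; omega)]; simp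
  | succ n ih =>
    rw [av_succ]
    have h1 : ∀ s' : Stp, av n (fun u => ind (∀ j < n + 1, cns s' u j = s))
        = if s' = s then (1 / 8 : ℝ) ^ n else 0 := by
      intro s'
      by_cases h : s' = s
      · rw [if_pos h, ← ih]
        apply av_congr; intro u
        apply ind_congr
        constructor
        · intro hall j hj
          have := hall (j + 1) (by omega)
          simpa using this
        · intro hall j hj
          rcases j with _ | j
          · simpa using h
          · rw [cns_succ]; exact hall j (by omega)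
      · rw [if_neg h]
        have : ∀ u : Pth, ind (∀ j < n + 1, cns s' u j = s) = 0 := by
          intro u
          apply ind_not
          intro hall
          exact h (by simpa using hall 0 (by omega))
        simp only [this, av_const]
    simp only [h1]
    rw [sum_ite_eq' univ s (fun _ => (1 / 8 : ℝ) ^ n)]
    simp [pow_succ]
    ring

theorem av_init (s : Stp) (s0 t : ℕ) (G : Pth → ℝ) :
    av (s0 + t) (fun u => ind (∀ j < s0, u j = s) * G (sh s0 u)) = (1 / 8) ^ s0 * av t G := by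
  rw [av_split, ← av_all s s0, ← av_mul_right]
  apply av_congr; intro u
  have h1 : ∀ v : Pth, ind (∀ j < s0, app s0 u v j = s) = ind (∀ j < s0, u j = s) := by
    intro v
    apply ind_congr
    constructor
    · intro h j hj
      have := h j hj
      rwa [app_of_lt hj] at this
    · intro h j hj
      rw [app_of_lt hj]; exact h j hj
  simp only [h1, sh_app, av_mul_left]

theorem S_init {s : Stp} {s0 : ℕ} {u : Pth} (h : ∀ j < s0, u j = s) {j : ℕ} (hj : j ≤ s0) :
    S u j = j • stepVec s := by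
  induction j with
  | zero => simp
  | succ j ih =>
    rw [S_succ, ih (by omega), h j (by omega), succ_nsmul]

theorem nsm (n : ℕ) (s : Stp) (i : Fin 4) : (n • stepVec s) i = (n : ℤ) * stepVec s i := by
  rw [Pi.smul_apply, nsmul_eq_mul]

theorem finite_coupling (C C' : ℝ) (hCpos : 0 < C) (hC' : 0 < C')
    (hoff : ∀ (n : ℕ) (z : Fin 4 → ℤ) (i : Fin 4) (r : ℕ), 0 < r → (r : ℤ) ≤ |z i| →
      p n z ≤ C' / ((r : ℝ) ^ 2 * (n + 1)))
    (hC : ∀ k : ℕ, 1 ≤ k → ∀ v : Fin 4 → ℤ,
      av (Tl (k + 1)) (fun y => hh (Tl k) (Tl (k + 1) - Tl k) v y ^ 2) ≤ C / (k : ℝ) ^ 2 ∧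
      adj (Tl k) (Tl (k + 1)) v ≤ C / (k : ℝ) ^ 2)
    (x y : Fin 4 → ℤ) (hxy : x ≠ y) :
    ∃ c : ℝ, 0 < c ∧ ∀ n : ℕ, ∃ N, n ≤ N ∧ ∃ κ : Pth → Pth → ℝ, (∀ u v, 0 ≤ κ u v) ∧
     (∀ u, av N (fun v => κ u v) = 1) ∧ (∀ v, av N (fun u => κ u v) = 1) ∧
     c ≤ av N (fun u => av N (fun v =>
       if (∀ i ≤ N, ∀ j ≤ N, x + S u i ≠ y + S v j) then κ u v else 0)) := by
  obtain ⟨K, hK1, hfail⟩ := total_fail C C' hCpos hC' hoff hC
  have hBW := bwK K hK1 C (fun k hk v => (hC k hk v).1)
  -- directions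
  obtain ⟨i, hi⟩ : ∃ i, x i ≠ y i := by
    by_contra h; push Not at h; exact hxy (funext h)
  obtain ⟨sX, sY, hs⟩ : ∃ sX sY : Stp, (x i < y i ∧ stepVec sX i = -1 ∧ stepVec sY i = 1) ∨
      (y i < x i ∧ stepVec sX i = 1 ∧ stepVec sY i = -1) := by
    rcases lt_or_gt_of_ne hi with h | h
    · exact ⟨(i, false), (i, true), Or.inl ⟨h, by simp [stepVec], by simp [stepVec]⟩⟩
    · exact ⟨(i, true), (i, false), Or.inr ⟨h, by simp [stepVec], by simp [stepVec]⟩⟩
  set s0 := Tl K with hs0
  set a₀ := x + s0 • stepVec sX with ha₀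
  set b₀ := y + s0 • stepVec sY with hb₀
  set v₀ := a₀ - b₀ with hv₀
  set ZX : Finset (Fin 4 → ℤ) := (range (s0 + 1)).image (fun j => x + j • stepVec sX - b₀) with hZX
  set ZY : Finset (Fin 4 → ℤ) := (range (s0 + 1)).image (fun j => y + j • stepVec sY - b₀) with hZY
  have hfail' := hfail v₀ i ZX ZY (by
      rw [hv₀, ha₀, hb₀]
      simp only [Pi.sub_apply, Pi.add_apply, nsm]
      rcases hs with ⟨h1, h2, h3⟩ | ⟨h1, h2, h3⟩
      · rw [h2, h3, lt_abs]; right; linarith
      · rw [h2, h3, lt_abs]; left; linarith)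
    (by
      have := card_image_le (s := range (s0 + 1)) (f := fun j => x + j • stepVec sX - b₀)
      rwa [card_range] at this)
    (by
      have := card_image_le (s := range (s0 + 1)) (f := fun j => y + j • stepVec sY - b₀)
      rwa [card_range] at this)
    (by
      intro z hz
      rw [hZX, mem_image] at hz
      obtain ⟨j, hj, rfl⟩ := hz
      simp only [hb₀, Pi.sub_apply, Pi.add_apply, nsm]
      have hj0 : (0 : ℤ) ≤ j := Int.natCast_nonneg j
      rcases hs with ⟨h1, h2, h3⟩ | ⟨h1, h2, h3⟩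
      · rw [h2, h3, le_abs]; right; linarith
      · rw [h2, h3, le_abs]; left; linarith)
    (by
      intro z hz
      rw [hZY, mem_image] at hz
      obtain ⟨j, hj, rfl⟩ := hz
      simp only [hv₀, ha₀, Pi.sub_apply, Pi.add_apply, nsm]
      have hj0 : (0 : ℤ) ≤ j := Int.natCast_nonneg j
      rcases hs with ⟨h1, h2, h3⟩ | ⟨h1, h2, h3⟩
      · rw [h2, h3, le_abs]; right; linarith
      · rw [h2, h3, le_abs]; left; linarith)
  set D₀ := Real.exp (2 * C) with hD₀
  have hD₀1 : 1 ≤ D₀ := Real.one_le_exp (by positivity)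
  set K₁ := 4 * D₀ with hK₁
  have hK₁4 : 4 ≤ K₁ := by linarith
  have hK₁pos : 0 < K₁ := by linarith
  refine ⟨(1 / 8) ^ s0 / K₁ * (1 / 4), by positivity, ?_⟩
  intro n
  set t := tt (bK K) (n + 2) with ht
  have htn : n ≤ t := by
    rw [ht]
    unfold tt
    calc n ≤ ∑ j ∈ range (n + 2), 1 := by simp
      _ ≤ _ := by
        apply sum_le_sum
        intro j _
        exact Tl_pos _
  set W := WW (bK K) (wK K) v₀ (n + 2) with hW
  have hW0 : ∀ x y, 0 ≤ W x y := WW_nonneg v₀ hBW (n + 2)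
  have hWy : ∀ x, av t (fun y => W x y) = 1 := WW_avy v₀ hBW (n + 2)
  set D : Pth → ℝ := fun y => av t (fun x => W x y) with hD
  have hD0 : ∀ y, 0 ≤ D y := fun y => av_nonneg _ fun x => hW0 x y
  have hDl2 : av t (fun y => D y ^ 2) ≤ D₀ := by
    refine (WW_l2 v₀ hBW ?_ (n + 2)).trans (prod_eK K hK1 C hCpos (n + 2))
    intro j
    rcases j with _ | j
    · simp [eK]
    · simp only [eK]; positivity
  set E : Pth → Pth → Prop := fun x y => Col K v₀ (n + 2) x y ∨ HitY K ZX (n + 2) y ∨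
    HitX K v₀ ZY (n + 2) x with hE
  have hQfail : av t (fun x => av t (fun y => W x y * ind (E x y))) ≤ 1 / 2 := hfail' n
  set N := s0 + t with hN
  set A : Pth → Prop := fun u => ∀ j < s0, u j = sX with hA
  set B : Pth → Prop := fun u => ∀ j < s0, u j = sY with hB
  set σ : Pth → Pth → ℝ := fun u v => ind (A u) * (ind (B v) * (8 ^ s0 / K₁ *
    (W (sh s0 u) (sh s0 v) * ind (D (sh s0 v) ≤ K₁)))) with hσ
  have h88 : ((1 : ℝ) / 8) ^ s0 * 8 ^ s0 = 1 := by rw [← mul_pow]; norm_num
  have hσ0 : ∀ u v, 0 ≤ σ u v := fun u v => mul_nonneg (ind_nonneg _) (mul_nonneg (ind_nonneg _)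
    (mul_nonneg (by positivity) (mul_nonneg (hW0 _ _) (ind_nonneg _))))
  have hr : ∀ u, av N (fun v => σ u v) ≤ 1 / 4 := by
    intro u
    have h1 : av N (fun v => σ u v) = ind (A u) * ((1 / 8) ^ s0 * av t (fun y => 8 ^ s0 / K₁ *
        (W (sh s0 u) y * ind (D y ≤ K₁)))) := by
      rw [hσ, av_mul_left]
      congr 1
      exact av_init sY s0 t (fun y => 8 ^ s0 / K₁ * (W (sh s0 u) y * ind (D y ≤ K₁)))
    rw [h1, av_mul_left]
    have h2 : av t (fun y => W (sh s0 u) y * ind (D y ≤ K₁)) ≤ 1 := by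
      rw [← hWy (sh s0 u)]
      apply av_mono; intro y
      exact mul_le_of_le_one_right (hW0 _ _) (ind_le_one _)
    have h3 : 0 ≤ av t (fun y => W (sh s0 u) y * ind (D y ≤ K₁)) :=
      av_nonneg _ fun y => mul_nonneg (hW0 _ _) (ind_nonneg _)
    calc ind (A u) * ((1 / 8) ^ s0 * (8 ^ s0 / K₁ * av t (fun y => W (sh s0 u) y * ind (D y ≤ K₁))))
        = ind (A u) * (((1 / 8) ^ s0 * 8 ^ s0) / K₁ * av t (fun y => W (sh s0 u) y * ind (D y ≤ K₁))) := by
          ring
      _ = ind (A u) * (1 / K₁ * av t (fun y => W (sh s0 u) y * ind (D y ≤ K₁))) := by rw [h88]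
      _ ≤ 1 * (1 / K₁ * 1) := by
          gcongr
          · exact ind_le_one _
      _ ≤ 1 / 4 := by
          rw [one_mul, mul_one]
          exact one_div_le_one_div_of_le (by norm_num) hK₁4
  have hc : ∀ v, av N (fun u => σ u v) ≤ 1 := by
    intro v
    have h1 : av N (fun u => σ u v) = (1 / 8) ^ s0 * av t (fun x => ind (B v) * (8 ^ s0 / K₁ *
        (W x (sh s0 v) * ind (D (sh s0 v) ≤ K₁)))) :=
      av_init sX s0 t (fun x => ind (B v) * (8 ^ s0 / K₁ *
        (W x (sh s0 v) * ind (D (sh s0 v) ≤ K₁))))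
    rw [h1, av_mul_left, av_mul_left, av_mul_right]
    change (1 / 8) ^ s0 * (ind (B v) * (8 ^ s0 / K₁ * (D (sh s0 v) * ind (D (sh s0 v) ≤ K₁)))) ≤ 1
    have h2 : D (sh s0 v) * ind (D (sh s0 v) ≤ K₁) ≤ K₁ := by
      by_cases h : D (sh s0 v) ≤ K₁
      · rw [ind_of h, mul_one]; exact h
      · rw [ind_not h, mul_zero]; exact hK₁pos.le
    have h3 : 0 ≤ D (sh s0 v) * ind (D (sh s0 v) ≤ K₁) := mul_nonneg (hD0 _) (ind_nonneg _)
    calc (1 / 8) ^ s0 * (ind (B v) * (8 ^ s0 / K₁ * (D (sh s0 v) * ind (D (sh s0 v) ≤ K₁))))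
        = ind (B v) * ((((1 / 8) ^ s0 * 8 ^ s0) / K₁) * (D (sh s0 v) * ind (D (sh s0 v) ≤ K₁))) := by
          ring
      _ = ind (B v) * ((1 / K₁) * (D (sh s0 v) * ind (D (sh s0 v) ≤ K₁))) := by rw [h88]
      _ ≤ 1 * ((1 / K₁) * K₁) := by
          gcongr
          exact ind_le_one _
      _ = 1 := by field_simp
  obtain ⟨κ, hκσ, hκ1, hκ2⟩ := completion N σ hr hc
  refine ⟨N, by omega, κ, fun u v => (hσ0 u v).trans (hκσ u v), hκ1, hκ2, ?_⟩
  -- disjointness
  have hdisj : ∀ u v : Pth, A u → B v → ¬ E (sh s0 u) (sh s0 v) →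
      ∀ a ≤ N, ∀ b ≤ N, x + S u a ≠ y + S v b := by
    intro u v hAu hBv hnE a ha b hb hab
    apply hnE
    by_cases h1 : a ≤ s0
    · by_cases h2 : b ≤ s0
      · exfalso
        rw [S_init hAu h1, S_init hBv h2] at hab
        have h3 := congrFun hab i
        simp only [Pi.add_apply, nsm] at h3
        have ha0 : (0 : ℤ) ≤ a := Int.natCast_nonneg a
        have hb0 : (0 : ℤ) ≤ b := Int.natCast_nonneg b
        rcases hs with ⟨g1, g2, g3⟩ | ⟨g1, g2, g3⟩
        · rw [g2, g3] at h3; linarith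
        · rw [g2, g3] at h3; linarith
      · obtain ⟨b', rfl⟩ := Nat.exists_eq_add_of_le (show s0 ≤ b by omega)
        right; left
        rw [S_init hAu h1, S_add v, S_init hBv le_rfl] at hab
        refine ⟨x + a • stepVec sX - b₀, ?_, b', by omega, ?_⟩
        · rw [hZX, mem_image]; exact ⟨a, mem_range.2 (by omega), rfl⟩
        · rw [hab, hb₀]; abel
    · obtain ⟨a', rfl⟩ := Nat.exists_eq_add_of_le (show s0 ≤ a by omega)
      by_cases h2 : b ≤ s0
      · right; right
        rw [S_add u, S_init hAu le_rfl, S_init hBv h2] at hab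
        refine ⟨y + b • stepVec sY - b₀, ?_, a', by omega, ?_⟩
        · rw [hZY, mem_image]; exact ⟨b, mem_range.2 (by omega), rfl⟩
        · rw [← hab, hv₀, ha₀]; abel
      · obtain ⟨b', rfl⟩ := Nat.exists_eq_add_of_le (show s0 ≤ b by omega)
        left
        rw [S_add u, S_add v, S_init hAu le_rfl, S_init hBv le_rfl] at hab
        refine ⟨a', by omega, b', by omega, ?_⟩
        have e1 : v₀ + S (sh s0 u) a' = (x + (s0 • stepVec sX + S (sh s0 u) a')) - b₀ := by
          rw [hv₀, ha₀]; abel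
        rw [e1, hab, hb₀]; abel
  -- lower bound of the integrand
  have hlow : ∀ u v : Pth, ind (A u) * (ind (B v) * (8 ^ s0 / K₁ *
      (W (sh s0 u) (sh s0 v) * (1 - ind (E (sh s0 u) (sh s0 v)) - ind (K₁ < D (sh s0 v))))))
      ≤ if (∀ i ≤ N, ∀ j ≤ N, x + S u i ≠ y + S v j) then κ u v else 0 := by
    intro u v
    have hκ0 : 0 ≤ κ u v := (hσ0 u v).trans (hκσ u v)
    by_cases hAu : A u
    · by_cases hBv : B v
      · rw [ind_of hAu, ind_of hBv, one_mul, one_mul]
        by_cases hEE : E (sh s0 u) (sh s0 v)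
        · rw [ind_of hEE]
          have h1 : 8 ^ s0 / K₁ * (W (sh s0 u) (sh s0 v) * (1 - 1 - ind (K₁ < D (sh s0 v)))) ≤ 0 := by
            apply mul_nonpos_of_nonneg_of_nonpos (by positivity)
            apply mul_nonpos_of_nonneg_of_nonpos (hW0 _ _)
            linarith [ind_nonneg (K₁ < D (sh s0 v))]
          refine h1.trans ?_
          split_ifs
          · exact hκ0
          · exact le_rfl
        · rw [if_pos (hdisj u v hAu hBv hEE)]
          refine le_trans ?_ (hκσ u v)
          simp only [hσ]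
          rw [ind_of hAu, ind_of hBv, one_mul, one_mul, ind_not hEE]
          apply mul_le_mul_of_nonneg_left _ (by positivity)
          apply mul_le_mul_of_nonneg_left _ (hW0 _ _)
          by_cases h : D (sh s0 v) ≤ K₁
          · rw [ind_of h, ind_not (not_lt.2 h)]; norm_num
          · rw [ind_not h, ind_of (not_le.1 h)]; norm_num
      · rw [ind_not hBv, zero_mul, mul_zero]
        split_ifs
        · exact hκ0
        · exact le_rfl
    · rw [ind_not hAu, zero_mul]
      split_ifs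
      · exact hκ0
      · exact le_rfl
  refine le_trans ?_ (av_mono N fun u => av_mono N fun v => hlow u v)
  -- compute the average
  have h1 : ∀ u : Pth, av N (fun v => ind (A u) * (ind (B v) * (8 ^ s0 / K₁ *
      (W (sh s0 u) (sh s0 v) * (1 - ind (E (sh s0 u) (sh s0 v)) - ind (K₁ < D (sh s0 v)))))))
      = ind (A u) * ((1 / 8) ^ s0 * av t (fun y => 8 ^ s0 / K₁ *
      (W (sh s0 u) y * (1 - ind (E (sh s0 u) y) - ind (K₁ < D y))))) := by
    intro u
    rw [av_mul_left]
    congr 1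
    exact av_init sY s0 t (fun y => 8 ^ s0 / K₁ *
      (W (sh s0 u) y * (1 - ind (E (sh s0 u) y) - ind (K₁ < D y))))
  simp only [h1]
  have h2 : av N (fun u => ind (A u) * ((1 / 8) ^ s0 * av t (fun y => 8 ^ s0 / K₁ *
      (W (sh s0 u) y * (1 - ind (E (sh s0 u) y) - ind (K₁ < D y))))))
      = (1 / 8) ^ s0 * av t (fun x => (1 / 8) ^ s0 * av t (fun y => 8 ^ s0 / K₁ *
      (W x y * (1 - ind (E x y) - ind (K₁ < D y))))) :=
    av_init sX s0 t (fun x => (1 / 8) ^ s0 * av t (fun y => 8 ^ s0 / K₁ *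
      (W x y * (1 - ind (E x y) - ind (K₁ < D y)))))
  rw [h2]
  simp only [av_mul_left]
  have h3 : av t (fun x => av t (fun y => W x y * (1 - ind (E x y) - ind (K₁ < D y))))
      = 1 - av t (fun x => av t (fun y => W x y * ind (E x y)))
        - av t (fun y => D y * ind (K₁ < D y)) := by
    have h4 : ∀ x : Pth, av t (fun y => W x y * (1 - ind (E x y) - ind (K₁ < D y)))
        = 1 - av t (fun y => W x y * ind (E x y)) - av t (fun y => W x y * ind (K₁ < D y)) := by
      intro x
      have e : ∀ y : Pth, W x y * (1 - ind (E x y) - ind (K₁ < D y))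
          = W x y - W x y * ind (E x y) - W x y * ind (K₁ < D y) := by intro y; ring
      simp only [e]
      rw [av_sub, av_sub, hWy x]
    simp only [h4]
    rw [av_sub, av_sub, av_const]
    congr 1
    rw [av_comm]
    apply av_congr; intro y
    rw [av_mul_right]
  have h5 : av t (fun y => D y * ind (K₁ < D y)) ≤ 1 / 4 := by
    have h6 : ∀ y, D y * ind (K₁ < D y) ≤ D y ^ 2 / K₁ := by
      intro y
      by_cases h : K₁ < D y
      · rw [ind_of h, mul_one, le_div_iff₀ hK₁pos, sq]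
        exact mul_le_mul_of_nonneg_left h.le (hD0 y)
      · rw [ind_not h, mul_zero]; positivity
    refine (av_mono t h6).trans ?_
    rw [av_div, div_le_iff₀ hK₁pos, hK₁]
    linarith
  have h7 : 1 / 4 ≤ av t (fun x => av t (fun y => W x y * (1 - ind (E x y) - ind (K₁ < D y)))) := by
    rw [h3]; linarith
  calc (1 / 8) ^ s0 / K₁ * (1 / 4)
      ≤ (1 / 8) ^ s0 / K₁ * av t (fun x => av t (fun y => W x y
        * (1 - ind (E x y) - ind (K₁ < D y)))) := by gcongr
    _ = (1 / 8) ^ s0 * (((1 / 8) ^ s0 * 8 ^ s0) / K₁ * av t (fun x => av t (fun y => W x y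
        * (1 - ind (E x y) - ind (K₁ < D y))))) := by rw [h88]; ring
    _ = _ := by ring

end Pool.Agent.Lib.MP_e4a9a7_pr
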