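import Mathlib
import Pool.Agent.Lib.MP_e4a9a7_pr.Util

/-!
# From finite-level couplings to a coupling of two infinite walks

Compactness of the space of probability measures on `Pth × Pth`.
-/

namespace Pool.Agent.Lib.MP_e4a9a7_pr

open Finset MeasureTheory ProbabilityTheory Filter Topology

/-- `X` is simple random walk on `ℤ^4` started at `x` -/
structure IsSRW {Ω : Type*} [MeasurableSpace Ω] (P : Measure Ω) (x : Fin 4 → ℤ)
    (X : ℕ → Ω → Fin 4 → ℤ) : Prop where
  meas : ∀ n, Measurable (X n)
  start : ∀ ω, X 0 ω = x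
  indep : iIndepFun (fun n ω => X (n + 1) ω - X n ω) P
  unif : ∀ (n : ℕ) (i : Fin 4), P {ω | X (n + 1) ω - X n ω = Pi.single i 1} = 1 / 8 ∧
      P {ω | X (n + 1) ω - X n ω = Pi.single i (-1)} = 1 / 8

/-! ### finite averages as sums -/

/-- extend a finite step sequence by the default step -/
def extd (n : ℕ) (w : Fin n → Stp) : Pth := fun i => if h : i < n then w ⟨i, h⟩ else (0, false)

theorem extd_cons (n : ℕ) (s : Stp) (w : Fin n → Stp) :
    extd (n + 1) (Fin.cons s w) = cns s (extd n w) := by
  funext i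
  rcases i with _ | i
  · simp [extd]
  · simp only [extd, cns_succ, add_lt_add_iff_right]
    by_cases h : i < n
    · rw [dif_pos h, dif_pos h]
      have : (⟨i + 1, by omega⟩ : Fin (n + 1)) = Fin.succ ⟨i, h⟩ := rfl
      rw [this, Fin.cons_succ]
    · rw [dif_neg h, dif_neg h]

theorem av_eq_sum (n : ℕ) (F : Pth → ℝ) : av n F = (∑ w : Fin n → Stp, F (extd n w)) / 8 ^ n := by
  induction n generalizing F with
  | zero =>
    rw [av_zero]
    simp only [pow_zero, div_one, Finset.univ_unique, sum_singleton]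
    congr 1
  | succ n ih =>
    rw [av_succ]
    simp only [ih]
    have hR : ∑ w : Fin (n + 1) → Stp, F (extd (n + 1) w)
        = ∑ s : Stp, ∑ w : Fin n → Stp, F (cns s (extd n w)) := by
      rw [← (Fin.consEquiv (fun _ : Fin (n + 1) => Stp)).sum_comp]
      refine (Fintype.sum_prod_type _).trans ?_
      apply sum_congr rfl
      intro s _
      apply sum_congr rfl
      intro w _
      rw [← extd_cons]
      rfl
    rw [hR, ← sum_div, div_div, pow_succ]

/-! ### the finite-level measure -/

/-- finitely supported measure on pairs of step sequences -/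
noncomputable def finM (N : ℕ) (κ : Pth → Pth → ℝ) : Measure (Pth × Pth) :=
  ∑ w : Fin N → Stp, ∑ w' : Fin N → Stp,
    ENNReal.ofReal (κ (extd N w) (extd N w') / 8 ^ N / 8 ^ N) • Measure.dirac (extd N w, extd N w')

theorem finM_apply (N : ℕ) (κ : Pth → Pth → ℝ) (hκ : ∀ u v, 0 ≤ κ u v) {A : Set (Pth × Pth)}
    (hA : MeasurableSet A) :
    finM N κ A = ENNReal.ofReal (av N (fun u => av N (fun v => κ u v * ind ((u, v) ∈ A)))) := by
  unfold finM
  simp only [Measure.finsetSum_apply, Measure.smul_apply, Measure.dirac_apply' _ hA, smul_eq_mul]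
  rw [av_eq_sum]
  simp only [av_eq_sum N (fun v => _)]
  rw [sum_div]
  simp only [sum_div]
  rw [ENNReal.ofReal_sum_of_nonneg]
  · apply sum_congr rfl
    intro w _
    rw [ENNReal.ofReal_sum_of_nonneg]
    · apply sum_congr rfl
      intro w' _
      by_cases h : (extd N w, extd N w') ∈ A
      · rw [ind_of h, Set.indicator_of_mem h]; simp
      · rw [ind_not h, Set.indicator_of_notMem h]; simp
    · intro w' _
      have := hκ (extd N w) (extd N w')
      have := ind_nonneg ((extd N w, extd N w') ∈ A)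
      positivity
  · intro w _
    apply sum_nonneg
    intro w' _
    have := hκ (extd N w) (extd N w')
    have := ind_nonneg ((extd N w, extd N w') ∈ A)
    positivity

/-! ### clopen sets -/

theorem isClopen_of_dep (m : ℕ) (A : Set (Pth × Pth))
    (h : ∀ a b : Pth × Pth, (∀ i < m, a.1 i = b.1 i ∧ a.2 i = b.2 i) → a ∈ A → b ∈ A) :
    IsClopen A := by
  let r : Pth × Pth → (Fin m → Stp) × (Fin m → Stp) := fun a => (fun i => a.1 i, fun i => a.2 i)
  have hr : Continuous r := by
    apply Continuous.prodMk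
    · exact continuous_pi fun i => (continuous_apply _).comp continuous_fst
    · exact continuous_pi fun i => (continuous_apply _).comp continuous_snd
  have hA : A = r ⁻¹' (r '' A) := by
    apply Set.Subset.antisymm (Set.subset_preimage_image r A)
    rintro b ⟨a, ha, hab⟩
    apply h a b _ ha
    intro i hi
    have h1 := congrArg Prod.fst hab
    have h2 := congrArg Prod.snd hab
    exact ⟨congrFun h1 ⟨i, hi⟩, congrFun h2 ⟨i, hi⟩⟩
  rw [hA]
  exact (isClopen_discrete _).preimage hr

/-! ### product formula -/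

theorem av_prod (N : ℕ) (g : ℕ → Stp → ℝ) :
    av N (fun u => ∏ i ∈ range N, g i (u i)) = ∏ i ∈ range N, (∑ s : Stp, g i s) / 8 := by
  induction N generalizing g with
  | zero => simp [av_zero]
  | succ N ih =>
    rw [av_succ]
    simp only [prod_range_succ', cns_succ, cns_zero]
    simp only [av_mul_right]
    rw [ih (fun i => g (i + 1)), ← mul_sum]
    ring

/-- uniform probability of a set of steps -/
noncomputable def qq (t : Set Stp) : ℝ := (∑ s : Stp, ind (s ∈ t)) / 8

theorem av_cyl (N : ℕ) (Q : Finset ℕ) (hQ : Q ⊆ range N) (sets : ℕ → Set Stp) :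
    av N (fun u => ind (∀ i ∈ Q, u i ∈ sets i)) = ∏ i ∈ Q, qq (sets i) := by
  classical
  have h1 : ∀ u : Pth, ind (∀ i ∈ Q, u i ∈ sets i)
      = ∏ i ∈ range N, (if i ∈ Q then ind (u i ∈ sets i) else 1) := by
    intro u
    by_cases h : ∀ i ∈ Q, u i ∈ sets i
    · rw [ind_of h]
      symm
      apply prod_eq_one
      intro i _
      split_ifs with hi
      · exact ind_of (h i hi)
      · rfl
    · rw [ind_not h]
      push Not at h
      obtain ⟨i, hi, hni⟩ := h
      symm
      apply prod_eq_zero (hQ hi)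
      rw [if_pos hi, ind_not hni]
  simp only [h1]
  rw [av_prod N (fun i s => if i ∈ Q then ind (s ∈ sets i) else 1)]
  have h2 : ∀ i ∈ range N, (∑ s : Stp, (if i ∈ Q then ind (s ∈ sets i) else 1)) / 8
      = if i ∈ Q then qq (sets i) else 1 := by
    intro i _
    split_ifs with hi
    · rfl
    · rw [sum_const, card_stp]; norm_num
  rw [prod_congr rfl h2, prod_ite_mem]
  rw [inter_eq_right.mpr hQ]

theorem stepVec_eq_pos (s : Stp) (i : Fin 4) : stepVec s = Pi.single i 1 ↔ s = (i, true) := by
  revert s i; decide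

theorem stepVec_eq_neg (s : Stp) (i : Fin 4) : stepVec s = Pi.single i (-1) ↔ s = (i, false) := by
  revert s i; decide

theorem qq_singleton (s : Stp) : qq {s} = 1 / 8 := by
  unfold qq
  have : ∀ t : Stp, ind (t ∈ ({s} : Set Stp)) = if t = s then 1 else 0 := by
    intro t
    rw [ind_eq_ite]
    simp
  simp only [this]
  rw [sum_ite_eq' univ s]
  simp

theorem qq_nonneg (t : Set Stp) : 0 ≤ qq t := by
  unfold qq
  apply div_nonneg _ (by norm_num)
  exact sum_nonneg fun s _ => ind_nonneg _

/-! ### a marginal of the limit measure is simple random walk -/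

theorem isSRW_of_cyl {Ω : Type} [MeasurableSpace Ω] (P : Measure Ω) [IsProbabilityMeasure P]
    (x : Fin 4 → ℤ) (W : Ω → Pth) (hW : Measurable W)
    (h : ∀ (Q : Finset ℕ) (sets : ℕ → Set Stp),
      P {ω | ∀ i ∈ Q, W ω i ∈ sets i} = ENNReal.ofReal (∏ i ∈ Q, qq (sets i))) :
    IsSRW P x (fun n ω => x + S (W ω) n) := by
  have hstep : Measurable stepVec := measurable_of_finite _
  have hcoord : ∀ i, Measurable (fun ω => W ω i) := fun i => (measurable_pi_apply i).comp hW
  have hinc : (fun (n : ℕ) (ω : Ω) => (x + S (W ω) (n + 1)) - (x + S (W ω) n))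
      = fun n => stepVec ∘ (fun ω => W ω n) := by
    funext n ω
    simp only [S_succ, Function.comp]
    abel
  have hone : ∀ (n : ℕ) (t : Set Stp), P {ω | W ω n ∈ t} = ENNReal.ofReal (qq t) := by
    intro n t
    have := h {n} (fun _ => t)
    simpa using this
  constructor
  · intro n
    apply Measurable.const_add
    unfold S
    exact Finset.measurable_sum _ fun i _ => hstep.comp (hcoord i)
  · intro ω; simp
  · rw [hinc]
    have hind : iIndepFun (fun (n : ℕ) (ω : Ω) => W ω n) P := by
      rw [iIndepFun_iff_measure_inter_preimage_eq_mul]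
      intro Q sets _
      have e1 : (⋂ i ∈ Q, (fun ω => W ω i) ⁻¹' sets i) = {ω | ∀ i ∈ Q, W ω i ∈ sets i} := by
        ext ω; simp
      rw [e1, h Q sets, ENNReal.ofReal_prod_of_nonneg (fun i _ => qq_nonneg _)]
      apply prod_congr rfl
      intro i _
      exact (hone i (sets i)).symm
    exact hind.comp (fun _ => stepVec) (fun _ => hstep)
  · intro n i
    have e0 : ∀ ω, (x + S (W ω) (n + 1)) - (x + S (W ω) n) = stepVec (W ω n) := by
      intro ω; rw [S_succ]; abel
    constructor
    · have e : {ω | (x + S (W ω) (n + 1)) - (x + S (W ω) n) = Pi.single i 1}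
          = {ω | W ω n ∈ ({(i, true)} : Set Stp)} := by
        ext ω
        simp only [Set.mem_ofPred_eq, e0, stepVec_eq_pos, Set.mem_singleton_iff]
      rw [e, hone, qq_singleton]
      rw [ENNReal.ofReal_div_of_pos (by norm_num)]
      simp
    · have e : {ω | (x + S (W ω) (n + 1)) - (x + S (W ω) n) = Pi.single i (-1)}
          = {ω | W ω n ∈ ({(i, false)} : Set Stp)} := by
        ext ω
        simp only [Set.mem_ofPred_eq, e0, stepVec_eq_neg, Set.mem_singleton_iff]
      rw [e, hone, qq_singleton]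
      rw [ENNReal.ofReal_div_of_pos (by norm_num)]
      simp

theorem compactSpace_probabilityMeasure {E : Type*} [MeasurableSpace E] [TopologicalSpace E]
    [T2Space E] [BorelSpace E] [CompactSpace E] : CompactSpace (ProbabilityMeasure E) :=
  inferInstance

/-- (C) passage to the limit -/
theorem limit_coupling (x y : Fin 4 → ℤ) (c : ℝ) (hc : 0 < c)
    (h : ∀ n : ℕ, ∃ N, n ≤ N ∧ ∃ κ : Pth → Pth → ℝ, (∀ u v, 0 ≤ κ u v) ∧
      (∀ u, av N (fun v => κ u v) = 1) ∧ (∀ v, av N (fun u => κ u v) = 1) ∧
      c ≤ av N (fun u => av N (fun v =>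
        if (∀ i ≤ N, ∀ j ≤ N, x + S u i ≠ y + S v j) then κ u v else 0))) :
    ∃ (Ω : Type) (_ : MeasurableSpace Ω) (P : Measure Ω) (_ : IsProbabilityMeasure P)
      (X Y : ℕ → Ω → (Fin 4 → ℤ)),
      IsSRW P x X ∧ IsSRW P y Y ∧ 0 < P {ω | ∀ n m, X n ω ≠ Y m ω} := by
  choose N hN κ hκ0 hκ1 hκ2 hκ3 using h
  have hcm : ∀ A : Set (Pth × Pth), IsClopen A → MeasurableSet A := fun A hA =>
    hA.isOpen.measurableSet
  have htot : ∀ n, finM (N n) (κ n) Set.univ = 1 := by
    intro n
    rw [finM_apply _ _ (hκ0 n) MeasurableSet.univ]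
    have : av (N n) (fun u => av (N n) (fun v => κ n u v * ind ((u, v) ∈ (Set.univ : Set (Pth × Pth))))) = 1 := by
      have e : ∀ u v : Pth, κ n u v * ind ((u, v) ∈ (Set.univ : Set (Pth × Pth))) = κ n u v := by
        intro u v; rw [ind_of (Set.mem_univ _), mul_one]
      simp only [e, hκ1]
      exact av_const _ _
    rw [this]; simp
  let μs : ℕ → ProbabilityMeasure (Pth × Pth) := fun n => ⟨finM (N n) (κ n), ⟨htot n⟩⟩
  have : CompactSpace (ProbabilityMeasure (Pth × Pth)) := compactSpace_probabilityMeasure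
  obtain ⟨μ, hμ⟩ : ∃ μ : ProbabilityMeasure (Pth × Pth), Tendsto μs (hyperfilter ℕ : Filter ℕ) (𝓝 μ) :=
    ⟨_, (Ultrafilter.map μs (hyperfilter ℕ)).le_nhds_lim⟩
  have hev : ∀ {q : ℕ → Prop} (n0 : ℕ), (∀ n ≥ n0, q n) → ∀ᶠ n in (hyperfilter ℕ : Filter ℕ), q n := by
    intro q n0 hq
    exact Nat.hyperfilter_le_atTop (eventually_atTop.2 ⟨n0, hq⟩)
  -- values of clopen sets
  have hval : ∀ (A : Set (Pth × Pth)), IsClopen A → ∀ (a : ℝ) (n0 : ℕ),
      (∀ n ≥ n0, av (N n) (fun u => av (N n) (fun v => κ n u v * ind ((u, v) ∈ A))) = a) →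
      (μ : Measure (Pth × Pth)) A = ENNReal.ofReal a := by
    intro A hA a n0 hn0
    have h1 := ProbabilityMeasure.tendsto_measure_of_null_frontier_of_tendsto' hμ
      (E := A) (by simp [hA.frontier_eq])
    have h2 : Tendsto (fun i ↦ (μs i : Measure (Pth × Pth)) A) (hyperfilter ℕ : Filter ℕ)
        (𝓝 (ENNReal.ofReal a)) := by
      apply tendsto_const_nhds.congr'
      apply hev n0
      intro n hn
      show ENNReal.ofReal a = finM (N n) (κ n) A
      rw [finM_apply _ _ (hκ0 n) (hcm A hA), hn0 n hn]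
    exact tendsto_nhds_unique h1 h2
  have hge : ∀ (A : Set (Pth × Pth)), IsClopen A → ∀ (a : ℝ) (n0 : ℕ),
      (∀ n ≥ n0, a ≤ av (N n) (fun u => av (N n) (fun v => κ n u v * ind ((u, v) ∈ A)))) →
      ENNReal.ofReal a ≤ (μ : Measure (Pth × Pth)) A := by
    intro A hA a n0 hn0
    have h1 := ProbabilityMeasure.tendsto_measure_of_null_frontier_of_tendsto' hμ
      (E := A) (by simp [hA.frontier_eq])
    apply ge_of_tendsto h1
    apply hev n0
    intro n hn
    show ENNReal.ofReal a ≤ finM (N n) (κ n) A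
    rw [finM_apply _ _ (hκ0 n) (hcm A hA)]
    exact ENNReal.ofReal_le_ofReal (hn0 n hn)
  refine ⟨Pth × Pth, inferInstance, (μ : Measure (Pth × Pth)), inferInstance,
    fun n ω => x + S ω.1 n, fun n ω => y + S ω.2 n, ?_, ?_, ?_⟩
  · apply isSRW_of_cyl _ x Prod.fst measurable_fst
    intro Q sets
    obtain ⟨m, hm⟩ : ∃ m, Q ⊆ range m := ⟨Q.sup id + 1, fun i hi =>
      mem_range.2 (Nat.lt_succ_of_le (Finset.le_sup (f := id) hi))⟩
    apply hval _ _ _ m
    · intro n hn
      have hQ : Q ⊆ range (N n) := hm.trans (range_subset_range.2 (hn.trans (hN n)))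
      rw [← av_cyl (N n) Q hQ sets]
      apply av_congr
      intro u
      have e : ∀ v : Pth, κ n u v * ind ((u, v) ∈ {ω : Pth × Pth | ∀ i ∈ Q, ω.1 i ∈ sets i})
          = κ n u v * ind (∀ i ∈ Q, u i ∈ sets i) := fun v => rfl
      simp only [e]
      rw [av_mul_right, hκ1, one_mul]
    · apply isClopen_of_dep m
      intro a b hab ha i hi
      rw [← (hab i (mem_range.1 (hm hi))).1]
      exact ha i hi
  · apply isSRW_of_cyl _ y Prod.snd measurable_snd
    intro Q sets
    obtain ⟨m, hm⟩ : ∃ m, Q ⊆ range m := ⟨Q.sup id + 1, fun i hi =>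
      mem_range.2 (Nat.lt_succ_of_le (Finset.le_sup (f := id) hi))⟩
    apply hval _ _ _ m
    · intro n hn
      have hQ : Q ⊆ range (N n) := hm.trans (range_subset_range.2 (hn.trans (hN n)))
      rw [← av_cyl (N n) Q hQ sets, av_comm]
      apply av_congr
      intro v
      have e : ∀ u : Pth, κ n u v * ind ((u, v) ∈ {ω : Pth × Pth | ∀ i ∈ Q, ω.2 i ∈ sets i})
          = κ n u v * ind (∀ i ∈ Q, v i ∈ sets i) := fun u => rfl
      simp only [e]
      rw [av_mul_right, hκ2, one_mul]
    · apply isClopen_of_dep m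
      intro a b hab ha i hi
      rw [← (hab i (mem_range.1 (hm hi))).2]
      exact ha i hi
  · let D : ℕ → Set (Pth × Pth) := fun m => {ω | ∀ i ≤ m, ∀ j ≤ m, x + S ω.1 i ≠ y + S ω.2 j}
    have hDc : ∀ m, IsClopen (D m) := by
      intro m
      apply isClopen_of_dep m
      intro a b hab ha i hi j hj
      rw [← S_congr (u := a.1) (n := i) (fun k hk => (hab k (by omega)).1),
        ← S_congr (u := a.2) (n := j) (fun k hk => (hab k (by omega)).2)]
      exact ha i hi j hj
    have hD : ∀ m, ENNReal.ofReal c ≤ (μ : Measure (Pth × Pth)) (D m) := by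
      intro m
      apply hge _ (hDc m) c m
      intro n hn
      refine (hκ3 n).trans ?_
      apply av_mono
      intro u
      apply av_mono
      intro v
      split_ifs with hd
      · rw [ind_of, mul_one]
        intro i hi j hj
        exact hd i (hi.trans (hn.trans (hN n))) j (hj.trans (hn.trans (hN n)))
      · exact mul_nonneg (hκ0 n u v) (ind_nonneg _)
    have hanti : Antitone D := by
      intro a b hab ω hω i hi j hj
      exact hω i (hi.trans hab) j (hj.trans hab)
    have hInter : {ω : Pth × Pth | ∀ n m, x + S ω.1 n ≠ y + S ω.2 m} = ⋂ m, D m := by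
      ext ω
      simp only [Set.mem_iInter]
      constructor
      · intro hω m i _ j _
        exact hω i j
      · intro hω n m
        exact hω (max n m) n (le_max_left _ _) m (le_max_right _ _)
    rw [hInter]
    have ht := tendsto_measure_iInter_atTop (μ := (μ : Measure (Pth × Pth)))
      (fun m => (hcm _ (hDc m)).nullMeasurableSet) hanti ⟨0, measure_ne_top _ _⟩
    exact lt_of_lt_of_le (ENNReal.ofReal_pos.2 hc) (ge_of_tendsto' ht hD)

end Pool.Agent.Lib.MP_e4a9a7_pr
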